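import Mathlib.Data.List.Basic

/-!
MP_fe875b_lc, R4/Chk: certificates for the ratio 4 of three servers, and the checker (format `ks_r4_spec`, version 2).

Base points: `0` = last request `z`, `1` = new request `a`, `2, ..., 7` = further points; literal `2 i + s`, `s = 1`: antipode.
Atoms (digits in base `2^32`): `v(l,m)`, `l ≤ m`: `16 l + m`; `d(i,j)`, `i < j`: `256 + 8 i + j`; `Δ`: `320`; `Φ`: `321`; `δ`: `322`;
`u`: `323`. A form is a pair of lists of atoms (positive part, negative part).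
-/

set_option autoImplicit false

namespace Pool.Agent.KServer.R4

/-- Forms: positive and negative atoms. -/
abbrev Fm := List ℕ × List ℕ

/-- sum of two forms -/
def ad (F G : Fm) : Fm := (F.1 ++ G.1, F.2 ++ G.2)

/-- difference of two forms -/
def su (F G : Fm) : Fm := (F.1 ++ G.2, F.2 ++ G.1)

/-- `v(p,q)` as a form -/
def vF (p q : ℕ) : Fm := ([cond (Nat.ble p q) (16 * p + q) (16 * q + p)], [])

/-- the atom `d(i,j)` -/
def dI (i j : ℕ) : ℕ := cond (Nat.ble i j) (256 + (8 * i + j)) (256 + (8 * j + i))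

/-- `d(p,q)` as a form -/
def dF (p q : ℕ) : Fm :=
  cond (Nat.beq (p / 2) (q / 2)) (cond (Nat.beq (p % 2) (q % 2)) ([], []) ([320], []))
    (cond (Nat.beq (p % 2) (q % 2)) ([dI (p / 2) (q / 2)], []) ([320], [dI (p / 2) (q / 2)]))

/-- the opposite literal -/
def flip (l : ℕ) : ℕ := cond (Nat.beq (l % 2) 0) (l + 1) (l - 1)

/-- substitution of literals for symbols -/
def sb (m : List ℕ) (l : ℕ) : ℕ := cond (Nat.beq (l % 2) 0) (m.getD (l / 2) 0) (flip (m.getD (l / 2) 0))

/-- A linear template: terms `v(p,q)`, terms `+ d(p,q)`, terms `- d(p,q)`, multiple of `Δ`. -/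
structure Tm where
  v : List (ℕ × ℕ)
  d : List (ℕ × ℕ)
  e : List (ℕ × ℕ)
  c : ℕ

/-- the distance part of a template, `m` = literals of the symbols -/
def Tm.dm (T : Tm) (m : List ℕ) : Fm :=
  ((T.d.flatMap fun p => (dF (sb m p.1) (sb m p.2)).1) ++ (T.e.flatMap fun p => (dF (sb m p.1) (sb m p.2)).2)
      ++ List.replicate T.c 320,
    (T.d.flatMap fun p => (dF (sb m p.1) (sb m p.2)).2) ++ (T.e.flatMap fun p => (dF (sb m p.1) (sb m p.2)).1))

/-- the form of a template at the literals `m` -/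
def Tm.fm (T : Tm) (m : List ℕ) : Fm := ad ((T.v.flatMap fun p => (vF (sb m p.1) (sb m p.2)).1), []) (T.dm m)

/-- the three options for `v1(p,q)` -/
def opt (c p q : ℕ) : Fm :=
  match c with
  | 0 => ad (vF p q) (dF 2 0)
  | 1 => ad (vF 2 q) (dF p 0)
  | _ => ad (vF 2 p) (dF q 0)

/-- sum of the options `cs` of the terms `l` -/
def ros (m : List ℕ) : List (ℕ × ℕ) → List ℕ → Fm
  | [], _ => ([], [])
  | p :: l, cs => ad (opt (cs.headD 0) (sb m p.1) (sb m p.2)) (ros m l cs.tail)

/-- a template at `v1`, resolved by the choices `cs` -/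
def Tm.fr (T : Tm) (m cs : List ℕ) : Fm := ad (ros m T.v cs) (T.dm m)

/-- the empty template -/
def tm0 : Tm := ⟨[], [], [], 0⟩

/-- the identity assignment of the left side: last request `a`, variables `2, 3, ...` -/
def idm : List ℕ := [2, 4, 6, 8, 10, 12, 14]

/-- literals are smaller than 16 -/
def ok (l : ℕ) : Bool := Nat.blt l 16

/-- data of a job: all templates, template of the left side, its form -/
structure Jb where
  T : List (Tm × List Tm)
  t : Tm × List Tm
  F : Fm

/-- the template number `j` -/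
def Jb.g (J : Jb) (j : ℕ) : Tm × List Tm := J.T.getD j (tm0, [])

/-- Rows of a leaf. -/
inductive Rw where
  | lip (x p q : ℕ)
  | tri (p q r : ℕ)
  | nn (p q : ℕ)
  | hyp (n : ℕ)
  | ref (j : ℕ) (m : List ℕ)
  | mn (j : ℕ) (m cs : List ℕ)
  | del (k : ℕ)
  | ul (i c : ℕ)
  | qc (a c d : ℕ)
  | ru (m : List ℕ)
  | bad

/-- number of the template with options -/
def j7 : ℕ := 6

/-- its options `v(BB) + d(ab)` and `v(bB) - d(ab) + Δ` -/
def UU : List Tm := [⟨[(5, 5)], [(2, 4)], [], 0⟩, ⟨[(4, 5)], [], [(2, 4)], 1⟩]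

/-- the form of a row and its validity (`H` = stack of hypotheses) -/
def Rw.fm (J : Jb) (H : List Fm) : Rw → Bool × Fm
  | .lip x p q => (ok x && (ok p && ok q), su (ad (vF x p) (dF p q)) (vF x q))
  | .tri p q r => (ok p && (ok q && ok r), su (ad (dF p q) (dF q r)) (dF p r))
  | .nn p q => (ok p && ok q, dF p q)
  | .hyp n => (true, H.getD n ([], []))
  | .ref j m => (Nat.blt j J.T.length && (Nat.beq (J.g j).2.length 0 && m.all ok), su ((J.g j).1.fm (0 :: m)) ([321], []))
  | .mn j m cs => (Nat.blt j J.T.length && (Nat.beq (J.g j).2.length 0 && m.all ok), su ((J.g j).1.fr (2 :: m) cs) J.F)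
  | .del k => (true, match k with
    | 0 => su (ad (dF 2 0) (dF 2 0)) ([322], [])
    | _ => su (ad (vF 2 3) ([320], [])) (ad (vF 3 3) ([322], [])))
  | .ul i c => (Nat.blt i J.t.2.length, su ((J.t.2.getD i tm0).fr idm [c]) ([323], []))
  | .qc a c d => (ok a && (ok c && ok d), su (ad (vF a a) (vF c d)) (ad (vF a c) (vF a d)))
  | .ru m => (Nat.blt j7 J.T.length && m.all ok,
      su (ad ((J.g j7).1.fm (0 :: 0 :: 2 :: m)) (dF 2 0)) (ad (vF 3 3) ([321, 322], [])))
  | .bad => (false, ([], []))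

/-- digit base -/
def bs : ℕ := 4294967296

/-- packed list of atoms -/
def pk : List ℕ → ℕ
  | [] => 0
  | k :: l => bs ^ k + pk l

/-- `n` fields of 4 bits -/
def lits (n c : ℕ) : List ℕ :=
  match n with
  | 0 => []
  | n + 1 => (c % 16) :: lits n (c / 16)

/-- `n` fields of 2 bits -/
def chs (n c : ℕ) : List ℕ :=
  match n with
  | 0 => []
  | n + 1 => (c % 4) :: chs n (c / 4)

/-- field number `k` of 4 bits -/
def fld (c k : ℕ) : ℕ := (c >>> (4 * k)) % 16

/-- decoding of a row: kind 4 bits, then fields of 4 bits, choices from bit 32 on -/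
def dec (c : ℕ) : Rw :=
  match c % 16 with
  | 0 => .lip (fld c 1) (fld c 2) (fld c 3)
  | 1 => .tri (fld c 1) (fld c 2) (fld c 3)
  | 2 => .nn (fld c 1) (fld c 2)
  | 3 => .hyp ((c >>> 4) % 256)
  | 4 => .ref (fld c 1) (lits 6 (c >>> 8))
  | 5 => .mn (fld c 1) (lits 6 (c >>> 8)) (chs 6 (c >>> 32))
  | 6 => .del (fld c 1)
  | 7 => .ul (fld c 1) (fld c 2)
  | 8 => .qc (fld c 1) (fld c 2) (fld c 3)
  | 9 => .ru (lits 4 (c >>> 12))
  | _ => .bad

/-- force evaluation of a number -/
noncomputable def fo (n : ℕ) (k : ℕ → Bool) : Bool := Nat.rec (motive := fun _ => Bool) (k 0) (fun m _ => k (Nat.succ m)) n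

/-- one row, multiplier in the bits 44-63 -/
noncomputable def row (J : Jb) (H : List Fm) (e P N t : ℕ) (k : ℕ → ℕ → ℕ → Bool) : Bool :=
  match (dec e).fm J H with
  | (b, F) => b && fo (e >>> 44) fun m => fo (P + m * pk F.1) fun P => fo (N + m * pk F.2) fun N =>
      fo (t + m * (F.1.length + F.2.length)) fun t => k P N t

/-- the rows `n - 1, ..., 0` of the code `c`; at the end the comparison of the positive part and the negative part -/
noncomputable def leaf (J : Jb) (H : List Fm) (c : ℕ) : ℕ → ℕ → ℕ → ℕ → Bool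
  | 0, P, N, t => Nat.beq P N && Nat.blt t bs
  | n + 1, P, N, t => fo ((c >>> (64 * n)) % 18446744073709551616) fun e => row J H e P N t fun P N t => leaf J H c n P N t

/-- Certificates. -/
inductive Tr where
  | lf (k n c : ℕ)
  | sp (a b c d : ℕ) (t1 t2 : Tr)
  | sU (m : List ℕ) (t1 t2 : Tr)

/-- hypotheses of the branch `i` of `sU` -/
def h7 (J : Jb) (m : List ℕ) (i : ℕ) : List Fm :=
  (su ((J.g j7).1.fm (0 :: m)) (ad (((J.g j7).2.getD i tm0).fm (0 :: m)) ([321], [])))
    :: ((J.g j7).2.map fun O => su (O.fm (0 :: m)) (((J.g j7).2.getD i tm0).fm (0 :: m)))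

/-- the checker -/
noncomputable def Tr.chk (J : Jb) : Tr → List Fm → Bool
  | .lf k n c, H => Nat.blt 0 k && fo (k * pk (ad J.F ([], [321, 322])).2) fun P => fo (k * pk (ad J.F ([], [321, 322])).1) fun N =>
      fo (k * (J.F.1.length + J.F.2.length + 2)) fun t => leaf J H c n P N t
  | .sp a b c d t1 t2, H => (ok a && (ok b && (ok c && ok d))) &&
      (t1.chk J (su (ad (vF a b) (vF c d)) (ad (vF a c) (vF b d)) :: H) &&
        t2.chk J (su (ad (vF a b) (vF c d)) (ad (vF a d) (vF b c)) :: H))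
  | .sU m t1 t2, H => (Nat.blt j7 J.T.length && m.all ok) && (t1.chk J (h7 J m 0 ++ H) && t2.chk J (h7 J m 1 ++ H))

/-- number of options of a term -/
def nopt (p : ℕ × ℕ) : ℕ := cond (Nat.beq p.1 p.2) 2 3

/-- the hypotheses `option_k - option_c ≥ 0`, `k ≠ c`, of one term (the newest first) -/
def hy1 (p : ℕ × ℕ) (c : ℕ) : List Fm :=
  (((List.range (nopt p)).filter fun k => !Nat.beq k c).map fun k =>
    su (opt k (sb idm p.1) (sb idm p.2)) (opt c (sb idm p.1) (sb idm p.2))).reverse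

/-- the initial stack -/
def hys : List (ℕ × ℕ) → List ℕ → List Fm → List Fm
  | [], _, H => H
  | p :: l, cs, H => hys l cs.tail (hy1 p (cs.headD 0) ++ H)

/-- the job data for template `t` and choices `cs` -/
def mkJ (T : List (Tm × List Tm)) (t : ℕ) (cs : List ℕ) : Jb :=
  ⟨T, T.getD t (tm0, []), su ((T.getD t (tm0, [])).1.fr idm cs) (match (T.getD t (tm0, [])).2 with | [] => ([], []) | _ :: _ => ([323], []))⟩

/-- check of a job -/
noncomputable def job (T : List (Tm × List Tm)) (t : ℕ) (cs : List ℕ) (r : Tr) : Bool :=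
  r.chk (mkJ T t cs) (hys (T.getD t (tm0, [])).1.v cs [])

/-- all choices for a list of terms, in lexicographic order -/
def allcs : List (ℕ × ℕ) → List (List ℕ)
  | [] => [[]]
  | p :: l => (List.range (nopt p)).flatMap fun c => (allcs l).map fun cs => c :: cs

/-- check of a list of jobs of the template `t` -/
noncomputable def jobs (T : List (Tm × List Tm)) (t : ℕ) : List (List ℕ) → List Tr → Bool
  | [], [] => true
  | cs :: l, r :: rs => job T t cs r && jobs T t l rs
  | _, _ => false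

/-- all literals of a template are smaller than 14 -/
def Tm.ok14 (T : Tm) : Bool :=
  (T.v.all fun p => Nat.blt p.1 14 && Nat.blt p.2 14) && ((T.d.all fun p => Nat.blt p.1 14 && Nat.blt p.2 14) &&
    (T.e.all fun p => Nat.blt p.1 14 && Nat.blt p.2 14))

/-- all templates are well formed: options have exactly one term -/
def okT (T : List (Tm × List Tm)) : Bool := T.all fun t => t.1.ok14 && t.2.all fun O => O.ok14 && Nat.beq O.v.length 1

/-- The eight templates. Literals: `0, 1` = `z, z'`; `2, 3` = `a, a'`; `4, 5` = `b, b'`; `6, 7` = `c, c'`; `8, 9` = `e, e'`;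
`10, 11` = `f, f'`; `12, 13` = `g, g'`. -/
def TT : List (Tm × List Tm) :=
  [(⟨[(1, 1), (1, 2), (4, 6), (4, 7), (5, 5)], [], [], 0⟩, []),
   (⟨[(1, 1), (2, 4), (2, 6), (3, 3), (5, 7)], [], [], 0⟩, []),
   (⟨[(2, 5), (3, 3), (4, 6), (4, 8), (7, 9)], [(0, 2), (0, 2)], [(0, 4)], 1⟩, []),
   (⟨[(2, 4), (2, 5), (3, 3), (4, 6), (7, 9)], [(0, 2), (0, 8)], [(0, 4)], 1⟩, []),
   (⟨[(2, 7), (3, 3), (3, 4), (6, 8), (6, 9)], [(0, 2), (0, 2)], [(0, 6)], 1⟩, []),
   (⟨[(2, 3), (2, 7), (3, 3), (6, 8), (6, 9)], [(0, 2), (0, 4)], [(0, 6)], 1⟩, []),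
   (⟨[(4, 7), (4, 8), (4, 13), (5, 5), (6, 9), (8, 10)],
      [(0, 2), (0, 2), (0, 2), (2, 4), (2, 12), (4, 6), (4, 6)], [(2, 6), (2, 10), (4, 8)], 3⟩, UU),
   (⟨[(2, 5), (4, 6), (4, 7), (6, 8), (9, 11)], [(0, 2), (0, 2), (2, 4), (2, 10)], [(0, 4), (2, 6)], 2⟩, [])]

end Pool.Agent.KServer.R4
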