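import Pool.Agent.Work.MP_fe875b_lc.R4.Pot

/-!
MP_fe875b_lc, three servers, ratio 4: the competitive ratio from the conclusion of the certificates.
-/

set_option autoImplicit false

namespace Pool.Agent.KServer.R4

theorem sp_of_loc {V : Type} {D : V → V → ℝ} {anti : V → V} {Δ : ℝ} {u : V → V → ℝ} (h : Loc D anti Δ u) :
    Sp D anti Δ u where
  self := h.metr.self
  nn := h.metr.nonneg
  comm := h.metr.comm
  tri := h.metr.tri
  ai := h.hai
  an := h.ha
  vs := h.symm
  vl r p q := by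
    have h1 := h.lip q p r
    rw [h.symm q r, h.symm p r, h.metr.comm q p] at h1
    exact h1
  v4 p q r s := min_le_iff.1 (h.fp p q r s)

/-- The conclusion of the certificates. -/
def Concl : Prop :=
  ∀ (V : Type) (D : V → V → ℝ) (anti : V → V) (Δ : ℝ) (v : V → V → ℝ), Sp D anti Δ v →
    ∀ (z a : V) (phi phi1 : ℝ),
      (∀ j < TT.length, ∀ y : ℕ → V, y 0 = z → phi ≤ tval D anti Δ v y (TT.getD j (tm0, []))) →
      (∀ j < TT.length, ∀ y : ℕ → V, y 0 = a → phi1 ≤ tval D anti Δ (vn D v z a) y (TT.getD j (tm0, []))) →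
      (∃ j < TT.length, ∃ y : ℕ → V, y 0 = a ∧ phi1 = tval D anti Δ (vn D v z a) y (TT.getD j (tm0, []))) →
      phi + min (2 * D a z) (v a (anti a) + Δ - v (anti a) (anti a)) ≤ phi1

theorem four_of_concl (H : Concl) :
    ∀ (M : Type) [MetricSpace M] (c₀ : Fin 3 → M), ∃ b : ℝ, Comp (fun x y => dist x y) c₀ 4 b := by
  refine four_of_step fun V _ D anti Δ _ _ _ u hu z a => ?_
  obtain ⟨t, ht, τ, hτ, hP⟩ := exists_Pz D anti Δ a (vn D u z a)
  refine H V D anti Δ u (sp_of_loc hu) z a _ _ (fun j hj y hy => ?_) (fun j hj y hy => ?_) ⟨t, ht, τ, hτ, hP⟩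
  · have := Pz_le D anti Δ u (t := j) hj y
    rwa [hy] at this
  · have := Pz_le D anti Δ (vn D u z a) (t := j) hj y
    rwa [hy] at this

end Pool.Agent.KServer.R4
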