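import Pool.Agent.Work.MP_fe875b_lc.R4.Chk

/-!
MP_fe875b_lc, R4/Fk: the fast checker (raw recursors and raw arithmetic), format `ks_r4_spec`, version 2.

Atoms as in `R4/Chk`; the digit 324 is a dummy (value 0), the digit 325 counts the atoms.
-/

set_option autoImplicit false

namespace Pool.Agent.KServer.R4

/-- table: shift of the atom `v(p,q)`, 14 bits at `14 (16 p + q)` -/
def TV : ℕ := 0x7f81de06f819e05f815e04f811e03f80de02f809e01f805e00f801e07781dc06f019c05f015c04f011c03f00dc02f009c01f005c00f001c06f81bc06e819a05e815a04e811a03e80da02e809a01e805a00e801a067819c066819805e015804e011803e00d802e009801e005800e001805f817c05e817805d815604d811603d80d602d809601d805600d8016057815c0568158055815404d011403d00d402d009401d005400d001404f813c04e813804d813404c811203c80d202c809201c805200c8012047811c04681180458114044811003c00d002c009001c005000c001003f80fc03e80f803d80f403c80f003b80ce02b808e01b804e00b800e03780dc03680d803580d403480d003380cc02b008c01b004c00b000c02f80bc02e80b802d80b402c80b002b80ac02a808a01a804a00a800a027809c026809802580940248090023808c022808801a004800a000801f807c01e807801d807401c807001b806c01a806801980460098006017805c016805801580540148050013804c01280480118044009000400f803c00e803800d803400c803000b802c00a802800980240088002007801c006801800580140048010003800c0028008001800400080000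

/-- table: shift of the positive atom of `d(p,q)` -/
def TP : ℕ := 0xa2028009b82800978280093828008f828008b8280087828008382800a002880a0026e0a0025e0a0024e0a0023e0a0022e0a0021e0a0020e09b82800a202800970280093028008f028008b0280087028008302800a0026e0a002880a0025c0a0024c0a0023c0a0022c0a0021c0a0020c097828009702800a20280092828008e828008a8280086828008282800a0025e0a0025c0a002880a0024a0a0023a0a0022a0a0021a0a0020a0938280093028009282800a2028008e028008a0280086028008202800a0024e0a0024c0a0024a0a002880a002380a002280a002180a0020808f828008f028008e828008e02800a202800898280085828008182800a0023e0a0023c0a0023a0a002380a002880a002260a002160a0020608b828008b028008a828008a028008982800a20280085028008102800a0022e0a0022c0a0022a0a002280a002260a002880a002140a002040878280087028008682800860280085828008502800a2028008082800a0021e0a0021c0a0021a0a002180a002160a002140a002880a0020208382800830280082828008202800818280081028008082800a202800a0020e0a0020c0a0020a0a002080a002060a002040a002020a002880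

/-- table: shift of the negative atom of `d(p,q)` -/
def TN : ℕ := 0xa202880a2026e0a2025e0a2024e0a2023e0a2022e0a2021e0a2020e0a2028809b82880978288093828808f828808b8288087828808382880a2026e0a202880a2025c0a2024c0a2023c0a2022c0a2021c0a2020c09b82880a202880970288093028808f028808b0288087028808302880a2025e0a2025c0a202880a2024a0a2023a0a2022a0a2021a0a2020a097828809702880a20288092828808e828808a8288086828808282880a2024e0a2024c0a2024a0a202880a202380a202280a202180a202080938288093028809282880a2028808e028808a0288086028808202880a2023e0a2023c0a2023a0a202380a202880a202260a202160a2020608f828808f028808e828808e02880a202880898288085828808182880a2022e0a2022c0a2022a0a202280a202260a202880a202140a2020408b828808b028808a828808a028808982880a20288085028808102880a2021e0a2021c0a2021a0a202180a202160a202140a202880a202020878288087028808682880860288085828808502880a2028808082880a2020e0a2020c0a2020a0a202080a202060a202040a202020a2028808382880830288082828808202880818288081028808082880a202880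

/-- unit of the digit 325 -/
def WU : ℕ := Nat.shiftLeft (nat_lit 1) (nat_lit 10400)

/-- bound for the digits below 324 -/
def BA : ℕ := Nat.shiftLeft (nat_lit 1) (nat_lit 10368)

/-- bound for the digits below 326 -/
def BB : ℕ := Nat.shiftLeft (nat_lit 1) (nat_lit 10432)

/-- the atom with shift `s` -/
def aw (s : ℕ) : ℕ := Nat.add WU (Nat.shiftLeft (nat_lit 1) s)

/-- the atom `Δ` -/
def aD : ℕ := aw (nat_lit 10240)
/-- the atom `Φ` -/
def aF : ℕ := aw (nat_lit 10272)
/-- the atom `δ` -/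
def aE : ℕ := aw (nat_lit 10304)
/-- the atom `u` -/
def aU : ℕ := aw (nat_lit 10336)

/-- the atom `v(p,q)` for the index `16 p + q` -/
def av (i : ℕ) : ℕ := aw (Nat.land (Nat.shiftRight TV (Nat.mul (nat_lit 14) i)) (nat_lit 16383))

/-- the positive part of `d(p,q)` -/
def dp (i : ℕ) : ℕ := aw (Nat.land (Nat.shiftRight TP (Nat.mul (nat_lit 14) i)) (nat_lit 16383))

/-- the negative part of `d(p,q)` -/
def dn (i : ℕ) : ℕ := aw (Nat.land (Nat.shiftRight TN (Nat.mul (nat_lit 14) i)) (nat_lit 16383))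

/-- index of a pair of literals -/
def ix (p q : ℕ) : ℕ := Nat.add (Nat.mul (nat_lit 16) p) q

/-- substitution: the symbol literal `l` under the packed assignment `M` (4 bits per symbol) -/
def lt (M l : ℕ) : ℕ :=
  Nat.xor (Nat.land (Nat.shiftRight M (Nat.mul (nat_lit 4) (Nat.shiftRight l (nat_lit 1)))) (nat_lit 15)) (Nat.land l (nat_lit 1))

/-- sum of `v` terms -/
noncomputable def vS (M : ℕ) (l : List (ℕ × ℕ)) : ℕ :=
  List.rec (motive := fun _ => ℕ) (nat_lit 0) (fun p _ ih => Nat.add (av (ix (lt M p.1) (lt M p.2))) ih) l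

/-- sum of positive parts of distances -/
noncomputable def dS (M : ℕ) (l : List (ℕ × ℕ)) : ℕ :=
  List.rec (motive := fun _ => ℕ) (nat_lit 0) (fun p _ ih => Nat.add (dp (ix (lt M p.1) (lt M p.2))) ih) l

/-- sum of negative parts of distances -/
noncomputable def nS (M : ℕ) (l : List (ℕ × ℕ)) : ℕ :=
  List.rec (motive := fun _ => ℕ) (nat_lit 0) (fun p _ ih => Nat.add (dn (ix (lt M p.1) (lt M p.2))) ih) l

/-- distance part of a template, positive -/
noncomputable def eP (T : Tm) (M : ℕ) : ℕ := Nat.add (dS M T.d) (Nat.add (nS M T.e) (Nat.mul T.c aD))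

/-- distance part of a template, negative -/
noncomputable def eN (T : Tm) (M : ℕ) : ℕ := Nat.add (nS M T.d) (dS M T.e)

/-- the template `T` at `M`, positive part (negative part: `eN T M`) -/
noncomputable def tP (T : Tm) (M : ℕ) : ℕ := Nat.add (vS M T.v) (eP T M)

/-- option `c` for `v1(p,q)`, positive part -/
noncomputable def oP (c p q : ℕ) : ℕ :=
  Nat.rec (motive := fun _ => ℕ) (Nat.add (av (ix p q)) (dp (nat_lit 32)))
    (fun c _ => Nat.rec (motive := fun _ => ℕ) (Nat.add (av (ix (nat_lit 2) q)) (dp (ix p (nat_lit 0))))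
      (fun _ _ => Nat.add (av (ix (nat_lit 2) p)) (dp (ix q (nat_lit 0)))) c) c

/-- option `c` for `v1(p,q)`, negative part -/
noncomputable def oN (c p q : ℕ) : ℕ :=
  Nat.rec (motive := fun _ => ℕ) (dn (nat_lit 32))
    (fun c _ => Nat.rec (motive := fun _ => ℕ) (dn (ix p (nat_lit 0))) (fun _ _ => dn (ix q (nat_lit 0))) c) c

/-- resolved `v1` terms, positive part; 2 bits per choice -/
noncomputable def roP (M : ℕ) (l : List (ℕ × ℕ)) : ℕ → ℕ :=
  List.rec (motive := fun _ => ℕ → ℕ) (fun _ => nat_lit 0)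
    (fun p _ ih cs => Nat.add (oP (Nat.land cs (nat_lit 3)) (lt M p.1) (lt M p.2)) (ih (Nat.shiftRight cs (nat_lit 2)))) l

/-- resolved `v1` terms, negative part -/
noncomputable def roN (M : ℕ) (l : List (ℕ × ℕ)) : ℕ → ℕ :=
  List.rec (motive := fun _ => ℕ → ℕ) (fun _ => nat_lit 0)
    (fun p _ ih cs => Nat.add (oN (Nat.land cs (nat_lit 3)) (lt M p.1) (lt M p.2)) (ih (Nat.shiftRight cs (nat_lit 2)))) l

/-- resolved template, positive part -/
noncomputable def rP (T : Tm) (M cs : ℕ) : ℕ := Nat.add (roP M T.v cs) (eP T M)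

/-- resolved template, negative part -/
noncomputable def rN (T : Tm) (M cs : ℕ) : ℕ := Nat.add (roN M T.v cs) (eN T M)

/-- the assignment of the left side -/
def M0 : ℕ := nat_lit 248153666

/-- field of a code -/
def f1 (c : ℕ) : ℕ := Nat.land (Nat.shiftRight c (nat_lit 4)) (nat_lit 15)
/-- field of a code -/
def f2 (c : ℕ) : ℕ := Nat.land (Nat.shiftRight c (nat_lit 8)) (nat_lit 15)
/-- field of a code -/
def f3 (c : ℕ) : ℕ := Nat.land (Nat.shiftRight c (nat_lit 12)) (nat_lit 15)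

/-- the assignment of a reference, `z` to `z` -/
def MM (c : ℕ) : ℕ := Nat.mul (nat_lit 16) (Nat.land (Nat.shiftRight c (nat_lit 8)) (nat_lit 16777215))

/-- the assignment of row 9 -/
def MR (c : ℕ) : ℕ := Nat.add (nat_lit 512) (Nat.mul (nat_lit 4096) (Nat.land (Nat.shiftRight c (nat_lit 12)) (nat_lit 65535)))

/-- template 0 -/
def t0 : Tm := ⟨[(1, 1), (1, 2), (4, 6), (4, 7), (5, 5)], [], [], 0⟩
/-- template 1 -/
def t1 : Tm := ⟨[(1, 1), (2, 4), (2, 6), (3, 3), (5, 7)], [], [], 0⟩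
/-- template 2 -/
def t2 : Tm := ⟨[(2, 5), (3, 3), (4, 6), (4, 8), (7, 9)], [(0, 2), (0, 2)], [(0, 4)], 1⟩
/-- template 3 -/
def t3 : Tm := ⟨[(2, 4), (2, 5), (3, 3), (4, 6), (7, 9)], [(0, 2), (0, 8)], [(0, 4)], 1⟩
/-- template 4 -/
def t4 : Tm := ⟨[(2, 7), (3, 3), (3, 4), (6, 8), (6, 9)], [(0, 2), (0, 2)], [(0, 6)], 1⟩
/-- template 5 -/
def t5 : Tm := ⟨[(2, 3), (2, 7), (3, 3), (6, 8), (6, 9)], [(0, 2), (0, 4)], [(0, 6)], 1⟩
/-- template 6, linear part -/
def t6 : Tm := ⟨[(4, 7), (4, 8), (4, 13), (5, 5), (6, 9), (8, 10)],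
  [(0, 2), (0, 2), (0, 2), (2, 4), (2, 12), (4, 6), (4, 6)], [(2, 6), (2, 10), (4, 8)], 3⟩
/-- template 7 -/
def t7 : Tm := ⟨[(2, 5), (4, 6), (4, 7), (6, 8), (9, 11)], [(0, 2), (0, 2), (2, 4), (2, 10)], [(0, 4), (2, 6)], 2⟩
/-- option 0 of template 6 -/
def u0 : Tm := ⟨[(5, 5)], [(2, 4)], [], 0⟩
/-- option 1 of template 6 -/
def u1 : Tm := ⟨[(4, 5)], [], [(2, 4)], 1⟩

/-- the templates without options (entry 6: a copy of entry 0) -/
def TL : List Tm := [t0, t1, t2, t3, t4, t5, t0, t7]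

/-- template number `t` -/
noncomputable def nT (t : ℕ) : Tm :=
  List.rec (motive := fun _ => ℕ → Tm) (fun _ => t0) (fun h _ ih i => Nat.rec (motive := fun _ => Tm) h (fun j _ => ih j) i) TL t

/-- the option number `i` of template 6 -/
noncomputable def nU (i : ℕ) : Tm := Nat.rec (motive := fun _ => Tm) u0 (fun _ _ => u1) i

/-- entry `i` of the stack -/
noncomputable def nH (H : List (ℕ × ℕ)) : ℕ → ℕ × ℕ :=
  List.rec (motive := fun _ => ℕ → ℕ × ℕ) (fun _ => (nat_lit 0, nat_lit 0))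
    (fun h _ ih i => Nat.rec (motive := fun _ => ℕ × ℕ) h (fun j _ => ih j) i) H

/-- selection -/
noncomputable def disp (k x0 x1 x2 x3 x4 x5 x6 x7 x8 x9 : ℕ) : ℕ :=
  Nat.rec (motive := fun _ => ℕ) x0 (fun k _ => Nat.rec (motive := fun _ => ℕ) x1 (fun k _ => Nat.rec (motive := fun _ => ℕ) x2
    (fun k _ => Nat.rec (motive := fun _ => ℕ) x3 (fun k _ => Nat.rec (motive := fun _ => ℕ) x4 (fun k _ =>
      Nat.rec (motive := fun _ => ℕ) x5 (fun k _ => Nat.rec (motive := fun _ => ℕ) x6 (fun k _ =>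
        Nat.rec (motive := fun _ => ℕ) x7 (fun k _ => Nat.rec (motive := fun _ => ℕ) x8 (fun k _ =>
          Nat.rec (motive := fun _ => ℕ) x9 (fun _ _ => nat_lit 0) k) k) k) k) k) k) k) k) k) k

/-- positive part of `Lip` -/
def lipP (c : ℕ) : ℕ := Nat.add (av (ix (f1 c) (f2 c))) (dp (ix (f2 c) (f3 c)))
/-- negative part of `Lip` -/
def lipN (c : ℕ) : ℕ := Nat.add (av (ix (f1 c) (f3 c))) (dn (ix (f2 c) (f3 c)))
/-- positive part of `Tri` -/
def triP (c : ℕ) : ℕ := Nat.add (dp (ix (f1 c) (f2 c))) (Nat.add (dp (ix (f2 c) (f3 c))) (dn (ix (f1 c) (f3 c))))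
/-- negative part of `Tri` -/
def triN (c : ℕ) : ℕ := Nat.add (dn (ix (f1 c) (f2 c))) (Nat.add (dn (ix (f2 c) (f3 c))) (dp (ix (f1 c) (f3 c))))
/-- positive part of `Del` -/
noncomputable def delP (c : ℕ) : ℕ := Nat.rec (motive := fun _ => ℕ) (Nat.add (dp (nat_lit 32)) (dp (nat_lit 32)))
  (fun _ _ => Nat.add (av (nat_lit 35)) aD) (f1 c)
/-- negative part of `Del` -/
noncomputable def delN (c : ℕ) : ℕ := Nat.rec (motive := fun _ => ℕ) (Nat.add (dn (nat_lit 32)) (Nat.add (dn (nat_lit 32)) aE))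
  (fun _ _ => Nat.add (av (nat_lit 51)) aE) (f1 c)
/-- positive part of `QC1` -/
def qcP (c : ℕ) : ℕ := Nat.add (av (ix (f1 c) (f1 c))) (av (ix (f2 c) (f3 c)))
/-- negative part of `QC1` -/
def qcN (c : ℕ) : ℕ := Nat.add (av (ix (f1 c) (f2 c))) (av (ix (f1 c) (f3 c)))
/-- positive part of row 9 -/
noncomputable def ruP (c : ℕ) : ℕ := Nat.add (tP t6 (MR c)) (dp (nat_lit 32))
/-- negative part of row 9 -/
noncomputable def ruN (c : ℕ) : ℕ := Nat.add (eN t6 (MR c)) (Nat.add (dn (nat_lit 32)) (Nat.add (av (nat_lit 51)) (Nat.add aF aE)))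

/-- positive part of a row; `H` the stack, `lp`, `ln` the left side -/
noncomputable def rp (H : List (ℕ × ℕ)) (ln c : ℕ) : ℕ :=
  disp (Nat.land c (nat_lit 15)) (lipP c) (triP c) (dp (ix (f1 c) (f2 c)))
    (nH H (Nat.land (Nat.shiftRight c (nat_lit 4)) (nat_lit 255))).1 (tP (nT (f1 c)) (MM c))
    (Nat.add (rP (nT (f1 c)) (Nat.add (nat_lit 2) (MM c)) (Nat.shiftRight c (nat_lit 32))) ln)
    (delP c) (rP (nU (f1 c)) M0 (f2 c)) (qcP c) (ruP c)

/-- negative part of a row -/
noncomputable def rn (H : List (ℕ × ℕ)) (lp c : ℕ) : ℕ :=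
  disp (Nat.land c (nat_lit 15)) (lipN c) (triN c) (dn (ix (f1 c) (f2 c)))
    (nH H (Nat.land (Nat.shiftRight c (nat_lit 4)) (nat_lit 255))).2 (Nat.add (eN (nT (f1 c)) (MM c)) aF)
    (Nat.add (rN (nT (f1 c)) (Nat.add (nat_lit 2) (MM c)) (Nat.shiftRight c (nat_lit 32))) lp)
    (delN c) (Nat.add (rN (nU (f1 c)) M0 (f2 c)) aU) (qcN c) (ruN c)

/-- force evaluation -/
noncomputable def foN (n : ℕ) (k : ℕ → ℕ) : ℕ := Nat.rec (motive := fun _ => ℕ) (k (nat_lit 0)) (fun m _ => k (Nat.succ m)) n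

/-- the code of row `k` without multiplier -/
def cd (c k : ℕ) : ℕ := Nat.land (Nat.shiftRight c (Nat.mul (nat_lit 64) k)) (nat_lit 17592186044415)

/-- the multiplier of row `k` -/
def mu (c k : ℕ) : ℕ := Nat.land (Nat.shiftRight c (Nat.add (Nat.mul (nat_lit 64) k) (nat_lit 44))) (nat_lit 1048575)

/-- sum of the positive parts of the rows -/
noncomputable def sP (H : List (ℕ × ℕ)) (ln c n : ℕ) : ℕ :=
  Nat.rec (motive := fun _ => ℕ) (nat_lit 0) (fun k ih => Nat.add (Nat.mul (mu c k) (foN (cd c k) (rp H ln))) ih) n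

/-- sum of the negative parts of the rows -/
noncomputable def sN (H : List (ℕ × ℕ)) (lp c n : ℕ) : ℕ :=
  Nat.rec (motive := fun _ => ℕ) (nat_lit 0) (fun k ih => Nat.add (Nat.mul (mu c k) (foN (cd c k) (rn H lp))) ih) n

/-- comparison of the digits below 324 -/
def cmpN (P N : ℕ) : Bool := Nat.beq (Nat.mod P BA) (Nat.mod N BA) && (Nat.ble P (Nat.pred BB) && Nat.ble N (Nat.pred BB))

/-- Certificates. -/
inductive Tf where
  | lf (k n c : ℕ)
  | sp (a b c d : ℕ) (t1 t2 : Tf)
  | sU (m : ℕ) (t1 t2 : Tf)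

/-- `v(a,b) + v(c,d) - v(a,c) - v(b,d)` -/
def spH (a b c d : ℕ) : ℕ × ℕ := (Nat.add (av (ix a b)) (av (ix c d)), Nat.add (av (ix a c)) (av (ix b d)))

/-- `v(a,b) + v(c,d) - v(a,d) - v(b,c)` -/
def spG (a b c d : ℕ) : ℕ × ℕ := (Nat.add (av (ix a b)) (av (ix c d)), Nat.add (av (ix a d)) (av (ix b c)))

/-- hypotheses of the branch `i` of `sU`, in front of the stack -/
noncomputable def uH (M i : ℕ) (H : List (ℕ × ℕ)) : List (ℕ × ℕ) :=
  (Nat.add (tP t6 M) (eN (nU i) M), Nat.add (eN t6 M) (Nat.add (tP (nU i) M) aF)) ::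
  (Nat.add (tP u0 M) (eN (nU i) M), Nat.add (eN u0 M) (tP (nU i) M)) ::
  (Nat.add (tP u1 M) (eN (nU i) M), Nat.add (eN u1 M) (tP (nU i) M)) :: H

/-- the checker; `lp`, `ln`: the left side -/
noncomputable def Tf.chk (lp ln : ℕ) (r : Tf) : List (ℕ × ℕ) → Bool :=
  Tf.rec (motive := fun _ => List (ℕ × ℕ) → Bool)
    (fun k n c H => Nat.ble (nat_lit 1) k && cmpN (Nat.add (Nat.mul k (Nat.add aF (Nat.add aE ln))) (sP H ln c n))
      (Nat.add (Nat.mul k lp) (sN H lp c n)))
    (fun a b c d _ _ i1 i2 H => (Nat.ble a (nat_lit 15) && (Nat.ble b (nat_lit 15) && (Nat.ble c (nat_lit 15) && Nat.ble d (nat_lit 15)))) &&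
      (i1 (spH a b c d :: H) && i2 (spG a b c d :: H)))
    (fun m _ _ i1 i2 H => i1 (uH (Nat.mul (nat_lit 16) m) (nat_lit 0) H) && i2 (uH (Nat.mul (nat_lit 16) m) (nat_lit 1) H)) r

/-- the hypotheses of one term (`p`, `q` literals, `c` the choice, `e = 1` if there are only two options) in front of the stack -/
noncomputable def hq (c p q : ℕ) (k : ℕ) (H : List (ℕ × ℕ)) : List (ℕ × ℕ) :=
  Bool.rec (motive := fun _ => List (ℕ × ℕ)) ((Nat.add (oP k p q) (oN c p q), Nat.add (oN k p q) (oP c p q)) :: H) H (Nat.beq k c)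

/-- the initial stack -/
noncomputable def hF (l : List (ℕ × ℕ)) : ℕ → List (ℕ × ℕ) → List (ℕ × ℕ) :=
  List.rec (motive := fun _ => ℕ → List (ℕ × ℕ) → List (ℕ × ℕ)) (fun _ H => H)
    (fun p _ ih cs H => ih (Nat.shiftRight cs (nat_lit 2))
      (Bool.rec (motive := fun _ => List (ℕ × ℕ) → List (ℕ × ℕ))
        (fun H => hq (Nat.land cs (nat_lit 3)) (lt M0 p.1) (lt M0 p.2) (nat_lit 2) H) (fun H => H) (Nat.beq p.1 p.2)
        (hq (Nat.land cs (nat_lit 3)) (lt M0 p.1) (lt M0 p.2) (nat_lit 1)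
          (hq (Nat.land cs (nat_lit 3)) (lt M0 p.1) (lt M0 p.2) (nat_lit 0) H)))) l

/-- check of the job: template `T`, `b = 1` if the minimum `u` is subtracted, packed choices `cs` -/
noncomputable def fj (T : Tm) (b cs : ℕ) (r : Tf) : Bool :=
  r.chk (rP T M0 cs) (Nat.add (rN T M0 cs) (Nat.mul b aU)) (hF T.v cs [])

/-- all packed choices, lexicographic -/
def allcp : List (ℕ × ℕ) → List ℕ
  | [] => [0]
  | p :: l => (List.range (nopt p)).flatMap fun c => (allcp l).map fun cs => c + 4 * cs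

/-- check of a list of jobs -/
noncomputable def fjs (T : Tm) (b : ℕ) : List ℕ → List Tf → Bool
  | [], [] => true
  | cs :: l, r :: rs => fj T b cs r && fjs T b l rs
  | _, _ => false

end Pool.Agent.KServer.R4
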