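import Pool.Agent.Work.MP_fe875b_lc.R4.Sem

/-!
MP_fe875b_lc, R4/Snd: soundness of the checker of `R4/Chk`.
-/

set_option autoImplicit false

namespace Pool.Agent.KServer.R4

open Finset

/-! ### Packed lists -/

/-- the multiset of a list of atoms -/
noncomputable def lf (l : List ℕ) : ℕ →₀ ℕ := (l.map fun k => Finsupp.single k 1).sum

/-- packed value -/
noncomputable def S (f : ℕ →₀ ℕ) : ℕ := f.sum fun k c => c * bs ^ k

/-- total weight -/
noncomputable def W (f : ℕ →₀ ℕ) : ℕ := f.sum fun _ c => c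

/-- real value -/
noncomputable def R (A : ℕ → ℝ) (f : ℕ →₀ ℕ) : ℝ := f.sum fun k c => (c : ℝ) * A k

theorem S_add (f g : ℕ →₀ ℕ) : S (f + g) = S f + S g :=
  Finsupp.sum_add_index' (fun _ => by simp) (fun _ _ _ => by ring)

theorem W_add (f g : ℕ →₀ ℕ) : W (f + g) = W f + W g :=
  Finsupp.sum_add_index' (fun _ => rfl) (fun _ _ _ => rfl)

theorem R_add (A : ℕ → ℝ) (f g : ℕ →₀ ℕ) : R A (f + g) = R A f + R A g :=
  Finsupp.sum_add_index' (fun _ => by simp) (fun _ _ _ => by push_cast; ring)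

theorem S_zero : S 0 = 0 := Finsupp.sum_zero_index
theorem W_zero : W 0 = 0 := Finsupp.sum_zero_index
theorem R_zero (A : ℕ → ℝ) : R A 0 = 0 := Finsupp.sum_zero_index

theorem S_smul (m : ℕ) (f : ℕ →₀ ℕ) : S (m • f) = m * S f := by
  induction m with
  | zero => simp [S_zero]
  | succ m ih => rw [succ_nsmul, S_add, ih]; ring

theorem W_smul (m : ℕ) (f : ℕ →₀ ℕ) : W (m • f) = m * W f := by
  induction m with
  | zero => simp [W_zero]
  | succ m ih => rw [succ_nsmul, W_add, ih]; ring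

theorem R_smul (A : ℕ → ℝ) (m : ℕ) (f : ℕ →₀ ℕ) : R A (m • f) = m * R A f := by
  induction m with
  | zero => simp [R_zero]
  | succ m ih => rw [succ_nsmul, R_add, ih]; push_cast; ring

theorem S_lf (l : List ℕ) : S (lf l) = pk l := by
  induction l with
  | nil => exact S_zero
  | cons k l ih =>
    have h : lf (k :: l) = Finsupp.single k 1 + lf l := by simp [lf]
    rw [h, S_add, ih, pk]
    congr 1
    unfold S
    rw [Finsupp.sum_single_index (by simp)]
    simp

theorem W_lf (l : List ℕ) : W (lf l) = l.length := by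
  induction l with
  | nil => exact W_zero
  | cons k l ih =>
    have h : lf (k :: l) = Finsupp.single k 1 + lf l := by simp [lf]
    rw [h, W_add, ih, List.length_cons, add_comm]
    congr 1
    unfold W
    rw [Finsupp.sum_single_index rfl]

theorem R_lf (A : ℕ → ℝ) (l : List ℕ) : R A (lf l) = (l.map A).sum := by
  induction l with
  | nil => exact R_zero A
  | cons k l ih =>
    have h : lf (k :: l) = Finsupp.single k 1 + lf l := by simp [lf]
    rw [h, R_add, ih, List.map_cons, List.sum_cons]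
    congr 1
    unfold R
    rw [Finsupp.sum_single_index (by simp)]
    simp

theorem le_W (f : ℕ →₀ ℕ) (k : ℕ) : f k ≤ W f := by
  by_cases h : k ∈ f.support
  · exact Finset.single_le_sum (f := fun k => f k) (fun _ _ => Nat.zero_le _) h
  · rw [Finsupp.notMem_support_iff.1 h]
    exact Nat.zero_le _

private theorem uniq_aux (b : ℕ) (hb : 0 < b) : ∀ (n : ℕ) (f g : ℕ → ℕ), (∀ k, f k < b) → (∀ k, g k < b) →
    ∑ k ∈ range n, f k * b ^ k = ∑ k ∈ range n, g k * b ^ k → ∀ k < n, f k = g k := by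
  intro n
  induction n with
  | zero => intro f g _ _ _ k hk; omega
  | succ n ih =>
    intro f g hf hg h
    rw [Finset.sum_range_succ', Finset.sum_range_succ'] at h
    have e : ∀ f : ℕ → ℕ, ∑ k ∈ range n, f (k + 1) * b ^ (k + 1) = b * ∑ k ∈ range n, f (k + 1) * b ^ k := by
      intro f
      rw [Finset.mul_sum]
      exact Finset.sum_congr rfl fun k _ => by ring
    rw [e f, e g] at h
    simp only [pow_zero, mul_one] at h
    have h0 : f 0 = g 0 := by
      have := congrArg (· % b) h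
      simp only [Nat.mul_add_mod] at this
      rwa [Nat.mod_eq_of_lt (hf 0), Nat.mod_eq_of_lt (hg 0)] at this
    rw [h0] at h
    have h1 := Nat.eq_of_mul_eq_mul_left hb (Nat.add_right_cancel h)
    intro k hk
    rcases k with _ | k
    · exact h0
    · exact ih (fun k => f (k + 1)) (fun k => g (k + 1)) (fun k => hf _) (fun k => hg _) h1 k (by omega)

theorem S_inj {f g : ℕ →₀ ℕ} (h : S f = S g) (hf : W f < bs) (hg : W g < bs) : f = g := by
  obtain ⟨n, hn⟩ : ∃ n, ∀ k ∈ f.support ∪ g.support, k < n := by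
    refine ⟨(f.support ∪ g.support).sup id + 1, fun k hk => ?_⟩
    exact Nat.lt_succ_of_le (Finset.le_sup (f := id) hk)
  have e : ∀ f' : ℕ →₀ ℕ, f'.support ⊆ f.support ∪ g.support → S f' = ∑ k ∈ range n, f' k * bs ^ k := by
    intro f' hs
    unfold S
    exact Finsupp.sum_of_support_subset _ (fun k hk => Finset.mem_range.2 (hn k (hs hk))) _ (fun _ _ => by simp)
  rw [e f Finset.subset_union_left, e g Finset.subset_union_right] at h
  have h1 := uniq_aux bs (by decide) n f g (fun k => (le_W f k).trans_lt hf) (fun k => (le_W g k).trans_lt hg) h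
  ext k
  by_cases hk : k < n
  · exact h1 k hk
  · have : k ∉ f.support ∪ g.support := fun hh => hk (hn k hh)
    rw [Finset.mem_union, not_or, Finsupp.notMem_support_iff, Finsupp.notMem_support_iff] at this
    rw [this.1, this.2]

/-! ### Values of forms -/

/-- value of a form -/
def ev (A : ℕ → ℝ) (F : Fm) : ℝ := (F.1.map A).sum - (F.2.map A).sum

theorem ev_ad (A : ℕ → ℝ) (F G : Fm) : ev A (ad F G) = ev A F + ev A G := by
  unfold ev ad
  simp only [List.map_append, List.sum_append]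
  ring

theorem ev_su (A : ℕ → ℝ) (F G : Fm) : ev A (su F G) = ev A F - ev A G := by
  unfold ev su
  simp only [List.map_append, List.sum_append]
  ring

theorem fo_eq (n : ℕ) (k : ℕ → Bool) : fo n k = k n := by
  cases n <;> rfl

theorem leaf_sound (A : ℕ → ℝ) (J : Jb) (H : List Fm)
    (hv : ∀ F : Rw, (F.fm J H).1 = true → 0 ≤ ev A (F.fm J H).2) (c : ℕ) :
    ∀ (n P N t : ℕ) (f g : ℕ →₀ ℕ), leaf J H c n P N t = true → P = S f → N = S g → W f + W g ≤ t →
      R A f - R A g ≤ 0 := by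
  intro n
  induction n with
  | zero =>
    intro P N t f g h hP hN ht
    simp only [leaf, Bool.and_eq_true, Nat.blt_eq] at h
    have : f = g := S_inj (by rw [← hP, ← hN, Nat.eq_of_beq_eq_true h.1]) (by omega) (by omega)
    rw [this, sub_self]
  | succ n ih =>
    intro P N t f g h hP hN ht
    rw [leaf, fo_eq] at h
    unfold row at h
    generalize (c >>> (64 * n)) % 18446744073709551616 = e at h
    have hv' := hv (dec e)
    generalize (dec e).fm J H = bF at h hv'
    obtain ⟨b, F⟩ := bF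
    simp only [fo_eq, Bool.and_eq_true] at h
    have h0 := hv' h.1
    generalize e >>> 44 = m at h
    have h1 := ih _ _ _ (f + m • lf F.1) (g + m • lf F.2) h.2
      (by rw [S_add, S_smul, S_lf, hP]) (by rw [S_add, S_smul, S_lf, hN])
      (by rw [W_add, W_add, W_smul, W_smul, W_lf, W_lf]; nlinarith)
    rw [R_add, R_add, R_smul, R_smul, R_lf, R_lf] at h1
    have h2 : 0 ≤ (m : ℝ) * ev A F := mul_nonneg (Nat.cast_nonneg _) h0
    unfold ev at h2
    linarith

/-! ### Atoms -/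

variable {V : Type}

/-- value of an atom -/
noncomputable def at_ (D : V → V → ℝ) (anti : V → V) (Δ : ℝ) (v : V → V → ℝ) (x : ℕ → V) (φ δ u : ℝ) (k : ℕ) : ℝ :=
  if k < 256 then v (lit anti x (k / 16)) (lit anti x (k % 16))
  else if k < 320 then D (x ((k - 256) / 8)) (x ((k - 256) % 8))
  else if k = 320 then Δ else if k = 321 then φ else if k = 322 then δ else u

section

variable {D : V → V → ℝ} {anti : V → V} {Δ : ℝ} {v : V → V → ℝ} {x : ℕ → V} {φ δ u : ℝ}

theorem ev_vF (h : Sp D anti Δ v) {p q : ℕ} (hp : p < 16) (hq : q < 16) :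
    ev (at_ D anti Δ v x φ δ u) (vF p q) = v (lit anti x p) (lit anti x q) := by
  unfold ev vF
  simp only [List.map_cons, List.map_nil, List.sum_cons, List.sum_nil, add_zero, sub_zero]
  rcases hb : Nat.ble p q with _ | _
  · simp only [cond_false]
    unfold at_
    rw [if_pos (by omega), show (16 * q + p) / 16 = q by omega, show (16 * q + p) % 16 = p by omega]
    exact h.vs _ _
  · simp only [cond_true]
    unfold at_
    rw [if_pos (by omega), show (16 * p + q) / 16 = p by omega, show (16 * p + q) % 16 = q by omega]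

theorem at_dI (h : Sp D anti Δ v) {i j : ℕ} (hi : i < 8) (hj : j < 8) :
    at_ D anti Δ v x φ δ u (dI i j) = D (x i) (x j) := by
  unfold dI
  rcases hb : Nat.ble i j with _ | _
  · simp only [cond_false]
    unfold at_
    rw [if_neg (by omega), if_pos (by omega), show (256 + (8 * j + i) - 256) / 8 = j by omega,
      show (256 + (8 * j + i) - 256) % 8 = i by omega]
    exact h.comm _ _
  · simp only [cond_true]
    unfold at_
    rw [if_neg (by omega), if_pos (by omega), show (256 + (8 * i + j) - 256) / 8 = i by omega,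
      show (256 + (8 * i + j) - 256) % 8 = j by omega]

theorem at_Del : at_ D anti Δ v x φ δ u 320 = Δ := by simp [at_]
theorem at_Phi : at_ D anti Δ v x φ δ u 321 = φ := by simp [at_]
theorem at_del : at_ D anti Δ v x φ δ u 322 = δ := by simp [at_]
theorem at_u : at_ D anti Δ v x φ δ u 323 = u := by simp [at_]

theorem Sp.na (h : Sp D anti Δ v) (p q : V) : D (anti p) q = Δ - D p q := by
  rw [h.comm, h.an, h.comm]

theorem Sp.aa (h : Sp D anti Δ v) (p q : V) : D (anti p) (anti q) = D p q := by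
  rw [h.an, h.na]
  ring

theorem b00 : Nat.beq 0 0 = true := rfl
theorem b01 : Nat.beq 0 1 = false := rfl
theorem b10 : Nat.beq 1 0 = false := rfl
theorem b11 : Nat.beq 1 1 = true := rfl

theorem ev_dF (h : Sp D anti Δ v) {p q : ℕ} (hp : p < 16) (hq : q < 16) :
    ev (at_ D anti Δ v x φ δ u) (dF p q) = D (lit anti x p) (lit anti x q) := by
  have hi : p / 2 < 8 := by omega
  have hj : q / 2 < 8 := by omega
  unfold dF lit
  rcases h1 : Nat.beq (p / 2) (q / 2) with _ | _
  · rcases Nat.mod_two_eq_zero_or_one p with h2 | h2 <;> rcases Nat.mod_two_eq_zero_or_one q with h3 | h3 <;>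
      rw [h2, h3] <;> simp [ev, b01, b10, at_dI h hi hj, at_Del, h.an, h.na]
  · have h1' := Nat.eq_of_beq_eq_true h1
    rcases Nat.mod_two_eq_zero_or_one p with h2 | h2 <;> rcases Nat.mod_two_eq_zero_or_one q with h3 | h3 <;>
      rw [h2, h3, h1'] <;> simp [ev, b01, b10, at_Del, h.an, h.na, h.self]

theorem flip_lt {l : ℕ} (h : l < 16) : flip l < 16 := by
  unfold flip
  rcases hb : Nat.beq (l % 2) 0 with _ | _
  · simp only [cond_false]; omega
  · have := Nat.eq_of_beq_eq_true hb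
    simp only [cond_true]; omega

theorem lit_even {y : ℕ → V} {l : ℕ} (h : l % 2 = 0) : lit anti y l = y (l / 2) := by
  unfold lit; rw [h]; rfl

theorem lit_odd {y : ℕ → V} {l : ℕ} (h : l % 2 = 1) : lit anti y l = anti (y (l / 2)) := by
  unfold lit; rw [h]; rfl

theorem flip_even {l : ℕ} (h : l % 2 = 0) : flip l = l + 1 := by
  unfold flip; rw [h]; rfl

theorem flip_odd {l : ℕ} (h : l % 2 = 1) : flip l = l - 1 := by
  unfold flip; rw [h]; rfl

theorem lit_flip (h : Sp D anti Δ v) (l : ℕ) : lit anti x (flip l) = anti (lit anti x l) := by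
  rcases Nat.mod_two_eq_zero_or_one l with h2 | h2
  · rw [flip_even h2, lit_even h2, lit_odd (by omega : (l + 1) % 2 = 1), show (l + 1) / 2 = l / 2 by omega]
  · rw [flip_odd h2, lit_odd h2, lit_even (by omega : (l - 1) % 2 = 0), show (l - 1) / 2 = l / 2 by omega, h.ai]

/-- the assignment of points given by literals -/
def asg (anti : V → V) (x : ℕ → V) (m : List ℕ) (i : ℕ) : V := lit anti x (m.getD i 0)

theorem lit_sb (h : Sp D anti Δ v) (m : List ℕ) (l : ℕ) : lit anti x (sb m l) = lit anti (asg anti x m) l := by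
  unfold sb
  rcases hb : Nat.beq (l % 2) 0 with _ | _
  · rw [cond_false, lit_flip h]
    conv_rhs => unfold lit
    rw [hb]
    rfl
  · rw [cond_true]
    conv_rhs => unfold lit
    rw [hb]
    rfl

theorem getD_lt {m : List ℕ} (h : m.all ok = true) (i : ℕ) : m.getD i 0 < 16 := by
  rw [List.getD_eq_getElem?_getD]
  rcases hi : m[i]? with _ | l
  · simp
  · have := List.all_eq_true.1 h l (List.mem_of_getElem? hi)
    simpa [ok] using this

theorem sb_lt {m : List ℕ} (h : m.all ok = true) (l : ℕ) : sb m l < 16 := by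
  unfold sb
  rcases hb : Nat.beq (l % 2) 0 with _ | _
  · exact flip_lt (getD_lt h _)
  · exact getD_lt h _

/-! ### Values of the forms of templates -/

theorem sum_fm (A : ℕ → ℝ) (f : ℕ × ℕ → List ℕ) : ∀ l : List (ℕ × ℕ),
    ((l.flatMap f).map A).sum = (l.map fun p => ((f p).map A).sum).sum
  | [] => rfl
  | p :: l => by
    rw [List.flatMap_cons, List.map_append, List.sum_append, List.map_cons, List.sum_cons, sum_fm A f l]

theorem sum_sub' {f g k : ℕ × ℕ → ℝ} (h : ∀ p, f p - g p = k p) : ∀ l : List (ℕ × ℕ),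
    (l.map k).sum = (l.map f).sum - (l.map g).sum
  | [] => by simp
  | p :: l => by
    rw [List.map_cons, List.sum_cons, List.map_cons, List.sum_cons, List.map_cons, List.sum_cons, sum_sub' h l, ← h p]
    ring

theorem ev_dm (h : Sp D anti Δ v) (T : Tm) {m : List ℕ} (hm : m.all ok = true) :
    ev (at_ D anti Δ v x φ δ u) (T.dm m) =
      (T.d.map fun p => D (lit anti (asg anti x m) p.1) (lit anti (asg anti x m) p.2)).sum
    - (T.e.map fun p => D (lit anti (asg anti x m) p.1) (lit anti (asg anti x m) p.2)).sum + T.c * Δ := by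
  have key : ∀ p : ℕ × ℕ, ((dF (sb m p.1) (sb m p.2)).1.map (at_ D anti Δ v x φ δ u)).sum
      - ((dF (sb m p.1) (sb m p.2)).2.map (at_ D anti Δ v x φ δ u)).sum
      = D (lit anti (asg anti x m) p.1) (lit anti (asg anti x m) p.2) := by
    intro p
    have := ev_dF (x := x) (φ := φ) (δ := δ) (u := u) h (sb_lt hm p.1) (sb_lt hm p.2)
    rw [lit_sb h, lit_sb h] at this
    exact this
  rw [sum_sub' key, sum_sub' key]
  unfold ev Tm.dm
  simp only [List.map_append, List.sum_append, sum_fm, List.map_replicate, List.sum_replicate, at_Del, nsmul_eq_mul]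
  ring

theorem ev_fm (h : Sp D anti Δ v) (T : Tm) {m : List ℕ} (hm : m.all ok = true) :
    ev (at_ D anti Δ v x φ δ u) (T.fm m) = T.val D anti Δ v (asg anti x m) := by
  unfold Tm.fm Tm.val
  rw [ev_ad, ev_dm h T hm]
  congr 1
  unfold ev
  rw [sum_fm, List.map_nil, List.sum_nil, sub_zero]
  congr 1
  apply List.map_congr_left
  intro p _
  have := ev_vF (x := x) (φ := φ) (δ := δ) (u := u) h (sb_lt hm p.1) (sb_lt hm p.2)
  rw [lit_sb h, lit_sb h] at this
  rw [← this]
  unfold ev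
  show _ = _ - (List.map _ []).sum
  rw [List.map_nil, List.sum_nil, sub_zero]

theorem ev_opt (h : Sp D anti Δ v) (c : ℕ) {p q : ℕ} (hp : p < 16) (hq : q < 16) :
    ev (at_ D anti Δ v x φ δ u) (opt c p q) = rop D v (x 0) (x 1) c (lit anti x p) (lit anti x q) := by
  unfold opt rop
  have h0 : lit anti x 0 = x 0 := rfl
  have h2 : lit anti x 2 = x 1 := rfl
  match c with
  | 0 => show ev _ (ad (vF p q) (dF 2 0)) = _; rw [ev_ad, ev_vF h hp hq, ev_dF h (by omega) (by omega), h0, h2]; rfl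
  | 1 => show ev _ (ad (vF 2 q) (dF p 0)) = _; rw [ev_ad, ev_vF h (by omega) hq, ev_dF h hp (by omega), h0, h2]; rfl
  | n + 2 => show ev _ (ad (vF 2 p) (dF q 0)) = _; rw [ev_ad, ev_vF h (by omega) hp, ev_dF h hq (by omega), h0, h2]; rfl

theorem ev_nil (A : ℕ → ℝ) : ev A ([], []) = 0 := by simp [ev]

theorem le_ros (h : Sp D anti Δ v) {m : List ℕ} (hm : m.all ok = true) : ∀ (l : List (ℕ × ℕ)) (cs : List ℕ),
    (l.map fun p => vn D v (x 0) (x 1) (lit anti (asg anti x m) p.1) (lit anti (asg anti x m) p.2)).sum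
      ≤ ev (at_ D anti Δ v x φ δ u) (ros m l cs)
  | [], _ => by rw [ros, ev_nil]; simp
  | p :: l, cs => by
    rw [ros, ev_ad, List.map_cons, List.sum_cons, ev_opt h _ (sb_lt hm _) (sb_lt hm _), lit_sb h, lit_sb h]
    exact add_le_add (vn_le _ _ _ _ _ _ _) (le_ros h hm l cs.tail)

theorem le_fr (h : Sp D anti Δ v) (T : Tm) {m : List ℕ} (hm : m.all ok = true) (cs : List ℕ) :
    T.val D anti Δ (vn D v (x 0) (x 1)) (asg anti x m) ≤ ev (at_ D anti Δ v x φ δ u) (T.fr m cs) := by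
  unfold Tm.fr Tm.val
  rw [ev_ad, ev_dm h T hm]
  linarith [le_ros (x := x) (φ := φ) (δ := δ) (u := u) h hm T.v cs]

/-- the choices `cs` attain the minima -/
def argm (D : V → V → ℝ) (v : V → V → ℝ) (z a : V) (P : ℕ → V) : List (ℕ × ℕ) → List ℕ → Prop
  | [], _ => True
  | p :: l, cs => vn D v z a (P p.1) (P p.2) = rop D v z a (cs.headD 0) (P p.1) (P p.2) ∧ argm D v z a P l cs.tail

theorem ros_eq (h : Sp D anti Δ v) {m : List ℕ} (hm : m.all ok = true) : ∀ (l : List (ℕ × ℕ)) (cs : List ℕ),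
    argm D v (x 0) (x 1) (lit anti (asg anti x m)) l cs →
    ev (at_ D anti Δ v x φ δ u) (ros m l cs) =
      (l.map fun p => vn D v (x 0) (x 1) (lit anti (asg anti x m) p.1) (lit anti (asg anti x m) p.2)).sum
  | [], _, _ => by rw [ros, ev_nil]; simp
  | p :: l, cs, ha => by
    rw [ros, ev_ad, List.map_cons, List.sum_cons, ev_opt h _ (sb_lt hm _) (sb_lt hm _), lit_sb h, lit_sb h, ha.1,
      ros_eq h hm l cs.tail ha.2]

theorem fr_eq (h : Sp D anti Δ v) (T : Tm) {m : List ℕ} (hm : m.all ok = true) (cs : List ℕ)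
    (ha : argm D v (x 0) (x 1) (lit anti (asg anti x m)) T.v cs) :
    ev (at_ D anti Δ v x φ δ u) (T.fr m cs) = T.val D anti Δ (vn D v (x 0) (x 1)) (asg anti x m) := by
  unfold Tm.fr Tm.val
  rw [ev_ad, ev_dm h T hm, ros_eq h hm _ _ ha]

theorem asg0 (m : List ℕ) : asg anti x (0 :: m) 0 = x 0 := by
  unfold asg
  rw [List.getD_cons_zero]
  rfl

theorem asg2 (m : List ℕ) : asg anti x (2 :: m) 0 = x 1 := by
  unfold asg
  rw [List.getD_cons_zero]
  rfl

/-! ### Rows -/

/-- the facts about a job -/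
structure Ev (D : V → V → ℝ) (anti : V → V) (Δ : ℝ) (v : V → V → ℝ) (x : ℕ → V) (φ δ u : ℝ) (J : Jb) : Prop where
  sp : Sp D anti Δ v
  phi : ∀ j < J.T.length, ∀ y : ℕ → V, y 0 = x 0 → φ ≤ tval D anti Δ v y (J.g j)
  min : ∀ j < J.T.length, ∀ y : ℕ → V, y 0 = x 1 →
    ev (at_ D anti Δ v x φ δ u) J.F ≤ tval D anti Δ (vn D v (x 0) (x 1)) y (J.g j)
  d0 : δ ≤ 2 * D (x 1) (x 0)
  d1 : δ ≤ v (x 1) (anti (x 1)) + Δ - v (anti (x 1)) (anti (x 1))
  hu : ∀ O ∈ J.t.2, u ≤ O.val D anti Δ (vn D v (x 0) (x 1)) (asg anti x idm)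
  uu : (J.g j7).2 = UU

theorem ok_iff {l : ℕ} : ok l = true ↔ l < 16 := by simp [ok]

theorem all0 {m : List ℕ} (hm : m.all ok = true) : (0 :: m).all ok = true := by
  rw [List.all_cons, hm]; rfl

theorem all2 {m : List ℕ} (hm : m.all ok = true) : (2 :: m).all ok = true := by
  rw [List.all_cons, hm]; rfl

theorem nil_of_len {α : Type} {l : List α} (h : Nat.beq l.length 0 = true) : l = [] :=
  List.length_eq_zero_iff.1 (Nat.eq_of_beq_eq_true h)

theorem row_ok {J : Jb} {H : List Fm} (h : Ev D anti Δ v x φ δ u J)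
    (hH : ∀ F ∈ H, 0 ≤ ev (at_ D anti Δ v x φ δ u) F) (r : Rw) (hr : (r.fm J H).1 = true) :
    0 ≤ ev (at_ D anti Δ v x φ δ u) (r.fm J H).2 := by
  have hs := h.sp
  have l0 : lit anti x 0 = x 0 := rfl
  have l2 : lit anti x 2 = x 1 := rfl
  have l3 : lit anti x 3 = anti (x 1) := rfl
  cases r with
  | lip a p q =>
    simp only [Rw.fm, Bool.and_eq_true, ok_iff] at hr ⊢
    rw [ev_su, ev_ad, ev_vF hs hr.1 hr.2.1, ev_dF hs hr.2.1 hr.2.2, ev_vF hs hr.1 hr.2.2]
    linarith [hs.vl (lit anti x a) (lit anti x p) (lit anti x q)]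
  | tri p q r =>
    simp only [Rw.fm, Bool.and_eq_true, ok_iff] at hr ⊢
    rw [ev_su, ev_ad, ev_dF hs hr.1 hr.2.1, ev_dF hs hr.2.1 hr.2.2, ev_dF hs hr.1 hr.2.2]
    linarith [hs.tri (lit anti x p) (lit anti x q) (lit anti x r)]
  | nn p q =>
    simp only [Rw.fm, Bool.and_eq_true, ok_iff] at hr ⊢
    rw [ev_dF hs hr.1 hr.2]
    exact hs.nn _ _
  | hyp n =>
    simp only [Rw.fm]
    rw [List.getD_eq_getElem?_getD]
    rcases hi : H[n]? with _ | F
    · rw [Option.getD_none, ev_nil]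
    · exact hH F (List.mem_of_getElem? hi)
  | ref j m =>
    simp only [Rw.fm, Bool.and_eq_true, Nat.blt_eq] at hr ⊢
    rw [ev_su, ev_fm hs _ (all0 hr.2.2)]
    have h1 := h.phi j hr.1 (asg anti x (0 :: m)) (asg0 m)
    unfold tval at h1
    rw [nil_of_len hr.2.1] at h1
    have h2 : ev (at_ D anti Δ v x φ δ u) ([321], []) = φ := by simp [ev, at_Phi]
    have h3 : mnl (List.map (fun O => Tm.val D anti Δ v (asg anti x (0 :: m)) O) []) = 0 := rfl
    rw [h3] at h1
    linarith
  | mn j m cs =>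
    simp only [Rw.fm, Bool.and_eq_true, Nat.blt_eq] at hr ⊢
    rw [ev_su]
    have h1 := h.min j hr.1 (asg anti x (2 :: m)) (asg2 m)
    unfold tval at h1
    rw [nil_of_len hr.2.1] at h1
    have h3 : mnl (List.map (fun O => Tm.val D anti Δ (vn D v (x 0) (x 1)) (asg anti x (2 :: m)) O) []) = 0 := rfl
    rw [h3] at h1
    have h4 := le_fr (x := x) (φ := φ) (δ := δ) (u := u) hs (J.g j).1 (all2 hr.2.2) cs
    linarith
  | del k =>
    have h2 : ev (at_ D anti Δ v x φ δ u) ([322], []) = δ := by simp [ev, at_del]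
    have h3 : ev (at_ D anti Δ v x φ δ u) ([320], []) = Δ := by simp [ev, at_Del]
    match k with
    | 0 =>
      simp only [Rw.fm]
      rw [ev_su, ev_ad, ev_dF hs (by omega) (by omega), h2, l0, l2]
      linarith [h.d0]
    | n + 1 =>
      simp only [Rw.fm]
      rw [ev_su, ev_ad, ev_ad, ev_vF hs (by omega) (by omega), ev_vF hs (by omega) (by omega), h2, h3, l2, l3]
      linarith [h.d1]
  | ul i c =>
    simp only [Rw.fm, Nat.blt_eq] at hr ⊢
    rw [ev_su]
    have h2 : ev (at_ D anti Δ v x φ δ u) ([323], []) = u := by simp [ev, at_u]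
    have h4 := le_fr (x := x) (φ := φ) (δ := δ) (u := u) hs (J.t.2.getD i tm0) (m := idm) rfl [c]
    have h5 : J.t.2.getD i tm0 ∈ J.t.2 := by
      rw [List.getD_eq_getElem _ _ hr]
      exact List.getElem_mem _
    linarith [h.hu _ h5]
  | qc a c d =>
    simp only [Rw.fm, Bool.and_eq_true, ok_iff] at hr ⊢
    rw [ev_su, ev_ad, ev_ad, ev_vF hs hr.1 hr.1, ev_vF hs hr.2.1 hr.2.2, ev_vF hs hr.1 hr.2.1, ev_vF hs hr.1 hr.2.2]
    rcases hs.v4 (lit anti x a) (lit anti x a) (lit anti x c) (lit anti x d) with h1 | h1 <;> linarith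
  | ru m =>
    simp only [Rw.fm, Bool.and_eq_true, Nat.blt_eq] at hr ⊢
    have hm : (0 :: 0 :: 2 :: m).all ok = true := all0 (all0 (all2 hr.2))
    have h5 : ev (at_ D anti Δ v x φ δ u) ([321, 322], []) = φ + δ := by simp [ev, at_Phi, at_del]
    rw [ev_su, ev_ad, ev_ad, ev_fm hs _ hm, ev_dF hs (by omega) (by omega), ev_vF hs (by omega) (by omega), h5, l0, l2, l3]
    have h1 := h.phi j7 hr.1 (asg anti x (0 :: 0 :: 2 :: m)) (asg0 _)
    unfold tval at h1
    rw [h.uu] at h1
    have a1 : asg anti x (0 :: 0 :: 2 :: m) 1 = x 0 := by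
      unfold asg
      rw [List.getD_cons_succ, List.getD_cons_zero]
      rfl
    have a2 : asg anti x (0 :: 0 :: 2 :: m) 2 = x 1 := by
      unfold asg
      rw [List.getD_cons_succ, List.getD_cons_succ, List.getD_cons_zero]
      rfl
    have e2 : lit anti (asg anti x (0 :: 0 :: 2 :: m)) 2 = x 0 := a1
    have e4 : lit anti (asg anti x (0 :: 0 :: 2 :: m)) 4 = x 1 := a2
    have e5 : lit anti (asg anti x (0 :: 0 :: 2 :: m)) 5 = anti (x 1) := congrArg anti a2
    have h6 : mnl (UU.map fun O => Tm.val D anti Δ v (asg anti x (0 :: 0 :: 2 :: m)) O)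
        = min (v (anti (x 1)) (anti (x 1)) + D (x 0) (x 1)) (v (x 1) (anti (x 1)) - D (x 0) (x 1) + Δ) := by
      unfold UU mnl Tm.val
      simp only [List.map_cons, List.map_nil, List.sum_cons, List.sum_nil, List.foldl_cons, List.foldl_nil, e2, e4, e5]
      congr 1
      · push_cast; ring
      · push_cast; ring
    rw [h6, hs.comm (x 0) (x 1)] at h1
    have h7 : v (anti (x 1)) (anti (x 1)) - D (x 1) (x 0) + δ ≤ min (v (anti (x 1)) (anti (x 1)) + D (x 1) (x 0))
        (v (x 1) (anti (x 1)) - D (x 1) (x 0) + Δ) := le_min (by linarith [h.d0]) (by linarith [h.d1])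
    linarith
  | bad => exact absurd hr (by simp [Rw.fm])

/-! ### Trees -/

theorem getD_of_mem {l : List Tm} {O : Tm} (h : O ∈ l) : ∃ i < l.length, l.getD i tm0 = O := by
  obtain ⟨i, hi, e⟩ := List.mem_iff_getElem.1 h
  exact ⟨i, hi, by rw [List.getD_eq_getElem _ _ hi, e]⟩

theorem h7_ok {J : Jb} (h : Ev D anti Δ v x φ δ u J) {m : List ℕ} (h1 : j7 < J.T.length)
    (hm : m.all ok = true) :
    ∃ i < 2, ∀ F ∈ h7 J m i, 0 ≤ ev (at_ D anti Δ v x φ δ u) F := by
  have hs := h.sp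
  have h3 := h.phi j7 h1 (asg anti x (0 :: m)) (asg0 m)
  have h2 : (J.g j7).2.length = 2 := by rw [h.uu]; rfl
  unfold tval at h3
  have h4 : (J.g j7).2.map (fun O => Tm.val D anti Δ v (asg anti x (0 :: m)) O) ≠ [] := by
    intro e
    have := congrArg List.length e
    rw [List.length_map, h2] at this
    exact absurd this (by decide)
  obtain ⟨O, hO, e⟩ := List.mem_map.1 (mnl_mem h4)
  obtain ⟨i, hi, ei⟩ := getD_of_mem hO
  refine ⟨i, h2 ▸ hi, fun F hF => ?_⟩
  unfold h7 at hF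
  rw [ei] at hF
  rcases List.mem_cons.1 hF with rfl | hF
  · rw [ev_su, ev_ad, ev_fm hs _ (all0 hm), ev_fm hs _ (all0 hm)]
    have h5 : ev (at_ D anti Δ v x φ δ u) ([321], []) = φ := by simp [ev, at_Phi]
    rw [h5]
    linarith
  · obtain ⟨O', hO', rfl⟩ := List.mem_map.1 hF
    rw [ev_su, ev_fm hs _ (all0 hm), ev_fm hs _ (all0 hm)]
    have h6 := mnl_le (List.mem_map_of_mem (f := fun O => Tm.val D anti Δ v (asg anti x (0 :: m)) O) hO')
    linarith

theorem app_ok {A : ℕ → ℝ} {L H : List Fm} (h1 : ∀ F ∈ L, 0 ≤ ev A F) (h2 : ∀ F ∈ H, 0 ≤ ev A F) :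
    ∀ F ∈ L ++ H, 0 ≤ ev A F := by
  intro F hF
  rcases List.mem_append.1 hF with h | h
  exacts [h1 F h, h2 F h]

theorem con_ok {A : ℕ → ℝ} {G : Fm} {H : List Fm} (h1 : 0 ≤ ev A G) (h2 : ∀ F ∈ H, 0 ≤ ev A F) :
    ∀ F ∈ G :: H, 0 ≤ ev A F := by
  intro F hF
  rcases List.mem_cons.1 hF with rfl | h
  exacts [h1, h2 F h]

theorem chk_sound {J : Jb} (h : Ev D anti Δ v x φ δ u J) : ∀ (r : Tr) (H : List Fm),
    (∀ F ∈ H, 0 ≤ ev (at_ D anti Δ v x φ δ u) F) → r.chk J H = true → φ + δ ≤ ev (at_ D anti Δ v x φ δ u) J.F := by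
  have hs := h.sp
  intro r
  induction r with
  | lf k n c =>
    intro H hH hc
    simp only [Tr.chk, fo_eq, Bool.and_eq_true, Nat.blt_eq] at hc
    have h1 := leaf_sound (at_ D anti Δ v x φ δ u) J H (row_ok h hH) c n _ _ _
      (k • lf (ad J.F ([], [321, 322])).2) (k • lf (ad J.F ([], [321, 322])).1) hc.2
      (by rw [S_smul, S_lf]) (by rw [S_smul, S_lf])
      (by rw [W_smul, W_smul, W_lf, W_lf]
          simp only [ad, List.length_append, List.length_cons, List.length_nil]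
          apply le_of_eq; ring)
    rw [R_smul, R_smul, R_lf, R_lf] at h1
    have h2 : ev (at_ D anti Δ v x φ δ u) (ad J.F ([], [321, 322])) = ev (at_ D anti Δ v x φ δ u) J.F - (φ + δ) := by
      rw [ev_ad]
      have : ev (at_ D anti Δ v x φ δ u) ([], [321, 322]) = - (φ + δ) := by simp [ev, at_Phi, at_del]
      rw [this]; ring
    have h3 : 0 ≤ (k : ℝ) * ev (at_ D anti Δ v x φ δ u) (ad J.F ([], [321, 322])) := by
      unfold ev
      linarith
    have h4 : 0 < (k : ℝ) := Nat.cast_pos.2 hc.1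
    have h5 : 0 ≤ ev (at_ D anti Δ v x φ δ u) (ad J.F ([], [321, 322])) := nonneg_of_mul_nonneg_right h3 h4
    linarith
  | sp a b c d t1 t2 ih1 ih2 =>
    intro H hH hc
    simp only [Tr.chk, Bool.and_eq_true, ok_iff] at hc
    obtain ⟨⟨ha, hb, hc', hd⟩, h1, h2⟩ := hc
    rcases hs.v4 (lit anti x a) (lit anti x b) (lit anti x c) (lit anti x d) with h3 | h3
    · refine ih1 _ (con_ok ?_ hH) h1
      rw [ev_su, ev_ad, ev_ad, ev_vF hs ha hb, ev_vF hs hc' hd, ev_vF hs ha hc', ev_vF hs hb hd]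
      linarith
    · refine ih2 _ (con_ok ?_ hH) h2
      rw [ev_su, ev_ad, ev_ad, ev_vF hs ha hb, ev_vF hs hc' hd, ev_vF hs ha hd, ev_vF hs hb hc']
      linarith
  | sU m t1 t2 ih1 ih2 =>
    intro H hH hc
    simp only [Tr.chk, Bool.and_eq_true, Nat.blt_eq] at hc
    obtain ⟨⟨h1, hm⟩, c1, c2⟩ := hc
    obtain ⟨i, hi, hF⟩ := h7_ok h h1 hm
    match i, hi with
    | 0, _ => exact ih1 _ (app_ok hF hH) c1
    | 1, _ => exact ih2 _ (app_ok hF hH) c2

theorem hy1_ok (h : Sp D anti Δ v) (p : ℕ × ℕ) (c : ℕ)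
    (ha : vn D v (x 0) (x 1) (lit anti (asg anti x idm) p.1) (lit anti (asg anti x idm) p.2)
      = rop D v (x 0) (x 1) c (lit anti (asg anti x idm) p.1) (lit anti (asg anti x idm) p.2)) :
    ∀ F ∈ hy1 p c, 0 ≤ ev (at_ D anti Δ v x φ δ u) F := by
  intro F hF
  unfold hy1 at hF
  rw [List.mem_reverse] at hF
  obtain ⟨k, -, rfl⟩ := List.mem_map.1 hF
  have hm : idm.all ok = true := rfl
  rw [ev_su, ev_opt h _ (sb_lt hm _) (sb_lt hm _), ev_opt h _ (sb_lt hm _) (sb_lt hm _), lit_sb h, lit_sb h, ← ha]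
  linarith [vn_le D v (x 0) (x 1) k (lit anti (asg anti x idm) p.1) (lit anti (asg anti x idm) p.2)]

theorem hys_ok (h : Sp D anti Δ v) : ∀ (l : List (ℕ × ℕ)) (cs : List ℕ) (H : List Fm),
    argm D v (x 0) (x 1) (lit anti (asg anti x idm)) l cs → (∀ F ∈ H, 0 ≤ ev (at_ D anti Δ v x φ δ u) F) →
    ∀ F ∈ hys l cs H, 0 ≤ ev (at_ D anti Δ v x φ δ u) F
  | [], _, _, _, hH => hH
  | p :: l, cs, H, ha, hH => by
    rw [hys]
    exact hys_ok h l cs.tail _ ha.2 (app_ok (hy1_ok h p _ ha.1) hH)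

/-- A job settles the case of the template `t` and the choices `cs`. -/
theorem job_sound {T : List (Tm × List Tm)} (hU : (T.getD j7 (tm0, [])).2 = UU) {t : ℕ} {cs : List ℕ} {r : Tr}
    (hj : job T t cs r = true)
    (hs : Sp D anti Δ v)
    (hφ : ∀ j < T.length, ∀ y : ℕ → V, y 0 = x 0 → φ ≤ tval D anti Δ v y (T.getD j (tm0, [])))
    (hmin : ∀ j < T.length, ∀ y : ℕ → V, y 0 = x 1 →
      tval D anti Δ (vn D v (x 0) (x 1)) (asg anti x idm) (T.getD t (tm0, []))
        ≤ tval D anti Δ (vn D v (x 0) (x 1)) y (T.getD j (tm0, [])))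
    (d0 : δ ≤ 2 * D (x 1) (x 0))
    (d1 : δ ≤ v (x 1) (anti (x 1)) + Δ - v (anti (x 1)) (anti (x 1)))
    (ha : argm D v (x 0) (x 1) (lit anti (asg anti x idm)) (T.getD t (tm0, [])).1.v cs) :
    φ + δ ≤ tval D anti Δ (vn D v (x 0) (x 1)) (asg anti x idm) (T.getD t (tm0, [])) := by
  set u : ℝ := mnl ((T.getD t (tm0, [])).2.map fun O =>
    O.val D anti Δ (vn D v (x 0) (x 1)) (asg anti x idm)) with hu
  have hF : ev (at_ D anti Δ v x φ δ u) (mkJ T t cs).F
      = tval D anti Δ (vn D v (x 0) (x 1)) (asg anti x idm) (T.getD t (tm0, [])) := by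
    unfold mkJ tval
    simp only []
    rw [ev_su, fr_eq hs _ (m := idm) rfl _ ha, ← hu]
    congr 1
    rcases hO : (T.getD t (tm0, [])).2 with _ | ⟨O, l⟩
    · rw [hu, hO]
      simp [ev, mnl]
    · simp [ev, at_u]
  rw [← hF]
  have hE : Ev D anti Δ v x φ δ u (mkJ T t cs) :=
    ⟨hs, hφ, fun j hj' y hy => hF ▸ hmin j hj' y hy, d0, d1, fun O hO => by
      rw [hu]
      exact mnl_le (List.mem_map_of_mem (f := fun O => Tm.val D anti Δ (vn D v (x 0) (x 1)) (asg anti x idm) O) hO), hU⟩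
  exact chk_sound hE r _ (hys_ok hs _ _ _ ha (fun F hF => absurd hF (List.not_mem_nil))) hj

theorem ex_argm (D : V → V → ℝ) (v : V → V → ℝ) (z a : V) (P : ℕ → V) : ∀ l : List (ℕ × ℕ),
    ∃ cs ∈ allcs l, argm D v z a P l cs
  | [] => ⟨[], by simp [allcs], trivial⟩
  | p :: l => by
    obtain ⟨cs, h1, h2⟩ := ex_argm D v z a P l
    obtain ⟨c, h3, h4⟩ : ∃ c < nopt p, vn D v z a (P p.1) (P p.2) = rop D v z a c (P p.1) (P p.2) := by
      obtain ⟨c, h3, h4⟩ := vn_eq D v z a (P p.1) (P p.2)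
      unfold nopt
      rcases hb : Nat.beq p.1 p.2 with _ | _
      · exact ⟨c, h3, h4⟩
      · rw [cond_true]
        match c, h3 with
        | 0, _ => exact ⟨0, by omega, h4⟩
        | 1, _ => exact ⟨1, by omega, h4⟩
        | 2, _ =>
          refine ⟨1, by omega, ?_⟩
          rw [Nat.eq_of_beq_eq_true hb] at h4 ⊢
          exact h4
    refine ⟨c :: cs, ?_, ?_⟩
    · rw [allcs, List.mem_flatMap]
      exact ⟨c, List.mem_range.2 h3, List.mem_map_of_mem h1⟩
    · exact ⟨h4, h2⟩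

theorem lit_congr {y y' : ℕ → V} (h : ∀ i < 7, y i = y' i) {l : ℕ} (hl : l < 14) : lit anti y l = lit anti y' l := by
  unfold lit
  rw [h (l / 2) (by omega)]

theorem map_congr' {w : V → V → ℝ} {y y' : ℕ → V} (h : ∀ i < 7, y i = y' i) {l : List (ℕ × ℕ)}
    (hl : (l.all fun p => Nat.blt p.1 14 && Nat.blt p.2 14) = true) :
    (l.map fun p => w (lit anti y p.1) (lit anti y p.2)) = l.map fun p => w (lit anti y' p.1) (lit anti y' p.2) := by
  apply List.map_congr_left
  intro p hp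
  have := List.all_eq_true.1 hl p hp
  simp only [Bool.and_eq_true, Nat.blt_eq] at this
  rw [lit_congr h this.1, lit_congr h this.2]

theorem val_congr {w : V → V → ℝ} {y y' : ℕ → V} (h : ∀ i < 7, y i = y' i) {T : Tm} (hT : T.ok14 = true) :
    T.val D anti Δ w y = T.val D anti Δ w y' := by
  unfold Tm.ok14 at hT
  rw [Bool.and_eq_true, Bool.and_eq_true] at hT
  unfold Tm.val
  rw [map_congr' h hT.1, map_congr' h hT.2.1, map_congr' h hT.2.2]

theorem tval_congr {w : V → V → ℝ} {y y' : ℕ → V} (h : ∀ i < 7, y i = y' i) {T : List (Tm × List Tm)}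
    (hT : okT T = true) {j : ℕ} (hj : j < T.length) :
    tval D anti Δ w y (T.getD j (tm0, [])) = tval D anti Δ w y' (T.getD j (tm0, [])) := by
  rw [List.getD_eq_getElem _ _ hj]
  have := List.all_eq_true.1 hT _ (List.getElem_mem hj)
  rw [Bool.and_eq_true] at this
  unfold tval
  rw [val_congr h this.1]
  congr 2
  apply List.map_congr_left
  intro O hO
  have h2 := List.all_eq_true.1 this.2 O hO
  rw [Bool.and_eq_true] at h2
  exact val_congr h h2.1

/-- **One request.** -/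
theorem step_all {T : List (Tm × List Tm)} (hT : okT T = true) (hU : (T.getD j7 (tm0, [])).2 = UU)
    (hall : ∀ j < T.length, ∀ cs ∈ allcs (T.getD j (tm0, [])).1.v, ∃ r : Tr, job T j cs r = true)
    (hs : Sp D anti Δ v) (z a : V) {φ φ1 : ℝ}
    (hφ : ∀ j < T.length, ∀ y : ℕ → V, y 0 = z → φ ≤ tval D anti Δ v y (T.getD j (tm0, [])))
    (hφ1 : ∀ j < T.length, ∀ y : ℕ → V, y 0 = a → φ1 ≤ tval D anti Δ (vn D v z a) y (T.getD j (tm0, [])))
    (hex : ∃ j < T.length, ∃ y : ℕ → V, y 0 = a ∧ φ1 = tval D anti Δ (vn D v z a) y (T.getD j (tm0, []))) :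
    φ + min (2 * D a z) (v a (anti a) + Δ - v (anti a) (anti a)) ≤ φ1 := by
  obtain ⟨t, ht, y, hy, rfl⟩ := hex
  let x : ℕ → V := fun i => Nat.rec z (fun n _ => y n) i
  have hx0 : x 0 = z := rfl
  have hx1 : x 1 = a := hy
  have hxy : ∀ i < 7, asg anti x idm i = y i := by
    intro i hi
    match i, hi with
    | 0, _ => rfl
    | 1, _ => rfl
    | 2, _ => rfl
    | 3, _ => rfl
    | 4, _ => rfl
    | 5, _ => rfl
    | 6, _ => rfl
  rw [← tval_congr hxy hT ht]
  rw [← tval_congr hxy hT ht] at hφ1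
  obtain ⟨cs, h1, h2⟩ := ex_argm D v z a (lit anti (asg anti x idm)) (T.getD t (tm0, [])).1.v
  obtain ⟨r, hr⟩ := hall t ht cs h1
  have e0 : min (2 * D a z) (v a (anti a) + Δ - v (anti a) (anti a)) ≤ 2 * D (x 1) (x 0) := by
    rw [hx1, hx0]; exact min_le_left _ _
  have e1 : min (2 * D a z) (v a (anti a) + Δ - v (anti a) (anti a))
      ≤ v (x 1) (anti (x 1)) + Δ - v (anti (x 1)) (anti (x 1)) := by
    rw [hx1]; exact min_le_right _ _
  have h3 := job_sound (x := x) hU hr hs hφ (by rw [hx1, hx0]; exact hφ1) e0 e1 (by rw [hx1, hx0]; exact h2)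
  rw [hx1, hx0] at h3
  exact h3

end

/-! ### Lists of jobs -/

theorem jobs_mem {T : List (Tm × List Tm)} {t : ℕ} : ∀ {l : List (List ℕ)} {rs : List Tr}, jobs T t l rs = true →
    ∀ cs ∈ l, ∃ r : Tr, job T t cs r = true
  | [], _, _, cs, h => absurd h (List.not_mem_nil)
  | c :: l, [], h, _, _ => absurd h (by simp [jobs])
  | c :: l, r :: rs, h, cs, hc => by
    rw [jobs, Bool.and_eq_true] at h
    rcases List.mem_cons.1 hc with rfl | hc
    · exact ⟨r, h.1⟩
    · exact jobs_mem h.2 cs hc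

/-- gluing: the first `n` jobs and the rest -/
theorem jobs_glue {T : List (Tm × List Tm)} {t : ℕ} {l : List (List ℕ)} (n : ℕ)
    (h1 : ∀ cs ∈ l.take n, ∃ r : Tr, job T t cs r = true) (h2 : ∀ cs ∈ l.drop n, ∃ r : Tr, job T t cs r = true) :
    ∀ cs ∈ l, ∃ r : Tr, job T t cs r = true := by
  intro cs hc
  rw [← List.take_append_drop n l] at hc
  rcases List.mem_append.1 hc with h | h
  exacts [h1 cs h, h2 cs h]

end Pool.Agent.KServer.R4
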