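import Pool.Agent.Work.MP_fe875b_lc.R4.Stp
import Pool.Agent.Work.MP_fe875b_lc.R4.Snd

/-!
MP_fe875b_lc, three servers, ratio 4: from the accepted jobs to the theorem.
-/

set_option autoImplicit false

namespace Pool.Agent.KServer.R4

theorem concl_of_jobs (hall : ∀ j < TT.length, ∀ cs ∈ allcs (TT.getD j (tm0, [])).1.v, ∃ r : Tr, job TT j cs r = true) :
    Concl := fun _ _ _ _ _ hs z a _ _ h1 h2 h3 =>
  step_all (T := TT) (by decide +kernel) rfl hall hs z a h1 h2 h3

theorem four_of_jobs (hall : ∀ j < TT.length, ∀ cs ∈ allcs (TT.getD j (tm0, [])).1.v, ∃ r : Tr, job TT j cs r = true) :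
    ∀ (M : Type) [MetricSpace M] (c₀ : Fin 3 → M), ∃ b : ℝ, Comp (fun x y => dist x y) c₀ 4 b :=
  four_of_concl (concl_of_jobs hall)

end Pool.Agent.KServer.R4
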