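import Pool.Agent.Work.MP_fe875b_lc.R4.Snd
import Pool.Agent.Work.MP_fe875b_lc.R4.Fk

/-!
MP_fe875b_lc, R4/Fs: soundness of the fast checker `R4/Fk`.
-/

set_option autoImplicit false

namespace Pool.Agent.KServer.R4

open Finset

/-! ### Packed numbers -/

/-- the unit of the digit 325 -/
def B5 : ℕ := bs ^ 325

/-- `p` is a packed sum of atoms of total value `a` -/
def Rp (A : ℕ → ℝ) (p : ℕ) (a : ℝ) : Prop :=
  ∃ f : ℕ → ℕ, p = ∑ k ∈ range 325, f k * bs ^ k + (∑ k ∈ range 325, f k) * B5 ∧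
    a = ∑ k ∈ range 325, (f k : ℝ) * A k

section

variable {A : ℕ → ℝ} {p q : ℕ} {a b : ℝ}

theorem Rp.zero : Rp A 0 0 := ⟨fun _ => 0, by simp, by simp⟩

theorem Rp.add (h : Rp A p a) (h' : Rp A q b) : Rp A (Nat.add p q) (a + b) := by
  obtain ⟨f, hp, ha⟩ := h
  obtain ⟨g, hq, hb⟩ := h'
  refine ⟨fun k => f k + g k, ?_, ?_⟩
  · show p + q = _
    rw [hp, hq]
    simp only [add_mul, sum_add_distrib]
    ring
  · rw [ha, hb]
    simp only [Nat.cast_add, add_mul, sum_add_distrib]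

theorem Rp.mul (m : ℕ) (h : Rp A p a) : Rp A (Nat.mul m p) (m * a) := by
  obtain ⟨f, hp, ha⟩ := h
  refine ⟨fun k => m * f k, ?_, ?_⟩
  · show m * p = _
    rw [hp, mul_add, mul_sum, ← mul_assoc, mul_sum]
    simp only [mul_assoc]
  · rw [ha, mul_sum]
    simp only [Nat.cast_mul, mul_assoc]

theorem WU_eq : WU = B5 := by decide +kernel
theorem BA_eq : BA = bs ^ 324 := by decide +kernel
theorem BB_eq : BB = bs * B5 := by decide +kernel
theorem B5_eq : B5 = bs ^ 324 * bs := by decide +kernel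
theorem B5_pos : 0 < B5 := by decide +kernel

theorem Rp.aw {k : ℕ} (hk : k < 325) : Rp A (aw (32 * k)) (A k) := by
  refine ⟨fun j => if j = k then 1 else 0, ?_, ?_⟩
  · have h1 : ∑ j ∈ range 325, (if j = k then 1 else 0) * bs ^ j = bs ^ k := by
      simp [Finset.sum_ite_eq', hk]
    have h2 : ∑ j ∈ range 325, (if j = k then 1 else 0) = 1 := by
      simp [Finset.sum_ite_eq', hk]
    rw [h1, h2]
    show WU + 1 <<< (32 * k) = _
    rw [WU_eq, Nat.one_shiftLeft, pow_mul, one_mul, add_comm]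
    rfl
  · simp [Finset.sum_ite_eq', hk]

theorem sum_lt_pow {b : ℕ} (hb : 0 < b) {f : ℕ → ℕ} : ∀ n : ℕ, (∀ k < n, f k < b) → ∑ k ∈ range n, f k * b ^ k < b ^ n
  | 0, _ => by simp
  | n + 1, h => by
    rw [sum_range_succ, pow_succ]
    have h1 := sum_lt_pow hb (f := f) n fun k hk => h k (by omega)
    have h2 : f n + 1 ≤ b := h n (by omega)
    nlinarith [Nat.zero_le (b ^ n)]

theorem uniq_lt (b : ℕ) (hb : 0 < b) : ∀ (n : ℕ) (f g : ℕ → ℕ), (∀ k < n, f k < b) → (∀ k < n, g k < b) →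
    ∑ k ∈ range n, f k * b ^ k = ∑ k ∈ range n, g k * b ^ k → ∀ k < n, f k = g k := by
  intro n
  induction n with
  | zero => intro f g _ _ _ k hk; omega
  | succ n ih =>
    intro f g hf hg h
    rw [sum_range_succ, sum_range_succ] at h
    have h1 := sum_lt_pow hb n fun k hk => hf k (by omega)
    have h2 := sum_lt_pow hb n fun k hk => hg k (by omega)
    have h3 : f n = g n := by
      have := congrArg (· / b ^ n) h
      beta_reduce at this
      rw [Nat.add_mul_div_right _ _ (by positivity), Nat.add_mul_div_right _ _ (by positivity),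
        Nat.div_eq_of_lt h1, Nat.div_eq_of_lt h2, zero_add, zero_add] at this
      exact this
    rw [h3] at h
    have h4 := ih f g (fun k hk => hf k (by omega)) (fun k hk => hg k (by omega)) (Nat.add_right_cancel h)
    intro k hk
    rcases Nat.lt_succ_iff_lt_or_eq.1 hk with h5 | rfl
    · exact h4 k h5
    · exact h3

theorem Rp.digits {f : ℕ → ℕ} (h : ∑ k ∈ range 325, f k * bs ^ k + (∑ k ∈ range 325, f k) * B5 < bs * B5) :
    ∀ k < 325, f k < bs := by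
  intro k hk
  have h1 : (∑ k ∈ range 325, f k) * B5 < bs * B5 := lt_of_le_of_lt (Nat.le_add_left _ _) h
  have h2 : ∑ k ∈ range 325, f k < bs := lt_of_mul_lt_mul_right h1 (Nat.zero_le _)
  exact lt_of_le_of_lt (single_le_sum (f := f) (fun _ _ => Nat.zero_le _) (mem_range.2 hk)) h2

theorem Rp.red {f : ℕ → ℕ} (h : ∀ k < 325, f k < bs) :
    (∑ k ∈ range 325, f k * bs ^ k + (∑ k ∈ range 325, f k) * B5) % bs ^ 324 = ∑ k ∈ range 324, f k * bs ^ k := by
  have h1 := sum_lt_pow (b := bs) (by decide) 324 fun k hk => h k (by omega)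
  rw [sum_range_succ (fun k => f k * bs ^ k) 324, B5_eq]
  generalize ∑ k ∈ range 325, f k = w
  generalize ∑ k ∈ range 324, f k * bs ^ k = s at h1 ⊢
  generalize f 324 = e
  generalize bs ^ 324 = B at h1 ⊢
  have : s + e * B + w * (B * bs) = s + B * (e + w * bs) := by ring
  rw [this, Nat.add_mul_mod_self_left, Nat.mod_eq_of_lt h1]

theorem Rp.eq (hA : A 324 = 0) (h : Rp A p a) (h' : Rp A q b) (hc : cmpN p q = true) : a = b := by
  obtain ⟨f, hp, ha⟩ := h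
  obtain ⟨g, hq, hb⟩ := h'
  rw [ha, hb]
  simp only [cmpN, Bool.and_eq_true] at hc
  obtain ⟨h0, h1, h2⟩ := hc
  have h0' : p % BA = q % BA := Nat.eq_of_beq_eq_true h0
  have h1' : p ≤ BB - 1 := Nat.le_of_ble_eq_true h1
  have h2' : q ≤ BB - 1 := Nat.le_of_ble_eq_true h2
  have hB : 0 < BB := by rw [BB_eq]; exact Nat.mul_pos (by decide) B5_pos
  have h3 : p < bs * B5 := by rw [← BB_eq]; omega
  have h4 : q < bs * B5 := by rw [← BB_eq]; omega
  rw [hp] at h3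
  rw [hq] at h4
  have h5 := Rp.digits h3
  have h6 := Rp.digits h4
  rw [BA_eq, hp, hq, Rp.red h5, Rp.red h6] at h0'
  have h7 := uniq_lt bs (by decide) 324 f g (fun k hk => h5 k (by omega)) (fun k hk => h6 k (by omega)) h0'
  rw [sum_range_succ (fun k => (f k : ℝ) * A k) 324, sum_range_succ (fun k => (g k : ℝ) * A k) 324, hA, mul_zero, mul_zero]
  have e : ∑ k ∈ range 324, (f k : ℝ) * A k = ∑ k ∈ range 324, (g k : ℝ) * A k :=
    sum_congr rfl fun k hk => by rw [h7 k (mem_range.1 hk)]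
  rw [e]

end

/-! ### Atoms -/

variable {V : Type}

/-- value of an atom, with the dummy 324 -/
noncomputable def at2 (D : V → V → ℝ) (anti : V → V) (Δ : ℝ) (v : V → V → ℝ) (x : ℕ → V) (φ δ u : ℝ) (k : ℕ) : ℝ :=
  if k < 324 then at_ D anti Δ v x φ δ u k else 0

/-- index of the positive atom of `d(p,q)` -/
def dx (p q : ℕ) : ℕ := cond (Nat.beq (p / 2) (q / 2)) (cond (Nat.beq (p % 2) (q % 2)) 324 320)
  (cond (Nat.beq (p % 2) (q % 2)) (dI (p / 2) (q / 2)) 320)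

/-- index of the negative atom of `d(p,q)` -/
def dy (p q : ℕ) : ℕ := cond (Nat.beq (p / 2) (q / 2)) 324 (cond (Nat.beq (p % 2) (q % 2)) 324 (dI (p / 2) (q / 2)))

theorem tv_tab : ∀ p < 16, ∀ q < 16, Nat.land (Nat.shiftRight TV (Nat.mul 14 (ix p q))) 16383
    = 32 * cond (Nat.ble p q) (16 * p + q) (16 * q + p) := by decide +kernel

theorem tp_tab : ∀ p < 16, ∀ q < 16, Nat.land (Nat.shiftRight TP (Nat.mul 14 (ix p q))) 16383 = 32 * dx p q := by
  decide +kernel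

theorem tn_tab : ∀ p < 16, ∀ q < 16, Nat.land (Nat.shiftRight TN (Nat.mul 14 (ix p q))) 16383 = 32 * dy p q := by
  decide +kernel

theorem vx_lt : ∀ p < 16, ∀ q < 16, cond (Nat.ble p q) (16 * p + q) (16 * q + p) < 256 := by decide +kernel
theorem dx_lt : ∀ p < 16, ∀ q < 16, dx p q < 325 := by decide +kernel
theorem dy_lt : ∀ p < 16, ∀ q < 16, dy p q < 325 := by decide +kernel
theorem dI_lt : ∀ i < 8, ∀ j < 8, dI i j < 320 := by decide +kernel

/-- the assignment of a packed number -/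
def yM (anti : V → V) (x : ℕ → V) (M i : ℕ) : V := lit anti x (Nat.land (Nat.shiftRight M (4 * i)) 15)

theorem land15 (n : ℕ) : Nat.land n 15 < 16 := Nat.lt_succ_of_le (Nat.and_le_right (n := n) (m := 15))

theorem xor1 : ∀ a < 16, Nat.xor a 1 = flip a := by decide
theorem xor0 : ∀ a < 16, Nat.xor a 0 = a := by decide

section

variable {D : V → V → ℝ} {anti : V → V} {Δ : ℝ} {v : V → V → ℝ} {x : ℕ → V} {φ δ u : ℝ}

theorem lt_eq (M l : ℕ) : lt M l = if l % 2 = 0 then Nat.land (Nat.shiftRight M (4 * (l / 2))) 15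
    else flip (Nat.land (Nat.shiftRight M (4 * (l / 2))) 15) := by
  have h1 : lt M l = Nat.xor (Nat.land (Nat.shiftRight M (4 * (l / 2))) 15) (l % 2) := by
    have e1 : l >>> 1 = l / 2 := Nat.shiftRight_one l
    have e2 : l &&& 1 = l % 2 := Nat.and_one_is_mod l
    rw [← e1, ← e2]
    rfl
  rw [h1]
  rcases Nat.mod_two_eq_zero_or_one l with h | h
  · rw [h, if_pos rfl, xor0 _ (land15 _)]
  · rw [h, if_neg (by decide), xor1 _ (land15 _)]

theorem lt_lt (M l : ℕ) : lt M l < 16 := by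
  rw [lt_eq]
  split
  · exact land15 _
  · exact flip_lt (land15 _)

theorem lit_lt (h : Sp D anti Δ v) (M l : ℕ) : lit anti x (lt M l) = lit anti (yM anti x M) l := by
  rw [lt_eq]
  rcases Nat.mod_two_eq_zero_or_one l with h2 | h2
  · rw [if_pos h2, lit_even h2]
    rfl
  · rw [if_neg (by omega), lit_flip h, lit_odd h2]
    rfl

theorem Rp_av (h : Sp D anti Δ v) {p q : ℕ} (hp : p < 16) (hq : q < 16) :
    Rp (at2 D anti Δ v x φ δ u) (av (ix p q)) (v (lit anti x p) (lit anti x q)) := by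
  have h1 : av (ix p q) = aw (32 * cond (Nat.ble p q) (16 * p + q) (16 * q + p)) := congrArg aw (tv_tab p hp q hq)
  have h2 := vx_lt p hp q hq
  have h3 := Rp.aw (A := at2 D anti Δ v x φ δ u) (k := cond (Nat.ble p q) (16 * p + q) (16 * q + p)) (by omega)
  rw [h1, ← ev_vF (x := x) (φ := φ) (δ := δ) (u := u) h hp hq]
  have h4 : at2 D anti Δ v x φ δ u (cond (Nat.ble p q) (16 * p + q) (16 * q + p)) = ev (at_ D anti Δ v x φ δ u) (vF p q) := by
    unfold at2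
    rw [if_pos (by omega)]
    simp [ev, vF]
  rw [← h4]
  exact h3

theorem Rp_d (h : Sp D anti Δ v) {p q : ℕ} (hp : p < 16) (hq : q < 16) :
    ∃ a b, Rp (at2 D anti Δ v x φ δ u) (dp (ix p q)) a ∧ Rp (at2 D anti Δ v x φ δ u) (dn (ix p q)) b ∧
      a - b = D (lit anti x p) (lit anti x q) := by
  have h1 : dp (ix p q) = aw (32 * dx p q) := congrArg aw (tp_tab p hp q hq)
  have h2 : dn (ix p q) = aw (32 * dy p q) := congrArg aw (tn_tab p hp q hq)
  rw [h1, h2]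
  refine ⟨_, _, Rp.aw (dx_lt p hp q hq), Rp.aw (dy_lt p hp q hq), ?_⟩
  rw [← ev_dF (x := x) (φ := φ) (δ := δ) (u := u) h hp hq]
  have a4 : at2 D anti Δ v x φ δ u 324 = 0 := if_neg (by omega)
  have a0 : at2 D anti Δ v x φ δ u 320 = at_ D anti Δ v x φ δ u 320 := if_pos (by omega)
  have a1 : at2 D anti Δ v x φ δ u (dI (p / 2) (q / 2)) = at_ D anti Δ v x φ δ u (dI (p / 2) (q / 2)) := by
    have := dI_lt (p / 2) (by omega) (q / 2) (by omega)
    exact if_pos (by omega)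
  unfold dx dy dF
  rcases Nat.beq (p / 2) (q / 2) with _ | _ <;> rcases Nat.beq (p % 2) (q % 2) with _ | _ <;>
    simp only [cond_true, cond_false, a4, a0, a1, ev, List.map_cons, List.map_nil, List.sum_cons, List.sum_nil] <;> ring

/-- value of the distance part -/
def dval (D : V → V → ℝ) (anti : V → V) (Δ : ℝ) (y : ℕ → V) (T : Tm) : ℝ :=
  (T.d.map fun p => D (lit anti y p.1) (lit anti y p.2)).sum
    - (T.e.map fun p => D (lit anti y p.1) (lit anti y p.2)).sum + T.c * Δ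

theorem Rp_vS (h : Sp D anti Δ v) (M : ℕ) : ∀ l : List (ℕ × ℕ),
    Rp (at2 D anti Δ v x φ δ u) (vS M l) (l.map fun p => v (lit anti (yM anti x M) p.1) (lit anti (yM anti x M) p.2)).sum
  | [] => Rp.zero
  | p :: l => by
    rw [List.map_cons, List.sum_cons, ← lit_lt h, ← lit_lt h]
    exact (Rp_av h (lt_lt _ _) (lt_lt _ _)).add (Rp_vS h M l)

theorem Rp_dS (h : Sp D anti Δ v) (M : ℕ) : ∀ l : List (ℕ × ℕ),
    ∃ a b, Rp (at2 D anti Δ v x φ δ u) (dS M l) a ∧ Rp (at2 D anti Δ v x φ δ u) (nS M l) b ∧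
      a - b = (l.map fun p => D (lit anti (yM anti x M) p.1) (lit anti (yM anti x M) p.2)).sum
  | [] => ⟨0, 0, Rp.zero, Rp.zero, by simp⟩
  | p :: l => by
    obtain ⟨a, b, h1, h2, h3⟩ := Rp_dS h M l
    obtain ⟨a', b', h1', h2', h3'⟩ := Rp_d (x := x) (φ := φ) (δ := δ) (u := u) h (lt_lt M p.1) (lt_lt M p.2)
    refine ⟨a' + a, b' + b, h1'.add h1, h2'.add h2, ?_⟩
    rw [List.map_cons, List.sum_cons, ← lit_lt h, ← lit_lt h, ← h3, ← h3']
    ring

theorem Rp_D : Rp (at2 D anti Δ v x φ δ u) aD Δ := by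
  have h := Rp.aw (A := at2 D anti Δ v x φ δ u) (k := 320) (by omega)
  have e : at2 D anti Δ v x φ δ u 320 = Δ := by
    unfold at2
    rw [if_pos (by omega), at_Del]
  rw [e] at h
  exact h

theorem Rp_F : Rp (at2 D anti Δ v x φ δ u) aF φ := by
  have h := Rp.aw (A := at2 D anti Δ v x φ δ u) (k := 321) (by omega)
  have e : at2 D anti Δ v x φ δ u 321 = φ := by
    unfold at2
    rw [if_pos (by omega), at_Phi]
  rw [e] at h
  exact h

theorem Rp_E : Rp (at2 D anti Δ v x φ δ u) aE δ := by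
  have h := Rp.aw (A := at2 D anti Δ v x φ δ u) (k := 322) (by omega)
  have e : at2 D anti Δ v x φ δ u 322 = δ := by
    unfold at2
    rw [if_pos (by omega), at_del]
  rw [e] at h
  exact h

theorem Rp_U : Rp (at2 D anti Δ v x φ δ u) aU u := by
  have h := Rp.aw (A := at2 D anti Δ v x φ δ u) (k := 323) (by omega)
  have e : at2 D anti Δ v x φ δ u 323 = u := by
    unfold at2
    rw [if_pos (by omega), at_u]
  rw [e] at h
  exact h

theorem Rp_e (h : Sp D anti Δ v) (T : Tm) (M : ℕ) :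
    ∃ a b, Rp (at2 D anti Δ v x φ δ u) (eP T M) a ∧ Rp (at2 D anti Δ v x φ δ u) (eN T M) b ∧
      a - b = dval D anti Δ (yM anti x M) T := by
  obtain ⟨a, b, h1, h2, h3⟩ := Rp_dS (x := x) (φ := φ) (δ := δ) (u := u) h M T.d
  obtain ⟨a', b', h1', h2', h3'⟩ := Rp_dS (x := x) (φ := φ) (δ := δ) (u := u) h M T.e
  refine ⟨_, _, h1.add (h2'.add (Rp_D.mul T.c)), h2.add h1', ?_⟩
  unfold dval
  rw [← h3, ← h3']
  ring

theorem Rp_t (h : Sp D anti Δ v) (T : Tm) (M : ℕ) :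
    ∃ a b, Rp (at2 D anti Δ v x φ δ u) (tP T M) a ∧ Rp (at2 D anti Δ v x φ δ u) (eN T M) b ∧
      a - b = T.val D anti Δ v (yM anti x M) := by
  obtain ⟨a, b, h1, h2, h3⟩ := Rp_e (x := x) (φ := φ) (δ := δ) (u := u) h T M
  refine ⟨_, b, (Rp_vS h M T.v).add h1, h2, ?_⟩
  unfold Tm.val
  unfold dval at h3
  rw [← h3]
  ring

theorem Rp_o (h : Sp D anti Δ v) (c : ℕ) {p q : ℕ} (hp : p < 16) (hq : q < 16) :
    ∃ a b, Rp (at2 D anti Δ v x φ δ u) (oP c p q) a ∧ Rp (at2 D anti Δ v x φ δ u) (oN c p q) b ∧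
      a - b = rop D v (x 0) (x 1) c (lit anti x p) (lit anti x q) := by
  have l0 : lit anti x 0 = x 0 := rfl
  have l2 : lit anti x 2 = x 1 := rfl
  have g2 : (2 : ℕ) < 16 := by omega
  have g0 : (0 : ℕ) < 16 := by omega
  match c with
  | 0 =>
    obtain ⟨a, b, h1, h2, h3⟩ := Rp_d (x := x) (φ := φ) (δ := δ) (u := u) h g2 g0
    refine ⟨_, b, (Rp_av h hp hq).add h1, h2, ?_⟩
    rw [l0, l2] at h3
    show _ = v (lit anti x p) (lit anti x q) + D (x 1) (x 0)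
    rw [← h3]; ring
  | 1 =>
    obtain ⟨a, b, h1, h2, h3⟩ := Rp_d (x := x) (φ := φ) (δ := δ) (u := u) h hp g0
    refine ⟨_, b, (Rp_av h g2 hq).add h1, h2, ?_⟩
    rw [l0] at h3
    show _ = v (x 1) (lit anti x q) + D (lit anti x p) (x 0)
    rw [← h3, ← l2]; ring
  | n + 2 =>
    obtain ⟨a, b, h1, h2, h3⟩ := Rp_d (x := x) (φ := φ) (δ := δ) (u := u) h hq g0
    refine ⟨_, b, (Rp_av h g2 hp).add h1, h2, ?_⟩
    rw [l0] at h3
    show _ = v (x 1) (lit anti x p) + D (lit anti x q) (x 0)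
    rw [← h3, ← l2]; ring

/-- value of the resolved terms -/
def rsum (D : V → V → ℝ) (v : V → V → ℝ) (z a : V) (P : ℕ → V) : List (ℕ × ℕ) → ℕ → ℝ
  | [], _ => 0
  | p :: l, cs => rop D v z a (Nat.land cs 3) (P p.1) (P p.2) + rsum D v z a P l (Nat.shiftRight cs 2)

theorem Rp_ro (h : Sp D anti Δ v) (M : ℕ) : ∀ (l : List (ℕ × ℕ)) (cs : ℕ),
    ∃ a b, Rp (at2 D anti Δ v x φ δ u) (roP M l cs) a ∧ Rp (at2 D anti Δ v x φ δ u) (roN M l cs) b ∧
      a - b = rsum D v (x 0) (x 1) (lit anti (yM anti x M)) l cs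
  | [], _ => ⟨0, 0, Rp.zero, Rp.zero, by simp [rsum]⟩
  | p :: l, cs => by
    obtain ⟨a, b, h1, h2, h3⟩ := Rp_ro h M l (Nat.shiftRight cs 2)
    obtain ⟨a', b', h1', h2', h3'⟩ := Rp_o (x := x) (φ := φ) (δ := δ) (u := u) h (Nat.land cs 3) (lt_lt M p.1) (lt_lt M p.2)
    refine ⟨a' + a, b' + b, h1'.add h1, h2'.add h2, ?_⟩
    rw [rsum, ← lit_lt h, ← lit_lt h, ← h3, ← h3']
    ring

/-- value of the resolved template -/
def rval (D : V → V → ℝ) (anti : V → V) (Δ : ℝ) (v : V → V → ℝ) (z a : V) (y : ℕ → V) (T : Tm) (cs : ℕ) : ℝ :=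
  rsum D v z a (lit anti y) T.v cs + dval D anti Δ y T

theorem Rp_r (h : Sp D anti Δ v) (T : Tm) (M cs : ℕ) :
    ∃ a b, Rp (at2 D anti Δ v x φ δ u) (rP T M cs) a ∧ Rp (at2 D anti Δ v x φ δ u) (rN T M cs) b ∧
      a - b = rval D anti Δ v (x 0) (x 1) (yM anti x M) T cs := by
  obtain ⟨a, b, h1, h2, h3⟩ := Rp_e (x := x) (φ := φ) (δ := δ) (u := u) h T M
  obtain ⟨a', b', h1', h2', h3'⟩ := Rp_ro (x := x) (φ := φ) (δ := δ) (u := u) h M T.v cs
  refine ⟨_, _, h1'.add h1, h2'.add h2, ?_⟩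
  unfold rval
  rw [← h3, ← h3']
  ring

theorem le_rsum (D : V → V → ℝ) (v : V → V → ℝ) (z a : V) (P : ℕ → V) : ∀ (l : List (ℕ × ℕ)) (cs : ℕ),
    (l.map fun p => vn D v z a (P p.1) (P p.2)).sum ≤ rsum D v z a P l cs
  | [], _ => by simp [rsum]
  | p :: l, cs => by
    rw [List.map_cons, List.sum_cons, rsum]
    exact add_le_add (vn_le _ _ _ _ _ _ _) (le_rsum D v z a P l _)

theorem le_rval (z a : V) (y : ℕ → V) (T : Tm) (cs : ℕ) :
    T.val D anti Δ (vn D v z a) y ≤ rval D anti Δ v z a y T cs := by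
  have := le_rsum D v z a (lit anti y) T.v cs
  unfold Tm.val rval dval
  linarith

/-- the packed choices `cs` attain the minima -/
def argp (D : V → V → ℝ) (v : V → V → ℝ) (z a : V) (P : ℕ → V) : List (ℕ × ℕ) → ℕ → Prop
  | [], _ => True
  | p :: l, cs => vn D v z a (P p.1) (P p.2) = rop D v z a (Nat.land cs 3) (P p.1) (P p.2) ∧
      argp D v z a P l (Nat.shiftRight cs 2)

theorem rsum_eq (D : V → V → ℝ) (v : V → V → ℝ) (z a : V) (P : ℕ → V) : ∀ (l : List (ℕ × ℕ)) (cs : ℕ),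
    argp D v z a P l cs → rsum D v z a P l cs = (l.map fun p => vn D v z a (P p.1) (P p.2)).sum
  | [], _, _ => by simp [rsum]
  | p :: l, cs, h => by
    rw [List.map_cons, List.sum_cons, rsum, rsum_eq D v z a P l _ h.2, h.1]

theorem rval_eq (z a : V) (y : ℕ → V) (T : Tm) (cs : ℕ) (h : argp D v z a (lit anti y) T.v cs) :
    rval D anti Δ v z a y T cs = T.val D anti Δ (vn D v z a) y := by
  have := rsum_eq D v z a (lit anti y) T.v cs h
  unfold Tm.val rval dval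
  linarith

/-! ### Rows -/

/-- a valid pair of packed numbers -/
def Ok (A : ℕ → ℝ) (p n : ℕ) : Prop := ∃ a b, Rp A p a ∧ Rp A n b ∧ b ≤ a

theorem Ok.zero {A : ℕ → ℝ} : Ok A 0 0 := ⟨0, 0, Rp.zero, Rp.zero, le_refl _⟩

/-- the facts about a job, `L` the value of the left side -/
structure Env (D : V → V → ℝ) (anti : V → V) (Δ : ℝ) (v : V → V → ℝ) (x : ℕ → V) (φ δ u L : ℝ) : Prop where
  sp : Sp D anti Δ v
  phi : ∀ j : ℕ, ∀ y : ℕ → V, y 0 = x 0 → φ ≤ (nT j).val D anti Δ v y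
  phi6 : ∀ y : ℕ → V, y 0 = x 0 → φ ≤ t6.val D anti Δ v y - min (u0.val D anti Δ v y) (u1.val D anti Δ v y)
  mn : ∀ j : ℕ, ∀ y : ℕ → V, y 0 = x 1 → L ≤ (nT j).val D anti Δ (vn D v (x 0) (x 1)) y
  d0 : δ ≤ 2 * D (x 1) (x 0)
  d1 : δ ≤ v (x 1) (anti (x 1)) + Δ - v (anti (x 1)) (anti (x 1))
  hu : ∀ i : ℕ, u ≤ (nU i).val D anti Δ (vn D v (x 0) (x 1)) (yM anti x M0)

theorem disp_ok {Q : ℕ → ℕ → Prop} {x0 x1 x2 x3 x4 x5 x6 x7 x8 x9 y0 y1 y2 y3 y4 y5 y6 y7 y8 y9 : ℕ}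
    (h0 : Q x0 y0) (h1 : Q x1 y1) (h2 : Q x2 y2) (h3 : Q x3 y3) (h4 : Q x4 y4) (h5 : Q x5 y5) (h6 : Q x6 y6)
    (h7 : Q x7 y7) (h8 : Q x8 y8) (h9 : Q x9 y9) (h : Q 0 0) (k : ℕ) :
    Q (disp k x0 x1 x2 x3 x4 x5 x6 x7 x8 x9) (disp k y0 y1 y2 y3 y4 y5 y6 y7 y8 y9) := by
  match k with
  | 0 => exact h0
  | 1 => exact h1
  | 2 => exact h2
  | 3 => exact h3
  | 4 => exact h4
  | 5 => exact h5
  | 6 => exact h6
  | 7 => exact h7
  | 8 => exact h8
  | 9 => exact h9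
  | n + 10 => exact h

theorem nH_ok {Q : ℕ → ℕ → Prop} (h0 : Q 0 0) : ∀ (H : List (ℕ × ℕ)), (∀ h ∈ H, Q h.1 h.2) → ∀ i : ℕ,
    Q (nH H i).1 (nH H i).2
  | [], _, _ => h0
  | h :: H, hH, 0 => hH h List.mem_cons_self
  | h :: H, hH, i + 1 => nH_ok h0 H (fun h' hh => hH h' (List.mem_cons_of_mem _ hh)) i

theorem f1_lt (c : ℕ) : f1 c < 16 := land15 _
theorem f2_lt (c : ℕ) : f2 c < 16 := land15 _
theorem f3_lt (c : ℕ) : f3 c < 16 := land15 _

/-- the first symbol of a packed assignment `16 n + a` -/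
theorem yM_zero (anti : V → V) (x : ℕ → V) (n : ℕ) {a : ℕ} (ha : a < 16) :
    yM anti x (Nat.add a (Nat.mul 16 n)) 0 = lit anti x a := by
  unfold yM
  congr 1
  show (a + 16 * n) >>> (4 * 0) &&& 15 = a
  rw [mul_zero, Nat.shiftRight_zero, show (15 : ℕ) = 2 ^ 4 - 1 by norm_num, Nat.and_two_pow_sub_one_eq_mod]
  omega

theorem yM_MM (anti : V → V) (x : ℕ → V) (n : ℕ) : yM anti x (Nat.mul 16 n) 0 = x 0 := by
  have h := yM_zero anti x n (a := 0) (by omega)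
  have e : Nat.add 0 (Nat.mul 16 n) = Nat.mul 16 n := Nat.zero_add _
  rw [e] at h
  exact h

theorem yM_MM2 (anti : V → V) (x : ℕ → V) (n : ℕ) : yM anti x (Nat.add 2 (Nat.mul 16 n)) 0 = x 1 :=
  yM_zero anti x n (by omega)

theorem MR_aux (n : ℕ) : ∀ i < 3, Nat.land (Nat.shiftRight (Nat.add 512 (Nat.mul 4096 n)) (4 * i)) 15
    = if i = 2 then 2 else 0 := by
  intro i hi
  show (512 + 4096 * n) >>> (4 * i) &&& 15 = _
  rw [show (15 : ℕ) = 2 ^ 4 - 1 by norm_num, Nat.and_two_pow_sub_one_eq_mod, Nat.shiftRight_eq_div_pow]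
  match i, hi with
  | 0, _ => norm_num; omega
  | 1, _ => norm_num; omega
  | 2, _ => norm_num; omega

theorem row_valid {L : ℝ} (h : Env D anti Δ v x φ δ u L) {H : List (ℕ × ℕ)}
    (hH : ∀ h ∈ H, Ok (at2 D anti Δ v x φ δ u) h.1 h.2) {lp ln : ℕ}
    (hL : ∃ a b, Rp (at2 D anti Δ v x φ δ u) lp a ∧ Rp (at2 D anti Δ v x φ δ u) ln b ∧ a - b = L) (c : ℕ) :
    Ok (at2 D anti Δ v x φ δ u) (rp H ln c) (rn H lp c) := by
  have hs := h.sp
  have l0 : lit anti x 0 = x 0 := rfl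
  have l2 : lit anti x 2 = x 1 := rfl
  have l3 : lit anti x 3 = anti (x 1) := rfl
  have g3 : (3 : ℕ) < 16 := by omega
  have g2 : (2 : ℕ) < 16 := by omega
  have g0 : (0 : ℕ) < 16 := by omega
  refine disp_ok ?_ ?_ ?_ ?_ ?_ ?_ ?_ ?_ ?_ ?_ Ok.zero _
  · obtain ⟨a, b, h1, h2, h3⟩ := Rp_d (x := x) (φ := φ) (δ := δ) (u := u) hs (f2_lt c) (f3_lt c)
    refine ⟨_, _, (Rp_av hs (f1_lt c) (f2_lt c)).add h1, (Rp_av hs (f1_lt c) (f3_lt c)).add h2, ?_⟩
    linarith [hs.vl (lit anti x (f1 c)) (lit anti x (f2 c)) (lit anti x (f3 c))]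
  · obtain ⟨a, b, h1, h2, h3⟩ := Rp_d (x := x) (φ := φ) (δ := δ) (u := u) hs (f1_lt c) (f2_lt c)
    obtain ⟨a', b', h1', h2', h3'⟩ := Rp_d (x := x) (φ := φ) (δ := δ) (u := u) hs (f2_lt c) (f3_lt c)
    obtain ⟨a'', b'', h1'', h2'', h3''⟩ := Rp_d (x := x) (φ := φ) (δ := δ) (u := u) hs (f1_lt c) (f3_lt c)
    refine ⟨_, _, h1.add (h1'.add h2''), h2.add (h2'.add h1''), ?_⟩
    linarith [hs.tri (lit anti x (f1 c)) (lit anti x (f2 c)) (lit anti x (f3 c))]
  · obtain ⟨a, b, h1, h2, h3⟩ := Rp_d (x := x) (φ := φ) (δ := δ) (u := u) hs (f1_lt c) (f2_lt c)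
    refine ⟨a, b, h1, h2, ?_⟩
    linarith [hs.nn (lit anti x (f1 c)) (lit anti x (f2 c))]
  · exact nH_ok (Q := Ok (at2 D anti Δ v x φ δ u)) Ok.zero H hH _
  · obtain ⟨a, b, h1, h2, h3⟩ := Rp_t (x := x) (φ := φ) (δ := δ) (u := u) hs (nT (f1 c)) (MM c)
    refine ⟨a, _, h1, h2.add Rp_F, ?_⟩
    have := h.phi (f1 c) _ (yM_MM anti x (Nat.land (Nat.shiftRight c 8) 16777215))
    have e : MM c = Nat.mul 16 (Nat.land (Nat.shiftRight c 8) 16777215) := rfl
    rw [← e] at this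
    linarith
  · obtain ⟨a, b, h1, h2, h3⟩ := Rp_r (x := x) (φ := φ) (δ := δ) (u := u) hs (nT (f1 c)) (Nat.add 2 (MM c)) (Nat.shiftRight c 32)
    obtain ⟨a', b', h1', h2', h3'⟩ := hL
    refine ⟨_, _, h1.add h2', h2.add h1', ?_⟩
    have h4 := h.mn (f1 c) _ (yM_MM2 anti x (Nat.land (Nat.shiftRight c 8) 16777215))
    have e : MM c = Nat.mul 16 (Nat.land (Nat.shiftRight c 8) 16777215) := rfl
    rw [← e] at h4
    have h5 := le_rval (D := D) (anti := anti) (Δ := Δ) (v := v) (x 0) (x 1) (yM anti x (Nat.add 2 (MM c))) (nT (f1 c))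
      (Nat.shiftRight c 32)
    linarith
  · obtain ⟨a, b, h1, h2, h3⟩ := Rp_d (x := x) (φ := φ) (δ := δ) (u := u) hs g2 g0
    rw [l0, l2] at h3
    unfold delP delN
    generalize f1 c = k
    match k with
    | 0 =>
      refine ⟨_, _, h1.add h1, h2.add (h2.add Rp_E), ?_⟩
      linarith [h.d0]
    | k + 1 =>
      refine ⟨_, _, (Rp_av hs g2 g3).add Rp_D, (Rp_av hs g3 g3).add Rp_E, ?_⟩
      rw [l2, l3]
      linarith [h.d1]
  · obtain ⟨a, b, h1, h2, h3⟩ := Rp_r (x := x) (φ := φ) (δ := δ) (u := u) hs (nU (f1 c)) M0 (f2 c)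
    refine ⟨a, _, h1, h2.add Rp_U, ?_⟩
    have h5 := le_rval (D := D) (anti := anti) (Δ := Δ) (v := v) (x 0) (x 1) (yM anti x M0) (nU (f1 c)) (f2 c)
    linarith [h.hu (f1 c)]
  · refine ⟨_, _, (Rp_av hs (f1_lt c) (f1_lt c)).add (Rp_av hs (f2_lt c) (f3_lt c)),
      (Rp_av hs (f1_lt c) (f2_lt c)).add (Rp_av hs (f1_lt c) (f3_lt c)), ?_⟩
    rcases hs.v4 (lit anti x (f1 c)) (lit anti x (f1 c)) (lit anti x (f2 c)) (lit anti x (f3 c)) with h1 | h1 <;> linarith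
  · obtain ⟨a, b, h1, h2, h3⟩ := Rp_t (x := x) (φ := φ) (δ := δ) (u := u) hs t6 (MR c)
    obtain ⟨a', b', h1', h2', h3'⟩ := Rp_d (x := x) (φ := φ) (δ := δ) (u := u) hs g2 g0
    refine ⟨_, _, h1.add h1', h2.add (h2'.add ((Rp_av hs g3 g3).add (Rp_F.add Rp_E))), ?_⟩
    rw [l0, l2] at h3'
    rw [l3]
    have aux := MR_aux (Nat.land (Nat.shiftRight c 12) 65535)
    have y0 : yM anti x (MR c) 0 = x 0 := congrArg (lit anti x) (aux 0 (by omega))
    have y1 : yM anti x (MR c) 1 = x 0 := congrArg (lit anti x) (aux 1 (by omega))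
    have y2 : yM anti x (MR c) 2 = x 1 := congrArg (lit anti x) (aux 2 (by omega))
    have e2 : lit anti (yM anti x (MR c)) 2 = x 0 := y1
    have e4 : lit anti (yM anti x (MR c)) 4 = x 1 := y2
    have e5 : lit anti (yM anti x (MR c)) 5 = anti (x 1) := congrArg anti y2
    have h4 := h.phi6 _ y0
    have h5 : u0.val D anti Δ v (yM anti x (MR c)) = v (anti (x 1)) (anti (x 1)) + D (x 1) (x 0) := by
      unfold u0 Tm.val
      simp only [List.map_cons, List.map_nil, List.sum_cons, List.sum_nil, e2, e4, e5]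
      rw [hs.comm (x 0) (x 1)]
      push_cast; ring
    have h6 : u1.val D anti Δ v (yM anti x (MR c)) = v (x 1) (anti (x 1)) - D (x 1) (x 0) + Δ := by
      unfold u1 Tm.val
      simp only [List.map_cons, List.map_nil, List.sum_cons, List.sum_nil, e2, e4, e5]
      rw [hs.comm (x 0) (x 1)]
      push_cast; ring
    have h7 : v (anti (x 1)) (anti (x 1)) - D (x 1) (x 0) + δ ≤
        min (u0.val D anti Δ v (yM anti x (MR c))) (u1.val D anti Δ v (yM anti x (MR c))) := by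
      rw [h5, h6]
      exact le_min (by linarith [h.d0]) (by linarith [h.d1])
    linarith

theorem foN_eq (n : ℕ) (k : ℕ → ℕ) : foN n k = k n := by
  cases n <;> rfl

theorem Ok.add {A : ℕ → ℝ} {p n p' n' : ℕ} (h : Ok A p n) (h' : Ok A p' n') : Ok A (Nat.add p p') (Nat.add n n') := by
  obtain ⟨a, b, h1, h2, h3⟩ := h
  obtain ⟨a', b', h1', h2', h3'⟩ := h'
  exact ⟨_, _, h1.add h1', h2.add h2', add_le_add h3 h3'⟩

theorem Ok.mul {A : ℕ → ℝ} {p n : ℕ} (m : ℕ) (h : Ok A p n) : Ok A (Nat.mul m p) (Nat.mul m n) := by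
  obtain ⟨a, b, h1, h2, h3⟩ := h
  exact ⟨_, _, h1.mul m, h2.mul m, mul_le_mul_of_nonneg_left h3 (Nat.cast_nonneg _)⟩

theorem sum_ok {A : ℕ → ℝ} {H : List (ℕ × ℕ)} {lp ln : ℕ} (h : ∀ c, Ok A (rp H ln c) (rn H lp c)) (c : ℕ) :
    ∀ n : ℕ, Ok A (sP H ln c n) (sN H lp c n)
  | 0 => Ok.zero
  | n + 1 => by
    have h1 : sP H ln c (n + 1) = Nat.add (Nat.mul (mu c n) (foN (cd c n) (rp H ln))) (sP H ln c n) := rfl
    have h2 : sN H lp c (n + 1) = Nat.add (Nat.mul (mu c n) (foN (cd c n) (rn H lp))) (sN H lp c n) := rfl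
    rw [h1, h2, foN_eq, foN_eq]
    exact ((h _).mul _).add (sum_ok h c n)

theorem at324 : at2 D anti Δ v x φ δ u 324 = 0 := if_neg (by omega)

theorem uH_ok {L : ℝ} (h : Env D anti Δ v x φ δ u L) (M : ℕ) (hM : yM anti x M 0 = x 0) {H : List (ℕ × ℕ)}
    (hH : ∀ h ∈ H, Ok (at2 D anti Δ v x φ δ u) h.1 h.2) :
    (∀ h ∈ uH M 0 H, Ok (at2 D anti Δ v x φ δ u) h.1 h.2) ∨ (∀ h ∈ uH M 1 H, Ok (at2 D anti Δ v x φ δ u) h.1 h.2) := by
  have hs := h.sp
  have h0 := h.phi6 _ hM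
  have key : ∀ i : ℕ, (nU i).val D anti Δ v (yM anti x M) ≤ u0.val D anti Δ v (yM anti x M) →
      (nU i).val D anti Δ v (yM anti x M) ≤ u1.val D anti Δ v (yM anti x M) →
      (nU i).val D anti Δ v (yM anti x M) ≤ min (u0.val D anti Δ v (yM anti x M)) (u1.val D anti Δ v (yM anti x M)) →
      ∀ h ∈ uH M i H, Ok (at2 D anti Δ v x φ δ u) h.1 h.2 := by
    intro i e0 e1 e2 g hg
    obtain ⟨a, b, h1, h2, h3⟩ := Rp_t (x := x) (φ := φ) (δ := δ) (u := u) hs (nU i) M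
    unfold uH at hg
    rcases List.mem_cons.1 hg with rfl | hg
    · obtain ⟨a', b', h1', h2', h3'⟩ := Rp_t (x := x) (φ := φ) (δ := δ) (u := u) hs t6 M
      refine ⟨_, _, h1'.add h2, h2'.add (h1.add Rp_F), ?_⟩
      linarith
    rcases List.mem_cons.1 hg with rfl | hg
    · obtain ⟨a', b', h1', h2', h3'⟩ := Rp_t (x := x) (φ := φ) (δ := δ) (u := u) hs u0 M
      refine ⟨_, _, h1'.add h2, h2'.add h1, ?_⟩
      linarith
    rcases List.mem_cons.1 hg with rfl | hg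
    · obtain ⟨a', b', h1', h2', h3'⟩ := Rp_t (x := x) (φ := φ) (δ := δ) (u := u) hs u1 M
      refine ⟨_, _, h1'.add h2, h2'.add h1, ?_⟩
      linarith
    · exact hH g hg
  rcases le_total (u0.val D anti Δ v (yM anti x M)) (u1.val D anti Δ v (yM anti x M)) with e | e
  · left
    exact key 0 (le_refl _) e (le_min (le_refl _) e)
  · right
    exact key 1 e (le_refl _) (le_min e (le_refl _))

theorem tf_sound {L : ℝ} (h : Env D anti Δ v x φ δ u L) {lp ln : ℕ}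
    (hL : ∃ a b, Rp (at2 D anti Δ v x φ δ u) lp a ∧ Rp (at2 D anti Δ v x φ δ u) ln b ∧ a - b = L) (r : Tf) :
    ∀ H : List (ℕ × ℕ), (∀ h ∈ H, Ok (at2 D anti Δ v x φ δ u) h.1 h.2) → r.chk lp ln H = true → φ + δ ≤ L := by
  have hs := h.sp
  induction r with
  | lf k n c =>
    intro H hH hc
    have hc' : (Nat.ble 1 k && cmpN (Nat.add (Nat.mul k (Nat.add aF (Nat.add aE ln))) (sP H ln c n))
      (Nat.add (Nat.mul k lp) (sN H lp c n))) = true := hc
    rw [Bool.and_eq_true] at hc'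
    obtain ⟨a', b', h1, h2, h3⟩ := sum_ok (row_valid h hH hL) c n
    obtain ⟨a, b, ha, hb, e⟩ := hL
    have h4 := Rp.eq at324 (((Rp_F.add (Rp_E.add hb)).mul k).add h1) ((ha.mul k).add h2) hc'.2
    have h5 : 0 < (k : ℝ) := by
      have : 1 ≤ k := Nat.le_of_ble_eq_true hc'.1
      exact_mod_cast this
    have h6 : 0 ≤ (k : ℝ) * (L - φ - δ) := by
      rw [← e]
      nlinarith
    have h7 : 0 ≤ L - φ - δ := nonneg_of_mul_nonneg_right h6 h5
    linarith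
  | sp a b c d t1 t2 ih1 ih2 =>
    intro H hH hc
    have hc' : ((Nat.ble a 15 && (Nat.ble b 15 && (Nat.ble c 15 && Nat.ble d 15))) &&
      (t1.chk lp ln (spH a b c d :: H) && t2.chk lp ln (spG a b c d :: H))) = true := hc
    simp only [Bool.and_eq_true] at hc'
    obtain ⟨⟨e1, e2, e3, e4⟩, c1, c2⟩ := hc'
    have e1 := Nat.lt_succ_of_le (Nat.le_of_ble_eq_true e1)
    have e2 := Nat.lt_succ_of_le (Nat.le_of_ble_eq_true e2)
    have e3 := Nat.lt_succ_of_le (Nat.le_of_ble_eq_true e3)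
    have e4 := Nat.lt_succ_of_le (Nat.le_of_ble_eq_true e4)
    rcases hs.v4 (lit anti x a) (lit anti x b) (lit anti x c) (lit anti x d) with h3 | h3
    · refine ih1 _ (fun g hg => ?_) c1
      rcases List.mem_cons.1 hg with rfl | hg
      · exact ⟨_, _, (Rp_av hs e1 e2).add (Rp_av hs e3 e4), (Rp_av hs e1 e3).add (Rp_av hs e2 e4), h3⟩
      · exact hH g hg
    · refine ih2 _ (fun g hg => ?_) c2
      rcases List.mem_cons.1 hg with rfl | hg
      · exact ⟨_, _, (Rp_av hs e1 e2).add (Rp_av hs e3 e4), (Rp_av hs e1 e4).add (Rp_av hs e2 e3), h3⟩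
      · exact hH g hg
  | sU m t1 t2 ih1 ih2 =>
    intro H hH hc
    have hc' : (t1.chk lp ln (uH (Nat.mul 16 m) 0 H) && t2.chk lp ln (uH (Nat.mul 16 m) 1 H)) = true := hc
    rw [Bool.and_eq_true] at hc'
    rcases uH_ok h (Nat.mul 16 m) (yM_MM anti x m) hH with h1 | h1
    · exact ih1 _ h1 hc'.1
    · exact ih2 _ h1 hc'.2

theorem hq_ok (h : Sp D anti Δ v) (c : ℕ) {p q : ℕ} (hp : p < 16) (hq' : q < 16) (k : ℕ)
    (ha : vn D v (x 0) (x 1) (lit anti x p) (lit anti x q) = rop D v (x 0) (x 1) c (lit anti x p) (lit anti x q))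
    {H : List (ℕ × ℕ)} (hH : ∀ h ∈ H, Ok (at2 D anti Δ v x φ δ u) h.1 h.2) :
    ∀ h ∈ hq c p q k H, Ok (at2 D anti Δ v x φ δ u) h.1 h.2 := by
  unfold hq
  rcases Nat.beq k c with _ | _
  · intro g hg
    rcases List.mem_cons.1 hg with rfl | hg
    · obtain ⟨a, b, h1, h2, h3⟩ := Rp_o (x := x) (φ := φ) (δ := δ) (u := u) h k hp hq'
      obtain ⟨a', b', h1', h2', h3'⟩ := Rp_o (x := x) (φ := φ) (δ := δ) (u := u) h c hp hq'
      refine ⟨_, _, h1.add h2', h2.add h1', ?_⟩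
      have := vn_le D v (x 0) (x 1) k (lit anti x p) (lit anti x q)
      linarith
    · exact hH g hg
  · exact hH

theorem hF_ok (h : Sp D anti Δ v) : ∀ (l : List (ℕ × ℕ)) (cs : ℕ) (H : List (ℕ × ℕ)),
    argp D v (x 0) (x 1) (lit anti (yM anti x M0)) l cs → (∀ h ∈ H, Ok (at2 D anti Δ v x φ δ u) h.1 h.2) →
    ∀ h ∈ hF l cs H, Ok (at2 D anti Δ v x φ δ u) h.1 h.2
  | [], _, _, _, hH => hH
  | p :: l, cs, H, ha, hH => by
    have h1 := ha.1
    rw [← lit_lt h, ← lit_lt h] at h1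
    refine hF_ok h l (Nat.shiftRight cs 2) _ ha.2 ?_
    rcases Nat.beq p.1 p.2 with _ | _
    · exact hq_ok h _ (lt_lt _ _) (lt_lt _ _) 2 h1 (hq_ok h _ (lt_lt _ _) (lt_lt _ _) 1 h1
        (hq_ok h _ (lt_lt _ _) (lt_lt _ _) 0 h1 hH))
    · exact hq_ok h _ (lt_lt _ _) (lt_lt _ _) 1 h1 (hq_ok h _ (lt_lt _ _) (lt_lt _ _) 0 h1 hH)

/-! ### Jobs -/

theorem nT_mem : ∀ j : ℕ, ∃ i < 8, TT.getD i (tm0, []) = (nT j, [])
  | 0 => ⟨0, by omega, rfl⟩
  | 1 => ⟨1, by omega, rfl⟩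
  | 2 => ⟨2, by omega, rfl⟩
  | 3 => ⟨3, by omega, rfl⟩
  | 4 => ⟨4, by omega, rfl⟩
  | 5 => ⟨5, by omega, rfl⟩
  | 6 => ⟨0, by omega, rfl⟩
  | 7 => ⟨7, by omega, rfl⟩
  | _ + 8 => ⟨0, by omega, rfl⟩

/-- `1` for the template with options -/
def bj (t : ℕ) : ℕ := cond (Nat.beq t 6) 1 0

theorem ex_argp (D : V → V → ℝ) (v : V → V → ℝ) (z a : V) (P : ℕ → V) : ∀ l : List (ℕ × ℕ),
    ∃ cs ∈ allcp l, argp D v z a P l cs
  | [] => ⟨0, by simp [allcp], trivial⟩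
  | p :: l => by
    obtain ⟨cs, h1, h2⟩ := ex_argp D v z a P l
    obtain ⟨c, h3, h3', h4⟩ : ∃ c < nopt p, c < 4 ∧ vn D v z a (P p.1) (P p.2) = rop D v z a c (P p.1) (P p.2) := by
      obtain ⟨c, h3, h4⟩ := vn_eq D v z a (P p.1) (P p.2)
      unfold nopt
      rcases hb : Nat.beq p.1 p.2 with _ | _
      · exact ⟨c, h3, by omega, h4⟩
      · rw [cond_true]
        match c, h3 with
        | 0, _ => exact ⟨0, by omega, by omega, h4⟩
        | 1, _ => exact ⟨1, by omega, by omega, h4⟩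
        | 2, _ =>
          refine ⟨1, by omega, by omega, ?_⟩
          rw [Nat.eq_of_beq_eq_true hb] at h4 ⊢
          exact h4
    refine ⟨c + 4 * cs, ?_, ?_⟩
    · rw [allcp, List.mem_flatMap]
      exact ⟨c, List.mem_range.2 h3, List.mem_map_of_mem h1⟩
    · have e1 : Nat.land (c + 4 * cs) 3 = c := by
        show (c + 4 * cs) &&& 3 = c
        rw [show (3 : ℕ) = 2 ^ 2 - 1 by norm_num, Nat.and_two_pow_sub_one_eq_mod]
        omega
      have e2 : Nat.shiftRight (c + 4 * cs) 2 = cs := by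
        show (c + 4 * cs) >>> 2 = cs
        rw [Nat.shiftRight_eq_div_pow]
        omega
      rw [argp, e1, e2]
      exact ⟨h4, h2⟩

theorem mnl_bj (D : V → V → ℝ) (anti : V → V) (Δ : ℝ) (w : V → V → ℝ) (y : ℕ → V) : ∀ t < 8,
    (bj t : ℝ) * min (u0.val D anti Δ w y) (u1.val D anti Δ w y)
      = mnl ((TT.getD t (tm0, [])).2.map fun O => O.val D anti Δ w y)
  | 0, _ => by show ((0 : ℕ) : ℝ) * _ = 0; simp
  | 1, _ => by show ((0 : ℕ) : ℝ) * _ = 0; simp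
  | 2, _ => by show ((0 : ℕ) : ℝ) * _ = 0; simp
  | 3, _ => by show ((0 : ℕ) : ℝ) * _ = 0; simp
  | 4, _ => by show ((0 : ℕ) : ℝ) * _ = 0; simp
  | 5, _ => by show ((0 : ℕ) : ℝ) * _ = 0; simp
  | 6, _ => by
    show ((1 : ℕ) : ℝ) * min (u0.val D anti Δ w y) (u1.val D anti Δ w y) = min (u0.val D anti Δ w y) (u1.val D anti Δ w y)
    rw [Nat.cast_one, one_mul]
  | 7, _ => by show ((0 : ℕ) : ℝ) * _ = 0; simp

/-- A job settles the case of the template `t` and the choices `cs`. -/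
theorem fj_sound {t cs : ℕ} {r : Tf} (ht : t < 8) (hj : fj (TT.getD t (tm0, [])).1 (bj t) cs r = true)
    (hs : Sp D anti Δ v)
    (hφ : ∀ j < 8, ∀ y : ℕ → V, y 0 = x 0 → φ ≤ tval D anti Δ v y (TT.getD j (tm0, [])))
    (hmin : ∀ j < 8, ∀ y : ℕ → V, y 0 = x 1 →
      tval D anti Δ (vn D v (x 0) (x 1)) (yM anti x M0) (TT.getD t (tm0, []))
        ≤ tval D anti Δ (vn D v (x 0) (x 1)) y (TT.getD j (tm0, [])))
    (d0 : δ ≤ 2 * D (x 1) (x 0))
    (d1 : δ ≤ v (x 1) (anti (x 1)) + Δ - v (anti (x 1)) (anti (x 1)))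
    (ha : argp D v (x 0) (x 1) (lit anti (yM anti x M0)) (TT.getD t (tm0, [])).1.v cs) :
    φ + δ ≤ tval D anti Δ (vn D v (x 0) (x 1)) (yM anti x M0) (TT.getD t (tm0, [])) := by
  set u : ℝ := min (u0.val D anti Δ (vn D v (x 0) (x 1)) (yM anti x M0))
    (u1.val D anti Δ (vn D v (x 0) (x 1)) (yM anti x M0)) with hu
  have hE : Env D anti Δ v x φ δ u (tval D anti Δ (vn D v (x 0) (x 1)) (yM anti x M0) (TT.getD t (tm0, []))) := by
    refine ⟨hs, fun j y hy => ?_, fun y hy => hφ 6 (by omega) y hy, fun j y hy => ?_, d0, d1, fun i => ?_⟩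
    · obtain ⟨i, hi, e⟩ := nT_mem j
      have := hφ i hi y hy
      rw [e] at this
      unfold tval mnl at this
      simpa using this
    · obtain ⟨i, hi, e⟩ := nT_mem j
      have := hmin i hi y hy
      rw [e] at this
      refine this.trans (le_of_eq ?_)
      unfold tval mnl
      simp
    · rcases i with _ | i
      · exact min_le_left _ _
      · exact min_le_right _ _
  have hL : ∃ a b, Rp (at2 D anti Δ v x φ δ u) (rP (TT.getD t (tm0, [])).1 M0 cs) a ∧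
      Rp (at2 D anti Δ v x φ δ u) (Nat.add (rN (TT.getD t (tm0, [])).1 M0 cs) (Nat.mul (bj t) aU)) b ∧
      a - b = tval D anti Δ (vn D v (x 0) (x 1)) (yM anti x M0) (TT.getD t (tm0, [])) := by
    obtain ⟨a, b, h1, h2, h3⟩ := Rp_r (x := x) (φ := φ) (δ := δ) (u := u) hs (TT.getD t (tm0, [])).1 M0 cs
    refine ⟨a, _, h1, h2.add (Rp_U.mul (bj t)), ?_⟩
    rw [rval_eq _ _ _ _ _ ha] at h3
    rw [tval, ← sub_sub, h3, ← mnl_bj D anti Δ (vn D v (x 0) (x 1)) (yM anti x M0) t ht]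
  exact tf_sound hE hL r _ (hF_ok hs _ _ _ ha (fun h hh => absurd hh (List.not_mem_nil))) hj

theorem okTT : okT TT = true := by decide +kernel

/-- **One request.** -/
theorem step_TT (hall : ∀ t < 8, ∀ cs ∈ allcp (TT.getD t (tm0, [])).1.v, ∃ r : Tf, fj (TT.getD t (tm0, [])).1 (bj t) cs r = true)
    (hs : Sp D anti Δ v) (z a : V) {φ φ1 : ℝ}
    (hφ : ∀ j < 8, ∀ y : ℕ → V, y 0 = z → φ ≤ tval D anti Δ v y (TT.getD j (tm0, [])))
    (hφ1 : ∀ j < 8, ∀ y : ℕ → V, y 0 = a → φ1 ≤ tval D anti Δ (vn D v z a) y (TT.getD j (tm0, [])))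
    (hex : ∃ j < 8, ∃ y : ℕ → V, y 0 = a ∧ φ1 = tval D anti Δ (vn D v z a) y (TT.getD j (tm0, []))) :
    φ + min (2 * D a z) (v a (anti a) + Δ - v (anti a) (anti a)) ≤ φ1 := by
  obtain ⟨t, ht, y, hy, rfl⟩ := hex
  let x : ℕ → V := fun i => Nat.rec z (fun n _ => y n) i
  have hx0 : x 0 = z := rfl
  have hx1 : x 1 = a := hy
  have hxy : ∀ i < 7, yM anti x M0 i = y i := by
    intro i hi
    match i, hi with
    | 0, _ => rfl
    | 1, _ => rfl
    | 2, _ => rfl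
    | 3, _ => rfl
    | 4, _ => rfl
    | 5, _ => rfl
    | 6, _ => rfl
  rw [← tval_congr hxy okTT ht]
  rw [← tval_congr hxy okTT ht] at hφ1
  obtain ⟨cs, h1, h2⟩ := ex_argp D v z a (lit anti (yM anti x M0)) (TT.getD t (tm0, [])).1.v
  obtain ⟨r, hr⟩ := hall t ht cs h1
  have e0 : min (2 * D a z) (v a (anti a) + Δ - v (anti a) (anti a)) ≤ 2 * D (x 1) (x 0) := by
    rw [hx1, hx0]; exact min_le_left _ _
  have e1 : min (2 * D a z) (v a (anti a) + Δ - v (anti a) (anti a))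
      ≤ v (x 1) (anti (x 1)) + Δ - v (anti (x 1)) (anti (x 1)) := by
    rw [hx1]; exact min_le_right _ _
  have h3 := fj_sound (x := x) ht hr hs hφ (by rw [hx1, hx0]; exact hφ1) e0 e1 (by rw [hx1, hx0]; exact h2)
  rw [hx1, hx0] at h3
  exact h3

end

/-! ### Lists of jobs -/

theorem fjs_mem {T : Tm} {b : ℕ} : ∀ {l : List ℕ} {rs : List Tf}, fjs T b l rs = true →
    ∀ cs ∈ l, ∃ r : Tf, fj T b cs r = true
  | [], _, _, cs, h => absurd h (List.not_mem_nil)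
  | c :: l, [], h, _, _ => absurd h (by simp [fjs])
  | c :: l, r :: rs, h, cs, hc => by
    rw [fjs, Bool.and_eq_true] at h
    rcases List.mem_cons.1 hc with rfl | hc
    · exact ⟨r, h.1⟩
    · exact fjs_mem h.2 cs hc

/-- gluing: the first `n` jobs and the rest -/
theorem fjs_glue {T : Tm} {b : ℕ} {l : List ℕ} (n : ℕ)
    (h1 : ∀ cs ∈ l.take n, ∃ r : Tf, fj T b cs r = true) (h2 : ∀ cs ∈ l.drop n, ∃ r : Tf, fj T b cs r = true) :
    ∀ cs ∈ l, ∃ r : Tf, fj T b cs r = true := by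
  intro cs hc
  rw [← List.take_append_drop n l] at hc
  rcases List.mem_append.1 hc with h | h
  exacts [h1 cs h, h2 cs h]

/-- gluing of consecutive chunks -/
theorem fjs_step {T : Tm} {b : ℕ} {l : List ℕ} {rs : List Tf} (n m k : ℕ) (h1 : fjs T b ((l.drop n).take m) rs = true)
    (hk : n + m = k) (h2 : ∀ cs ∈ l.drop k, ∃ r : Tf, fj T b cs r = true) :
    ∀ cs ∈ l.drop n, ∃ r : Tf, fj T b cs r = true := by
  refine fjs_glue m (fjs_mem h1) ?_
  rw [List.drop_drop, hk]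
  exact h2

theorem fjs_nil {T : Tm} {b : ℕ} {l : List ℕ} {n : ℕ} (h : l.drop n = []) :
    ∀ cs ∈ l.drop n, ∃ r : Tf, fj T b cs r = true := by
  rw [h]
  exact fun cs hc => absurd hc (List.not_mem_nil)

end Pool.Agent.KServer.R4
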