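import Pool.Agent.Work.MP_fe875b_lc.R4.Sem
import Pool.Agent.Work.MP_fe875b_lc.W.Br3

/-!
MP_fe875b_lc, three servers, ratio 4: from the step inequality of the rank two potential to the
competitive ratio in every metric space.
-/

set_option autoImplicit false
set_option linter.unusedSimpArgs false

namespace Pool.Agent.KServer.R4

open Finset

variable {V : Type}

/-- The points of a template: the last request and six free points. -/
def env (z : V) (y : Fin 6 → V) (j : ℕ) : V := if h : 1 ≤ j ∧ j ≤ 6 then y ⟨j - 1, by omega⟩ else z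

theorem env_zero (z : V) (y : Fin 6 → V) : env z y 0 = z := by
  unfold env
  rw [dif_neg (by omega)]

theorem env_eq (τ : ℕ → V) {j : ℕ} (hj : j ≤ 6) : env (τ 0) (fun i : Fin 6 => τ (i.val + 1)) j = τ j := by
  unfold env
  by_cases h : 1 ≤ j
  · rw [dif_pos ⟨h, hj⟩]
    show τ (j - 1 + 1) = τ j
    congr 1
    omega
  · rw [dif_neg (fun h' => h h'.1)]
    congr 1
    omega

private theorem beq10 : Nat.beq 1 0 = false := rfl

private theorem lit_congr {anti : V → V} {τ τ' : ℕ → V} (h : ∀ j ≤ 6, τ j = τ' j) {l : ℕ} (hl : l < 14) :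
    lit anti τ l = lit anti τ' l := by
  unfold lit
  rw [h (l / 2) (by omega)]

private theorem val_congr (D : V → V → ℝ) (anti : V → V) (Δ : ℝ) (u : V → V → ℝ) {τ τ' : ℕ → V} (T : Tm)
    (hs : T.ok14 = true) (h : ∀ j ≤ 6, τ j = τ' j) : T.val D anti Δ u τ = T.val D anti Δ u τ' := by
  unfold Tm.ok14 at hs
  rw [Bool.and_eq_true, Bool.and_eq_true, List.all_eq_true, List.all_eq_true, List.all_eq_true] at hs
  obtain ⟨h1, h2, h3⟩ := hs
  have key : ∀ q : ℕ × ℕ, (Nat.blt q.1 14 && Nat.blt q.2 14) = true →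
      lit anti τ q.1 = lit anti τ' q.1 ∧ lit anti τ q.2 = lit anti τ' q.2 := by
    intro q hq
    rw [Bool.and_eq_true, Nat.blt_eq, Nat.blt_eq] at hq
    exact ⟨lit_congr h hq.1, lit_congr h hq.2⟩
  unfold Tm.val
  rw [List.map_congr_left (l := T.v) (f := fun q => u (lit anti τ q.1) (lit anti τ q.2))
      (g := fun q => u (lit anti τ' q.1) (lit anti τ' q.2))
      (fun q hq => by rw [(key q (h1 q hq)).1, (key q (h1 q hq)).2]),
    List.map_congr_left (l := T.d) (f := fun q => D (lit anti τ q.1) (lit anti τ q.2))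
      (g := fun q => D (lit anti τ' q.1) (lit anti τ' q.2))
      (fun q hq => by rw [(key q (h2 q hq)).1, (key q (h2 q hq)).2]),
    List.map_congr_left (l := T.e) (f := fun q => D (lit anti τ q.1) (lit anti τ q.2))
      (g := fun q => D (lit anti τ' q.1) (lit anti τ' q.2))
      (fun q hq => by rw [(key q (h3 q hq)).1, (key q (h3 q hq)).2])]

/-- The template number `t`. -/
abbrev tpl (t : ℕ) : Tm × List Tm := TT.getD t (tm0, [])

theorem tpl_ok {t : ℕ} (ht : t < 8) : (tpl t).1.ok14 = true ∧ ∀ O ∈ (tpl t).2, O.ok14 = true := by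
  interval_cases t <;> decide

private theorem tval_congr (D : V → V → ℝ) (anti : V → V) (Δ : ℝ) (u : V → V → ℝ) {t : ℕ} (ht : t < 8) {τ τ' : ℕ → V}
    (h : ∀ j ≤ 6, τ j = τ' j) : tval D anti Δ u τ (tpl t) = tval D anti Δ u τ' (tpl t) := by
  have h1 := tpl_ok ht
  unfold tval
  rw [val_congr D anti Δ u _ h1.1 h,
    List.map_congr_left (f := fun O : Tm => O.val D anti Δ u τ) (g := fun O => O.val D anti Δ u τ')
      (fun O hO => val_congr D anti Δ u O (h1.2 O hO) h)]

/-- The potential with last request `z`. -/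
noncomputable def Pz (D : V → V → ℝ) (anti : V → V) (Δ : ℝ) (z : V) (u : V → V → ℝ) : ℝ :=
  ⨅ q : Fin 8 × (Fin 6 → V), tval D anti Δ u (env z q.2) (tpl q.1.val)

theorem Pz_le [Finite V] (D : V → V → ℝ) (anti : V → V) (Δ : ℝ) (u : V → V → ℝ) {t : ℕ} (ht : t < 8) (τ : ℕ → V) :
    Pz D anti Δ (τ 0) u ≤ tval D anti Δ u τ (tpl t) := by
  have h1 : Pz D anti Δ (τ 0) u ≤ tval D anti Δ u (env (τ 0) (fun i : Fin 6 => τ (i.val + 1))) (tpl t) :=
    ciInf_le (f := fun q : Fin 8 × (Fin 6 → V) => tval D anti Δ u (env (τ 0) q.2) (tpl q.1.val))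
      (Set.finite_range _).bddBelow (⟨t, ht⟩, fun i : Fin 6 => τ (i.val + 1))
  rwa [tval_congr D anti Δ u ht (fun j hj => env_eq τ hj)] at h1

theorem exists_Pz [Finite V] (D : V → V → ℝ) (anti : V → V) (Δ : ℝ) (z : V) (u : V → V → ℝ) :
    ∃ t < 8, ∃ τ : ℕ → V, τ 0 = z ∧ Pz D anti Δ z u = tval D anti Δ u τ (tpl t) := by
  have : Nonempty V := ⟨z⟩
  obtain ⟨q, hq⟩ := exists_eq_ciInf_of_finite
    (f := fun q : Fin 8 × (Fin 6 → V) => tval D anti Δ u (env z q.2) (tpl q.1.val))
  exact ⟨q.1.val, q.1.isLt, env z q.2, env_zero z q.2, hq.symm⟩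

/-- The step inequality of the potential. -/
def Step (D : V → V → ℝ) (anti : V → V) (Δ : ℝ) : Prop :=
  ∀ u : V → V → ℝ, Loc D anti Δ u → ∀ z a : V,
    Pz D anti Δ z u + min (2 * D a z) (u a (anti a) + Δ - u (anti a) (anti a)) ≤ Pz D anti Δ a (vn D u z a)

/-- lower bound at the start -/
theorem Pz_start [Finite V] {D : V → V → ℝ} (hD : Metr D) {anti : V → V} {Δ : ℝ}
    (ha : ∀ x y, D x (anti y) = Δ - D x y) (z : V) :
    6 * Δ ≤ Pz D anti Δ z (fun p q => D z p + D z q) := by
  obtain ⟨t, ht, τ, hτ, h⟩ := exists_Pz D anti Δ z (fun p q => D z p + D z q)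
  rw [h]
  have n := fun x y => hD.nonneg x y
  have c := hD.comm
  have tr := hD.tri
  subst hτ
  have d0 : ∀ x, D x x = 0 := hD.self
  have haa : ∀ x y, D (anti x) (anti y) = D x y := by
    intro x y
    rw [ha, c, ha, c]
    ring
  have ha' : ∀ x y, D (anti x) y = Δ - D x y := by
    intro x y
    rw [c, ha, c]
  interval_cases t
  · simp [tval, TT, Tm.val, mnl, lit, beq10, ha, ha', haa, d0]
    linarith [n (τ 0) (τ 1)]
  · simp [tval, TT, Tm.val, mnl, lit, beq10, ha, ha', haa, d0]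
    linarith [n (τ 0) (τ 1)]
  · simp [tval, TT, Tm.val, mnl, lit, beq10, ha, ha', haa, d0]
    linarith [n (τ 0) (τ 1), n (τ 0) (τ 2)]
  · simp [tval, TT, Tm.val, mnl, lit, beq10, ha, ha', haa, d0]
    linarith [n (τ 0) (τ 1), n (τ 0) (τ 2)]
  · simp [tval, TT, Tm.val, mnl, lit, beq10, ha, ha', haa, d0]
    linarith [n (τ 0) (τ 1), n (τ 0) (τ 2)]
  · simp [tval, TT, Tm.val, mnl, lit, beq10, ha, ha', haa, d0]
    linarith [n (τ 0) (τ 1), n (τ 0) (τ 2)]
  · have h1 : mnl ((tpl 6).2.map fun O => O.val D anti Δ (fun p q => D (τ 0) p + D (τ 0) q) τ) ≤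
        (Tm.mk [(5, 5)] [(2, 4)] [] 0).val D anti Δ (fun p q => D (τ 0) p + D (τ 0) q) τ :=
      mnl_le (List.mem_map.2 ⟨_, List.mem_cons_self, rfl⟩)
    have h2 : (6 : ℝ) * Δ ≤ (tpl 6).1.val D anti Δ (fun p q => D (τ 0) p + D (τ 0) q) τ -
        (Tm.mk [(5, 5)] [(2, 4)] [] 0).val D anti Δ (fun p q => D (τ 0) p + D (τ 0) q) τ := by
      simp [TT, Tm.val, lit, beq10, ha, ha', haa, d0]
      linarith [n (τ 0) (τ 1), n (τ 0) (τ 2), tr (τ 2) (τ 0) (τ 4), tr (τ 1) (τ 0) (τ 5),
        tr (τ 0) (τ 1) (τ 6), tr (τ 1) (τ 0) (τ 2), tr (τ 1) (τ 2) (τ 3), c (τ 2) (τ 0), c (τ 1) (τ 0),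
        n (τ 2) (τ 3)]
    unfold tval
    linarith
  · simp [tval, TT, Tm.val, mnl, lit, beq10, ha, ha', haa, d0]
    linarith [n (τ 0) (τ 1), n (τ 1) (τ 2), tr (τ 0) (τ 1) (τ 5), tr (τ 1) (τ 0) (τ 3), c (τ 1) (τ 0)]

/-- `z` may be taken as the last request of `w`. -/
def LastR (D : V → V → ℝ) (w : (Fin 3 → V) → ℝ) (z : V) : Prop := ∀ X, w X = upd D w z X

theorem lastR_upd {D : V → V → ℝ} (hD : Metr D) {w : (Fin 3 → V) → ℝ} (hw : QWF D w) (z : V) :
    LastR D (upd D w z) z := by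
  intro X
  have h : ∀ i : Fin 3, upd D w z (Function.update X i z) = w (Function.update X i z) := fun i =>
    upd_of_mem (by norm_num) hD hw (i := i) (Function.update_self _ _ _)
  show upd D w z X = ⨅ i : Fin 3, (upd D w z (Function.update X i z) + D z (X i))
  unfold upd at h ⊢
  exact iInf_congr fun i => by rw [h i]

theorem lastR_wf0 {D : V → V → ℝ} (hD : Metr D) (v : V) : LastR D (wf0 D (fun _ : Fin 3 => v)) v := by
  intro X
  refine le_antisymm (le_upd (by norm_num) (qwf_wf0 hD _) v X) ?_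
  refine (upd_le D _ v X 0).trans (le_of_eq ?_)
  rw [wf0_const, wf0_const, Fin.sum_univ_three, Fin.sum_univ_three]
  have e0 : Function.update X 0 v 0 = v := Function.update_self _ _ _
  have e1 : Function.update X 0 v 1 = X 1 := Function.update_of_ne (by decide) _ _
  have e2 : Function.update X 0 v 2 = X 2 := Function.update_of_ne (by decide) _ _
  rw [e0, e1, e2, hD.self]
  ring

theorem lastR_wf {D : V → V → ℝ} (hD : Metr D) (v : V) (σ : List V) :
    LastR D (wf D (fun _ : Fin 3 => v) σ) (σ.getLastD v) := by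
  induction σ using List.reverseRecOn with
  | nil => exact lastR_wf0 hD v
  | append_singleton σ r _ =>
    rw [wf_append]
    have : (σ ++ [r]).getLastD v = r := by simp
    rw [this]
    exact lastR_upd hD (qwf_wf (by norm_num) hD _ σ) r

private theorem w_perm {D : V → V → ℝ} {w : (Fin 3 → V) → ℝ} (hw : QWF D w) (a b c : V) :
    w ![a, b, c] = w ![a, c, b] := by
  rw [← hw.symm ![a, c, b] (Equiv.swap 1 2)]
  congr 1
  funext j
  fin_cases j <;> rfl

private theorem w_perm2 {D : V → V → ℝ} {w : (Fin 3 → V) → ℝ} (hw : QWF D w) (a b c : V) :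
    w ![a, b, c] = w ![b, a, c] := by
  rw [← hw.symm ![b, a, c] (Equiv.swap 0 1)]
  congr 1
  funext j
  fin_cases j <;> rfl

/-- `w` from the rank two function at the last request. -/
theorem row_eq {D : V → V → ℝ} {w : (Fin 3 → V) → ℝ} (hw : QWF D w) {z : V} (hz : LastR D w z) (a b c : V) :
    w ![a, b, c] = min (w ![z, b, c] + D z a) (min (w ![z, a, c] + D z b) (w ![z, a, b] + D z c)) := by
  have e0 : Function.update ![a, b, c] 0 z = ![z, b, c] := by funext j; fin_cases j <;> rfl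
  have e1 : Function.update ![a, b, c] 1 z = ![a, z, c] := by funext j; fin_cases j <;> rfl
  have e2 : Function.update ![a, b, c] 2 z = ![a, b, z] := by funext j; fin_cases j <;> rfl
  have g1 : w ![a, z, c] = w ![z, a, c] := w_perm2 hw a z c
  have g2 : w ![a, b, z] = w ![z, a, b] := by rw [w_perm hw a b z, w_perm2 hw a z b]
  rw [hz ![a, b, c]]
  apply le_antisymm
  · refine le_min ?_ (le_min ?_ ?_)
    · have := upd_le D w z ![a, b, c] 0
      rwa [e0] at this
    · have := upd_le D w z ![a, b, c] 1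
      rwa [e1, g1] at this
    · have := upd_le D w z ![a, b, c] 2
      rwa [e2, g2] at this
  · obtain ⟨i, hi⟩ := exists_upd (k := 3) (by norm_num) D w z ![a, b, c]
    rw [hi]
    fin_cases i
    · show _ ≤ w (Function.update ![a, b, c] 0 z) + D z a
      rw [e0]
      exact min_le_left _ _
    · show _ ≤ w (Function.update ![a, b, c] 1 z) + D z b
      rw [e1, g1]
      exact (min_le_right _ _).trans (min_le_left _ _)
    · show _ ≤ w (Function.update ![a, b, c] 2 z) + D z c
      rw [e2, g2]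
      exact (min_le_right _ _).trans (min_le_right _ _)

theorem vn_upd {D : V → V → ℝ} (hD : Metr D) {w : (Fin 3 → V) → ℝ} (hw : QWF D w) {z : V} (hz : LastR D w z) (r : V) :
    (fun p q => upd D w r ![r, p, q]) = vn D (fun p q => w ![z, p, q]) z r := by
  funext p q
  have h1 : upd D w r ![r, p, q] = w ![r, p, q] := upd_of_mem (by norm_num) hD hw (i := 0) rfl
  rw [h1, row_eq hw hz r p q]
  unfold vn
  rw [hD.comm r z, hD.comm p z, hD.comm q z]

theorem ext_eq {D : V → V → ℝ} (hD : Metr D) {anti : V → V} {Δ : ℝ} (ha : ∀ x y, D x (anti y) = Δ - D x y)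
    {w : (Fin 3 → V) → ℝ} (hw : QWF D w) {z : V} (hz : LastR D w z) (r : V) :
    Δ + w ![r, anti r, anti r] - w ![anti r, anti r, anti r] =
      min (2 * D r z) (w ![z, r, anti r] + Δ - w ![z, anti r, anti r]) := by
  rw [row_eq hw hz r (anti r) (anti r), row_eq hw hz (anti r) (anti r) (anti r)]
  simp only [min_self]
  rw [ha, hD.comm z r]
  rcases le_total (2 * D r z) (w ![z, r, anti r] + Δ - w ![z, anti r, anti r]) with h | h
  · rw [min_eq_left h, min_eq_left (by linarith)]
    ring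
  · rw [min_eq_right h, min_eq_right (by linarith)]
    ring

/-- upper bound: template 1 with `b = c` -/
theorem Pz_le_u [Finite V] {D : V → V → ℝ} {anti : V → V} {Δ : ℝ} {u : V → V → ℝ} (h : Loc D anti Δ u) (z p q : V) :
    Pz D anti Δ z u ≤ 5 * u p q + 6 * Δ := by
  have hc := h.metr.comm
  have h0 := Pz_le D anti Δ u (t := 1) (by norm_num) (fun j => if j = 0 then z else if j = 1 then p else q)
  simp [tval, TT, Tm.val, mnl, lit, beq10] at h0
  have lp : ∀ a b c d : V, u a c ≤ u b d + D a b + D c d := by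
    intro a b c d
    have h1 := h.lip a b c
    have h2 := h.lip c d b
    rw [h.symm c b, h.symm d b] at h2
    linarith
  have h1 := lp (anti z) p (anti z) q
  have h2 := lp (anti p) p (anti p) q
  have h3 := lp (anti q) p (anti q) q
  rw [hc (anti z) p, hc (anti z) q, h.ha, h.ha] at h1
  rw [hc (anti p) p, hc (anti p) q, h.ha, h.ha, h.metr.self] at h2
  rw [hc (anti q) p, hc (anti q) q, h.ha, h.ha, h.metr.self] at h3
  have n1 := h.metr.nonneg p z
  have n2 := h.metr.nonneg q z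
  have n3 := h.metr.nonneg q p
  have n4 := h.metr.nonneg p q
  linarith

theorem Pz_le_five [Finite V] {D : V → V → ℝ} (hD : Metr D) {anti : V → V} {Δ : ℝ}
    (hai : ∀ x, anti (anti x) = x) (ha : ∀ x y, D x (anti y) = Δ - D x y) {w : (Fin 3 → V) → ℝ} (hw : QWF D w)
    {z : V} (hz : LastR D w z) (X : Fin 3 → V) :
    Pz D anti Δ z (fun p q => w ![z, p, q]) ≤ 5 * w X + 6 * Δ := by
  have hX : X = ![X 0, X 1, X 2] := by funext j; fin_cases j <;> rfl
  have hl := loc_of_qwf hD hai ha hw z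
  have h0 := Pz_le_u hl z (X 1) (X 2)
  have h1 := Pz_le_u hl z (X 0) (X 2)
  have h2 := Pz_le_u hl z (X 0) (X 1)
  have n0 := hD.nonneg z (X 0)
  have n1 := hD.nonneg z (X 1)
  have n2 := hD.nonneg z (X 2)
  rw [hX, row_eq hw hz (X 0) (X 1) (X 2)]
  rcases min_choice (w ![z, X 1, X 2] + D z (X 0))
    (min (w ![z, X 0, X 2] + D z (X 1)) (w ![z, X 0, X 1] + D z (X 2))) with h | h
  · rw [h]
    linarith
  · rw [h]
    rcases min_choice (w ![z, X 0, X 2] + D z (X 1)) (w ![z, X 0, X 1] + D z (X 2)) with h' | h'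
    · rw [h']
      linarith
    · rw [h']
      linarith

theorem four_of_step (H : ∀ (V : Type) [Finite V] (D : V → V → ℝ) (anti : V → V) (Δ : ℝ), Metr D →
      (∀ x, anti (anti x) = x) → (∀ x y, D x (anti y) = Δ - D x y) → Step D anti Δ) :
    ∀ (M : Type) [MetricSpace M] (c₀ : Fin 3 → M), ∃ b : ℝ, Comp (fun x y => dist x y) c₀ 4 b := by
  refine all_of_pot (k := 3) (by norm_num) (by norm_num) ?_
  intro V _ D anti Δ v hD hai ha
  have : Nonempty V := ⟨v⟩
  refine ⟨fun σ => Pz D anti Δ (σ.getLastD v)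
    (fun p q => wf D (fun _ => v) σ ![σ.getLastD v, p, q]) - 6 * Δ, ?_, ?_, ?_⟩
  · intro σ r i₀
    have hw := qwf_wf (k := 3) (by norm_num) hD (fun _ => v) σ
    have hz := lastR_wf hD v σ
    have h1 := H V D anti Δ hD hai ha _ (loc_of_qwf hD hai ha hw (σ.getLastD v)) (σ.getLastD v) r
    have h2 := ext_eq hD ha hw hz r
    have e0 : wf D (fun _ => v) σ (Function.update (fun _ => anti r) i₀ r) =
        wf D (fun _ => v) σ ![r, anti r, anti r] := by
      rw [← hw.symm ![r, anti r, anti r] (Equiv.swap i₀ 0)]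
      congr 1
      funext j
      fin_cases i₀ <;> fin_cases j <;> rfl
    have e1 : (fun _ : Fin 3 => anti r) = ![anti r, anti r, anti r] := by
      funext j; fin_cases j <;> rfl
    have e2 : (σ ++ [r]).getLastD v = r := by simp
    show _ ≤ (Pz D anti Δ ((σ ++ [r]).getLastD v)
      (fun p q => wf D (fun _ => v) (σ ++ [r]) ![(σ ++ [r]).getLastD v, p, q]) - 6 * Δ) -
      (Pz D anti Δ (σ.getLastD v) (fun p q => wf D (fun _ => v) σ ![σ.getLastD v, p, q]) - 6 * Δ)
    rw [e0, e1, e2, wf_append, vn_upd hD hw hz r, h2]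
    linarith
  · intro σ X
    have hw := qwf_wf (k := 3) (by norm_num) hD (fun _ => v) σ
    have := Pz_le_five hD hai ha hw (lastR_wf hD v σ) X
    show Pz D anti Δ (σ.getLastD v)
      (fun p q => wf D (fun _ => v) σ ![σ.getLastD v, p, q]) - 6 * Δ ≤ _
    linarith
  · show 0 ≤ Pz D anti Δ v (fun p q => wf D (fun _ : Fin 3 => v) [] ![v, p, q]) - 6 * Δ
    have e : (fun p q => wf D (fun _ : Fin 3 => v) [] ![v, p, q]) = fun p q => D v p + D v q := by
      funext p q
      rw [wf_nil, wf0_const, Fin.sum_univ_three]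
      simp [hD.self]
    rw [e]
    have := Pz_start hD ha v
    linarith

end Pool.Agent.KServer.R4
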