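import Mathlib
import Pool.Agent.Work.MP_fe875b_lc.R4.Chk

/-!
MP_fe875b_lc, R4/Sem: values of the templates of `R4/Chk`.
-/

set_option autoImplicit false

namespace Pool.Agent.KServer.R4

/-! ### Semantics -/

variable {V : Type}

/-- the point of a literal -/
def lit (anti : V → V) (y : ℕ → V) (l : ℕ) : V := cond (Nat.beq (l % 2) 0) (y (l / 2)) (anti (y (l / 2)))

/-- value of a linear template at the assignment `y` of points to symbols -/
def Tm.val (D : V → V → ℝ) (anti : V → V) (Δ : ℝ) (w : V → V → ℝ) (y : ℕ → V) (T : Tm) : ℝ :=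
  (T.v.map fun p => w (lit anti y p.1) (lit anti y p.2)).sum
    + ((T.d.map fun p => D (lit anti y p.1) (lit anti y p.2)).sum
    - (T.e.map fun p => D (lit anti y p.1) (lit anti y p.2)).sum + T.c * Δ)

/-- minimum of a list, `0` for the empty list -/
noncomputable def mnl : List ℝ → ℝ
  | [] => 0
  | a :: l => l.foldl min a

/-- value of a template: base minus the minimum of the options -/
noncomputable def tval (D : V → V → ℝ) (anti : V → V) (Δ : ℝ) (w : V → V → ℝ) (y : ℕ → V) (T : Tm × List Tm) : ℝ :=
  T.1.val D anti Δ w y - mnl (T.2.map fun O => O.val D anti Δ w y)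

theorem foldl_min_le : ∀ (l : List ℝ) (a : ℝ), l.foldl min a ≤ a ∧ ∀ x ∈ l, l.foldl min a ≤ x
  | [], a => ⟨le_refl _, fun _ h => absurd h (List.not_mem_nil)⟩
  | b :: l, a => by
    have h := foldl_min_le l (min a b)
    refine ⟨h.1.trans (min_le_left _ _), fun x hx => ?_⟩
    rcases List.mem_cons.1 hx with rfl | hx
    · exact h.1.trans (min_le_right _ _)
    · exact h.2 x hx

theorem foldl_min_mem : ∀ (l : List ℝ) (a : ℝ), l.foldl min a = a ∨ l.foldl min a ∈ l
  | [], a => Or.inl rfl
  | b :: l, a => by
    rcases foldl_min_mem l (min a b) with h | h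
    · rcases min_choice a b with e | e
      · left; rw [List.foldl_cons, h, e]
      · right; rw [List.foldl_cons, h, e]; exact List.mem_cons_self
    · right; exact List.mem_cons_of_mem _ h

theorem mnl_le {l : List ℝ} {x : ℝ} (h : x ∈ l) : mnl l ≤ x := by
  cases l with
  | nil => exact absurd h (List.not_mem_nil)
  | cons a l =>
    rcases List.mem_cons.1 h with rfl | h
    · exact (foldl_min_le l x).1
    · exact (foldl_min_le l a).2 x h

theorem mnl_mem {l : List ℝ} (h : l ≠ []) : mnl l ∈ l := by
  cases l with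
  | nil => exact absurd rfl h
  | cons a l =>
    rcases foldl_min_mem l a with e | e
    · show l.foldl min a ∈ _
      rw [e]; exact List.mem_cons_self
    · exact List.mem_cons_of_mem _ e

/-- A space with antipodes and a function `v` of two servers. -/
structure Sp (D : V → V → ℝ) (anti : V → V) (Δ : ℝ) (v : V → V → ℝ) : Prop where
  self : ∀ p, D p p = 0
  nn : ∀ p q, 0 ≤ D p q
  comm : ∀ p q, D p q = D q p
  tri : ∀ p q r, D p r ≤ D p q + D q r
  ai : ∀ p, anti (anti p) = p
  an : ∀ p q, D p (anti q) = Δ - D p q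
  vs : ∀ p q, v p q = v q p
  vl : ∀ r p q, v r q ≤ v r p + D p q
  v4 : ∀ p q r s, v p r + v q s ≤ v p q + v r s ∨ v p s + v q r ≤ v p q + v r s

/-- the options for the new function: `z` the last request, `a` the new one -/
def rop (D : V → V → ℝ) (v : V → V → ℝ) (z a : V) (c : ℕ) (p q : V) : ℝ :=
  match c with
  | 0 => v p q + D a z
  | 1 => v a q + D p z
  | _ => v a p + D q z

/-- the new function -/
noncomputable def vn (D : V → V → ℝ) (v : V → V → ℝ) (z a : V) (p q : V) : ℝ :=
  min (v p q + D a z) (min (v a q + D p z) (v a p + D q z))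

theorem vn_le (D : V → V → ℝ) (v : V → V → ℝ) (z a : V) (c : ℕ) (p q : V) : vn D v z a p q ≤ rop D v z a c p q := by
  unfold vn rop
  match c with
  | 0 => exact min_le_left _ _
  | 1 => exact (min_le_right _ _).trans (min_le_left _ _)
  | n + 2 => exact (min_le_right _ _).trans (min_le_right _ _)

theorem vn_eq (D : V → V → ℝ) (v : V → V → ℝ) (z a : V) (p q : V) : ∃ c < 3, vn D v z a p q = rop D v z a c p q := by
  unfold vn
  rcases min_choice (v p q + D a z) (min (v a q + D p z) (v a p + D q z)) with h | h
  · exact ⟨0, by omega, h⟩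
  · rcases min_choice (v a q + D p z) (v a p + D q z) with h' | h'
    · exact ⟨1, by omega, h.trans h'⟩
    · exact ⟨2, by omega, h.trans h'⟩

end Pool.Agent.KServer.R4
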