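import Mathlib

/-!
MP_fe875b_lc, R4/WDefs: the work function algorithm for three servers (definitions of the hand-in).
-/

set_option autoImplicit false

namespace Pool.Agent.KServer.Three

variable {M : Type} [MetricSpace M]

/-- The offline optimum with prescribed end: the least total movement of a schedule of three servers which starts in `c₀`,
serves the requests `σ` in their order and then moves to the positions `X` (in any order of the servers). -/
noncomputable def offCost (c₀ : Fin 3 → M) (σ : List M) (X : Fin 3 → M) : ℝ :=
  sInf {c : ℝ | ∃ S : ℕ → Fin 3 → M,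
    S 0 = c₀ ∧
    (∀ j : Fin σ.length, ∃ i : Fin 3, S (j.val + 1) i = σ.get j) ∧
    (∃ π : Equiv.Perm (Fin 3), ∀ i : Fin 3, S (σ.length + 1) i = X (π i)) ∧
    c = ∑ j ∈ Finset.range (σ.length + 1), ∑ i : Fin 3, dist (S j i) (S (j + 1) i)}

/-- `C` is a work function algorithm for three servers starting in `c₀`; `C l` is the configuration after the requests `l`.
A new request `r` is served by moving from `A = C l` to positions `X` with a server at `r` for which
`offCost (l ++ [r]) X + ∑ j, dist (A j) (X j)` is minimal (ties broken in any way). -/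
def IsWFA (c₀ : Fin 3 → M) (C : List M → (Fin 3 → M)) : Prop :=
  C [] = c₀ ∧
  ∀ (l : List M) (r : M),
    (∃ i : Fin 3, C (l ++ [r]) i = r) ∧
    ∀ Y : Fin 3 → M, (∃ i : Fin 3, Y i = r) →
      offCost c₀ (l ++ [r]) (C (l ++ [r])) + ∑ j : Fin 3, dist (C l j) (C (l ++ [r]) j) ≤
        offCost c₀ (l ++ [r]) Y + ∑ j : Fin 3, dist (C l j) (Y j)

end Pool.Agent.KServer.Three
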