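import Pool.Agent.Work.MP_fe875b_lc.R4.Fc.Four
import Pool.Agent.Work.MP_fe875b_lc.Circ.Wfa

/-!
MP_fe875b_lc, R4/Wf4: every work function algorithm for three servers is 4-competitive in every metric space.
-/

set_option autoImplicit false

namespace Pool.Agent.KServer.R4

open Finset

variable {V : Type}

theorem step_fin [Finite V] (D : V → V → ℝ) (anti : V → V) (Δ : ℝ) : Step D anti Δ := by
  intro u hu z a
  obtain ⟨t, ht, τ, hτ, hP⟩ := exists_Pz D anti Δ a (vn D u z a)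
  refine concl V D anti Δ u (sp_of_loc hu) z a _ _ (fun j hj y hy => ?_) (fun j hj y hy => ?_) ⟨t, ht, τ, hτ, hP⟩
  · have := Pz_le D anti Δ u (t := j) hj y
    rwa [hy] at this
  · have := Pz_le D anti Δ (vn D u z a) (t := j) hj y
    rwa [hy] at this

private theorem val_le (D : V → V → ℝ) (anti : V → V) (Δ : ℝ) {u u' : V → V → ℝ} {K : ℝ}
    (h : ∀ p q, u p q ≤ u' p q + K) (y : ℕ → V) (T : Tm) :
    T.val D anti Δ u y ≤ T.val D anti Δ u' y + T.v.length * K := by
  have key : ∀ l : List (ℕ × ℕ), (l.map fun p => u (lit anti y p.1) (lit anti y p.2)).sum ≤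
      (l.map fun p => u' (lit anti y p.1) (lit anti y p.2)).sum + l.length * K := by
    intro l
    induction l with
    | nil => simp
    | cons a l ih =>
      rw [List.map_cons, List.map_cons, List.sum_cons, List.sum_cons, List.length_cons]
      push_cast
      have := h (lit anti y a.1) (lit anti y a.2)
      linarith
  have := key T.v
  unfold Tm.val
  linarith

private theorem tlen {t : ℕ} (ht : t < 8) : (tpl t).1.v.length + 1 ≤ 7 ∧ ∀ O ∈ (tpl t).2, O.v.length = 1 := by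
  interval_cases t <;> decide

theorem tval_le (D : V → V → ℝ) (anti : V → V) (Δ : ℝ) {u u' : V → V → ℝ} {K : ℝ} (hK : 0 ≤ K)
    (h1 : ∀ p q, u p q ≤ u' p q + K) (h2 : ∀ p q, u' p q ≤ u p q + K) {t : ℕ} (ht : t < 8) (y : ℕ → V) :
    tval D anti Δ u y (tpl t) ≤ tval D anti Δ u' y (tpl t) + 7 * K := by
  obtain ⟨hl, ho⟩ := tlen ht
  have h3 := val_le D anti Δ h1 y (tpl t).1
  have h4 : mnl ((tpl t).2.map fun O => O.val D anti Δ u' y) ≤
      mnl ((tpl t).2.map fun O => O.val D anti Δ u y) + K := by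
    rcases eq_or_ne (tpl t).2 [] with e | e
    · rw [e]
      show (0 : ℝ) ≤ 0 + K
      linarith
    · have hm := mnl_mem (l := (tpl t).2.map fun O => O.val D anti Δ u y) (by simpa using e)
      obtain ⟨O, hO, hv⟩ := List.mem_map.1 hm
      have h5 := mnl_le (List.mem_map_of_mem (f := fun O : Tm => O.val D anti Δ u' y) hO)
      have h6 := val_le D anti Δ h2 y O
      rw [ho O hO] at h6
      push_cast at h6
      rw [← hv]
      linarith
  have h7 : (((tpl t).1.v.length : ℝ) + 1) ≤ 7 := by exact_mod_cast hl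
  have h8 : (((tpl t).1.v.length : ℝ) + 1) * K ≤ 7 * K := mul_le_mul_of_nonneg_right h7 hK
  unfold tval
  linarith

theorem Pz_mono [Finite V] (D : V → V → ℝ) (anti : V → V) (Δ : ℝ) {u u' : V → V → ℝ} {K : ℝ} (hK : 0 ≤ K)
    (h1 : ∀ p q, u p q ≤ u' p q + K) (h2 : ∀ p q, u' p q ≤ u p q + K) (z : V) :
    Pz D anti Δ z u ≤ Pz D anti Δ z u' + 7 * K := by
  obtain ⟨t, ht, τ, hτ, hP⟩ := exists_Pz D anti Δ z u'
  rw [hP]
  have h3 := Pz_le D anti Δ u ht τ
  rw [hτ] at h3
  exact h3.trans (tval_le D anti Δ hK h1 h2 ht τ)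

theorem pot_step [Finite V] {D : V → V → ℝ} (hD : Metr D) {anti : V → V} {Δ : ℝ} (hai : ∀ x, anti (anti x) = x)
    (ha : ∀ x y, D x (anti y) = Δ - D x y) {w : (Fin 3 → V) → ℝ} (hw : QWF D w) {z : V} (hz : LastR D w z) (r : V) :
    Pz D anti Δ z (fun p q => w ![z, p, q]) + (Δ + w ![r, anti r, anti r] - w ![anti r, anti r, anti r]) ≤
      Pz D anti Δ r (fun p q => upd D w r ![r, p, q]) := by
  have h1 := step_fin D anti Δ _ (loc_of_qwf hD hai ha hw z) z r
  rw [vn_upd hD hw hz r, ext_eq hD ha hw hz r]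
  exact h1

theorem le_wf0_const {D : V → V → ℝ} (hD : Metr D) (c₀ : Fin 3 → V) (v : V) (X : Fin 3 → V) :
    wf0 D c₀ X ≤ wf0 D (fun _ => v) X + ∑ i, D (c₀ i) v := by
  have h1 : wf0 D c₀ X ≤ ∑ i, D (c₀ i) (X ((1 : Equiv.Perm (Fin 3)) i)) :=
    ciInf_le (f := fun π : Equiv.Perm (Fin 3) => ∑ i : Fin 3, D (c₀ i) (X (π i))) (Set.finite_range _).bddBelow 1
  rw [wf0_const, ← sum_add_distrib]
  refine h1.trans (sum_le_sum fun i _ => ?_)
  have := hD.tri (c₀ i) v (X i)
  simp only [Equiv.Perm.coe_one, id_eq]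
  linarith

/-- the first request from any start -/
theorem first_step [Finite V] {D : V → V → ℝ} (hD : Metr D) {anti : V → V} {Δ : ℝ} (hai : ∀ x, anti (anti x) = x)
    (ha : ∀ x y, D x (anti y) = Δ - D x y) (c₀ : Fin 3 → V) (v r : V) :
    6 * Δ - 9 * ∑ i, D (c₀ i) v ≤ Pz D anti Δ r (fun p q => upd D (wf0 D c₀) r ![r, p, q]) -
      (Δ + wf0 D c₀ ![r, anti r, anti r] - wf0 D c₀ ![anti r, anti r, anti r]) := by
  have hE : 0 ≤ ∑ i, D (c₀ i) v := sum_nonneg fun i _ => hD.nonneg _ _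
  have hwa := qwf_wf0 (k := 3) hD (fun _ => v)
  have hw0 := qwf_wf0 (k := 3) hD c₀
  have h1 := pot_step hD hai ha hwa (lastR_wf0 hD v) r
  have h2 := Pz_start hD ha v
  have e1 : (fun p q => wf0 D (fun _ : Fin 3 => v) ![v, p, q]) = fun p q => D v p + D v q := by
    funext p q
    rw [wf0_const, Fin.sum_univ_three]
    simp [hD.self]
  rw [e1] at h1
  have e2 : ∀ w : (Fin 3 → V) → ℝ, QWF D w → (fun p q => upd D w r ![r, p, q]) = fun p q => w ![r, p, q] := by
    intro w hw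
    funext p q
    exact upd_of_mem (by norm_num) hD hw (i := 0) rfl
  rw [e2 _ hwa] at h1
  rw [e2 _ hw0]
  have h3 := Pz_mono D anti Δ hE (u := fun p q => wf0 D (fun _ : Fin 3 => v) ![r, p, q])
    (u' := fun p q => wf0 D c₀ ![r, p, q]) (fun p q => wf0_const_le hD c₀ v _) (fun p q => le_wf0_const hD c₀ v _) r
  have h4 := le_wf0_const hD c₀ v ![r, anti r, anti r]
  have h5 := wf0_const_le hD c₀ v ![anti r, anti r, anti r]
  linarith

theorem lastR_of_ne {D : V → V → ℝ} (hD : Metr D) (c₀ : Fin 3 → V) {τ : List V} (hτ : τ ≠ []) (v : V) :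
    LastR D (wf D c₀ τ) (τ.getLastD v) := by
  rcases List.eq_nil_or_concat τ with h | ⟨l, r, h⟩
  · exact absurd h hτ
  · rw [List.concat_eq_append] at h
    subst h
    rw [wf_append]
    have : (l ++ [r]).getLastD v = r := by simp
    rw [this]
    exact lastR_upd hD (qwf_wf (by norm_num) hD _ l) r

/-- Every work function algorithm for three servers is 4-competitive in every metric space. -/
theorem wfa_four (M : Type) [MetricSpace M] (c₀ : Fin 3 → M) (C : List M → Fin 3 → M) (hC : IsWFA dist c₀ C) (a : M)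
    (σ : List M) (S : ℕ → Fin 3 → M) (hS : Serves c₀ σ S) :
    algCost dist C σ ≤ 4 * schedCost dist S σ.length + 9 * ∑ i, dist (c₀ i) a := by
  classical
  have hMet : Metr (dist : M → M → ℝ) :=
    { self := fun x => dist_self _
      nonneg := fun x y => dist_nonneg
      tri := fun x y z => dist_triangle _ _ _
      comm := fun x y => dist_comm _ _ }
  have hE : 0 ≤ ∑ i, dist (c₀ i) a := sum_nonneg fun i _ => dist_nonneg
  rcases hσe : σ with _ | ⟨r₁, σ'⟩
  · rw [algCost_nil]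
    have := schedCost_nonneg hMet.toIsDist S ([] : List M).length
    linarith
  have hσ0 : σ ≠ [] := by rw [hσe]; exact List.cons_ne_nil _ _
  have hr₁ : [r₁] <+: σ := by rw [hσe]; exact ⟨σ', rfl⟩
  rw [← hσe]
  let F : Finset M := insert a (univ.image c₀ ∪ σ.toFinset ∪ univ.image (S σ.length) ∪
    ((range (σ.length + 1)) ×ˢ (univ : Finset (Fin 3))).image (fun p => C (σ.take p.1) p.2))
  have haF0 : a ∈ F := mem_insert_self _ _
  have hσF : ∀ x ∈ σ, x ∈ (F : Set M) := fun x hx =>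
    mem_insert_of_mem (mem_union_left _ (mem_union_left _ (mem_union_right _ (List.mem_toFinset.2 hx))))
  have hcF : ∀ i, c₀ i ∈ (F : Set M) := fun i =>
    mem_insert_of_mem (mem_union_left _ (mem_union_left _ (mem_union_left _ (mem_image_of_mem _ (mem_univ i)))))
  have hSF : ∀ i, S σ.length i ∈ (F : Set M) := fun i =>
    mem_insert_of_mem (mem_union_left _ (mem_union_right _ (mem_image_of_mem _ (mem_univ i))))
  have hCF : ∀ (τ : List M), τ <+: σ → ∀ i, C τ i ∈ (F : Set M) := by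
    intro τ hτ i
    refine mem_insert_of_mem (mem_union_right _ (mem_image.2 ⟨(τ.length, i), ?_, ?_⟩))
    · exact mem_product.2 ⟨mem_range.2 (Nat.lt_succ_of_le hτ.length_le), mem_univ _⟩
    · show C (σ.take τ.length) i = C τ i
      rw [← List.prefix_iff_eq_take.1 hτ]
  clear_value F
  have hfin : Finite {x : M // x ∈ F} := inferInstance
  let D₀ : {x : M // x ∈ F} → {x : M // x ∈ F} → ℝ := fun x y => dist x.1 y.1
  have hD₀ : Metr D₀ :=
    { self := fun x => dist_self _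
      nonneg := fun x y => dist_nonneg
      tri := fun x y z => dist_triangle _ _ _
      comm := fun x y => dist_comm _ _ }
  obtain ⟨B, hB⟩ : ∃ B : ℝ, ∀ x y, D₀ x y ≤ B := by
    obtain ⟨B, hB⟩ := (Set.finite_range fun p : {x : M // x ∈ F} × {x : M // x ∈ F} => D₀ p.1 p.2).bddAbove
    exact ⟨B, fun x y => hB ⟨(x, y), rfl⟩⟩
  have hD := metr_antiD hD₀ hB (le_refl (2 * B))
  have ha := antiD_swap D₀ (2 * B)
  have hai : ∀ x : {x : M // x ∈ F} ⊕ {x : M // x ∈ F}, Sum.swap (Sum.swap x) = x := fun x => Sum.swap_swap x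
  generalize 2 * B = Δ at hD ha
  let φ : M → {x : M // x ∈ F} ⊕ {x : M // x ∈ F} := fun x => if hx : x ∈ F then Sum.inl ⟨x, hx⟩ else Sum.inl ⟨a, haF0⟩
  have hφ : ∀ x (hx : x ∈ F), φ x = Sum.inl ⟨x, hx⟩ := by
    intro x hx
    show (if hx : x ∈ F then (Sum.inl ⟨x, hx⟩ : {x : M // x ∈ F} ⊕ {x : M // x ∈ F}) else Sum.inl ⟨a, haF0⟩) = _
    rw [dif_pos hx]
  have hdist : ∀ x ∈ (F : Set M), ∀ y ∈ (F : Set M), antiD D₀ Δ (φ x) (φ y) = dist x y := by
    intro x hx y hy
    rw [hφ x hx, hφ y hy]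
    rfl
  have hwf : ∀ τ : List M, τ <+: σ → ∀ X : Fin 3 → M, (∀ i, X i ∈ (F : Set M)) →
      wf (antiD D₀ Δ) (fun i => φ (c₀ i)) (τ.map φ) (fun i => φ (X i)) = wf dist c₀ τ X := fun τ hτ X hX =>
    wf_map φ hdist hcF τ (fun x hx => hσF x (hτ.subset hx)) X hX
  clear_value φ
  generalize antiD D₀ Δ = D' at hD ha hdist hwf
  have hw := fun τ' => qwf_wf (k := 3) (by norm_num) hD (fun i => φ (c₀ i)) τ'
  let w₀ := wf D' (fun i => φ (c₀ i)) []
  let e₀ : ℝ := Δ + w₀ ![φ r₁, Sum.swap (φ r₁), Sum.swap (φ r₁)] -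
    w₀ ![Sum.swap (φ r₁), Sum.swap (φ r₁), Sum.swap (φ r₁)]
  let G : List M → ℝ := fun τ => Pz D' Sum.swap Δ ((τ.map φ).getLastD (φ a))
    (fun p q => wf D' (fun i => φ (c₀ i)) (τ.map φ) ![(τ.map φ).getLastD (φ a), p, q])
  have hup : ∀ (τ' : List ({x : M // x ∈ F} ⊕ {x : M // x ∈ F})) (r : {x : M // x ∈ F} ⊕ {x : M // x ∈ F})
      (X : Fin 3 → {x : M // x ∈ F} ⊕ {x : M // x ∈ F}),
      wf D' (fun i => φ (c₀ i)) (τ' ++ [r]) X - wf D' (fun i => φ (c₀ i)) τ' X ≤
        Δ + wf D' (fun i => φ (c₀ i)) τ' ![r, Sum.swap r, Sum.swap r] -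
          wf D' (fun i => φ (c₀ i)) τ' ![Sum.swap r, Sum.swap r, Sum.swap r] := by
    intro τ' r X
    have h4 := upd_sub_le hD ha (hw τ') r 0 X
    rw [← wf_append] at h4
    have e1 : (fun _ : Fin 3 => Sum.swap r) = ![Sum.swap r, Sum.swap r, Sum.swap r] := by
      funext j; fin_cases j <;> rfl
    have e2 : Function.update (fun _ : Fin 3 => Sum.swap r) 0 r = ![r, Sum.swap r, Sum.swap r] := by
      funext j; fin_cases j <;> rfl
    rwa [e2, e1] at h4
  have key := wfa_bound (k := 3) (by norm_num) hMet hC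
    (fun τ => if τ = [] then G [r₁] - e₀ else G τ) σ (by
      intro τ r hτ
      have hτ' : τ <+: σ := (List.prefix_append _ _).trans hτ
      rw [← hwf (τ ++ [r]) hτ _ (hCF τ hτ'), ← hwf τ hτ' _ (hCF τ hτ')]
      have em : (τ ++ [r]).map φ = τ.map φ ++ [φ r] := by simp
      have ne : τ ++ [r] ≠ [] := by simp
      have h4 := hup (τ.map φ) (φ r) (fun i => φ (C τ i))
      rw [← em] at h4
      by_cases h0 : τ = []
      · subst h0
        have hr : r = r₁ := by
          rw [hσe] at hτ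
          obtain ⟨t, ht⟩ := hτ
          simpa using (List.cons.inj ht).1
        subst hr
        simp only [if_true, List.nil_append, List.map_nil, List.cons_ne_nil, if_false] at h4 ⊢
        show _ ≤ G [r] - (G [r] - e₀)
        have : e₀ = Δ + wf D' (fun i => φ (c₀ i)) [] ![φ r, Sum.swap (φ r), Sum.swap (φ r)] -
            wf D' (fun i => φ (c₀ i)) [] ![Sum.swap (φ r), Sum.swap (φ r), Sum.swap (φ r)] := rfl
        linarith
      · rw [if_neg ne, if_neg h0]
        have h5 := pot_step hD hai ha (hw (τ.map φ)) (lastR_of_ne hD _ (by simpa using h0) (φ a)) (φ r)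
        rw [← wf_append] at h5
        have e5 : (τ.map φ ++ [φ r]).getLastD (φ a) = φ r := by simp
        have e6 : G (τ ++ [r]) = Pz D' Sum.swap Δ (φ r)
            (fun p q => wf D' (fun i => φ (c₀ i)) (τ.map φ ++ [φ r]) ![φ r, p, q]) := by
          show Pz D' Sum.swap Δ (((τ ++ [r]).map φ).getLastD (φ a))
            (fun p q => wf D' (fun i => φ (c₀ i)) ((τ ++ [r]).map φ) ![((τ ++ [r]).map φ).getLastD (φ a), p, q]) = _
          rw [em, e5]
        rw [e6]
        have e7 : G τ = Pz D' Sum.swap Δ ((τ.map φ).getLastD (φ a))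
          (fun p q => wf D' (fun i => φ (c₀ i)) (τ.map φ) ![(τ.map φ).getLastD (φ a), p, q]) := rfl
        rw [e7]
        linarith)
  simp only [if_true, if_neg hσ0] at key
  have hfirst := first_step hD hai ha (fun i => φ (c₀ i)) (φ a) (φ r₁)
  have eE : ∑ i, D' (φ (c₀ i)) (φ a) = ∑ i, dist (c₀ i) a :=
    sum_congr rfl fun i _ => hdist _ (hcF i) _ haF0
  rw [eE] at hfirst
  have eG : G [r₁] = Pz D' Sum.swap Δ (φ r₁) (fun p q => upd D' (wf0 D' fun i => φ (c₀ i)) (φ r₁) ![φ r₁, p, q]) := by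
    show Pz D' Sum.swap Δ (([r₁].map φ).getLastD (φ a))
      (fun p q => wf D' (fun i => φ (c₀ i)) ([r₁].map φ) ![([r₁].map φ).getLastD (φ a), p, q]) = _
    have e8 : [r₁].map φ = [] ++ [φ r₁] := by simp
    have e9 : ([] ++ [φ r₁]).getLastD (φ a) = φ r₁ := by simp
    rw [e8, e9, wf_append, wf_nil]
  rw [← eG] at hfirst
  have ee : e₀ = Δ + wf0 D' (fun i => φ (c₀ i)) ![φ r₁, Sum.swap (φ r₁), Sum.swap (φ r₁)] -
    wf0 D' (fun i => φ (c₀ i)) ![Sum.swap (φ r₁), Sum.swap (φ r₁), Sum.swap (φ r₁)] := rfl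
  rw [← ee] at hfirst
  have hsub := wf_le_sched (k := 3) (by norm_num) hMet c₀ σ S hS
  have hlast := lastR_of_ne hD (fun i => φ (c₀ i)) (τ := σ.map φ) (by simpa using hσ0) (φ a)
  have b1 := Pz_le_five hD hai ha (hw (σ.map φ)) hlast (fun i => φ (C σ i))
  have b2 := Pz_le_five hD hai ha (hw (σ.map φ)) hlast (fun i => φ (S σ.length i))
  rw [hwf σ (List.prefix_refl _) _ (hCF σ (List.prefix_refl _))] at b1
  rw [hwf σ (List.prefix_refl _) _ hSF] at b2
  have eσ : G σ = Pz D' Sum.swap Δ ((σ.map φ).getLastD (φ a))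
    (fun p q => wf D' (fun i => φ (c₀ i)) (σ.map φ) ![(σ.map φ).getLastD (φ a), p, q]) := rfl
  rw [← eσ] at b1 b2
  rcases le_total (wf dist c₀ σ (C σ)) (wf dist c₀ σ (S σ.length)) with h6 | h6
  · linarith
  · linarith

end Pool.Agent.KServer.R4
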